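import Pool.Agent.Lib.MP_99e598_lc.Turing

/-! # Measure-theoretic facts about the coin-toss measure. -/

namespace Pool.Agent.AttrHIF

open Filter Topology MeasureTheory ProbabilityTheory

/-- the fair coin -/
noncomputable def coin1 : Measure Bool := (PMF.uniformOfFintype Bool).toMeasure

instance : IsProbabilityMeasure coin1 := by unfold coin1; infer_instance

theorem coin_eq : coin = Measure.infinitePi (fun _ : ℕ => coin1) := rfl

instance : IsProbabilityMeasure coin := by rw [coin_eq]; infer_instance

theorem coin1_singleton (b : Bool) : coin1 {b} = 2⁻¹ := by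
  unfold coin1
  rw [PMF.toMeasure_apply_singleton _ _ (measurableSet_singleton b),
    PMF.uniformOfFintype_apply]
  simp

theorem coin1_map (y : Bool) : coin1.map (fun b => xor b y) = coin1 := by
  have hm : Measurable (fun b : Bool => xor b y) := measurable_of_finite _
  apply Measure.ext_of_singleton
  intro b
  rw [Measure.map_apply hm (measurableSet_singleton b)]
  have : (fun b => xor b y) ⁻¹' {b} = {xor b y} := by
    ext c
    simp only [Set.mem_preimage, Set.mem_singleton_iff]
    cases b <;> cases c <;> cases y <;> simp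
  rw [this, coin1_singleton, coin1_singleton]

theorem coin_map_xor (Y : ℕ → Bool) :
    coin.map (fun B : ℕ → Bool => fun i => xor (B i) (Y i)) = coin := by
  rw [coin_eq]
  have := Measure.infinitePi_map_pi (μ := fun _ : ℕ => coin1)
    (f := fun (i : ℕ) (b : Bool) => xor b (Y i)) (fun i => measurable_of_finite _)
  rw [this]
  congr 1
  funext i
  exact coin1_map (Y i)

/-- the cylinder above a binary word -/
def cyl (w : List Bool) : Set (ℕ → Bool) := {X | (List.range w.length).map X = w}

theorem mem_cyl_iff (w : List Bool) (X : ℕ → Bool) :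
    X ∈ cyl w ↔ ∀ i < w.length, some (X i) = w[i]? := by
  unfold cyl
  simp only [Set.mem_ofPred_eq]
  constructor
  · intro h i hi
    rw [← h]
    simp [hi]
  · intro h
    apply List.ext_getElem
    · simp
    · intro i h1 h2
      have := h i h2
      rw [List.getElem?_eq_getElem h2] at this
      simpa using this

theorem coin_cyl (w : List Bool) : coin (cyl w) = 2⁻¹ ^ w.length := by
  have h1 : cyl w = Set.pi (Finset.range w.length : Set ℕ)
      (fun i => {(w[i]?).getD false}) := by
    ext X
    rw [mem_cyl_iff]
    simp only [Set.mem_pi, Finset.coe_range, Set.mem_Iio, Set.mem_singleton_iff]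
    refine forall_congr' fun i => forall_congr' fun hi => ?_
    rw [List.getElem?_eq_getElem hi]
    simp
  rw [h1, coin_eq, Measure.infinitePi_pi _ (fun i _ => measurableSet_singleton _)]
  simp [coin1_singleton]

theorem measurableSet_cyl (w : List Bool) : MeasurableSet (cyl w) := by
  have h1 : cyl w = ⋂ i ∈ Finset.range w.length, {X : ℕ → Bool | some (X i) = w[i]?} := by
    ext X
    rw [mem_cyl_iff]
    simp
  rw [h1]
  refine Finset.measurableSet_biInter _ (fun i _ => ?_)
  have hm : Measurable (fun X : ℕ → Bool => X i) := measurable_pi_apply i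
  exact hm (MeasurableSet.of_discrete (s := {b : Bool | some b = w[i]?}))

/-- A list of words generates an open set of small measure. -/
theorem coin_openOf_list (L : List (List Bool)) (ℓ : ℕ) (h : ∀ w ∈ L, w.length = ℓ) :
    coin (openOf (fun w => w ∈ L)) ≤ L.length * 2⁻¹ ^ ℓ := by
  induction L with
  | nil =>
    have : openOf (fun w => w ∈ ([] : List (List Bool))) = ∅ := by
      ext X; simp [openOf]
    rw [this]; simp
  | cons a L ih =>
    have hsub : openOf (fun w => w ∈ a :: L) ⊆ cyl a ∪ openOf (fun w => w ∈ L) := by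
      rintro X ⟨n, hn⟩
      rcases List.mem_cons.1 hn with h1 | h1
      · left
        have : a.length = n := by rw [← h1]; simp
        unfold cyl
        simp only [Set.mem_ofPred_eq]
        rw [this]; exact h1
      · exact Or.inr ⟨n, h1⟩
    calc coin (openOf (fun w => w ∈ a :: L)) ≤ coin (cyl a) + coin (openOf (fun w => w ∈ L)) :=
          (measure_mono hsub).trans (measure_union_le _ _)
      _ ≤ 2⁻¹ ^ ℓ + L.length * 2⁻¹ ^ ℓ := by
          gcongr
          · rw [coin_cyl, h a (by simp)]
          · exact ih (fun w hw => h w (by simp [hw]))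
      _ = ((a :: L).length : ENNReal) * 2⁻¹ ^ ℓ := by
          rw [List.length_cons]
          push_cast
          ring

/-- A computable sequence of finite lists of words of total measure at most `2 ^ -j` covering
`R` shows that `R` is not `1`-random. -/
theorem not_oneRandom (R : ℕ → Bool) (Lb : ℕ → List (List Bool)) (hLb : Computable Lb)
    (ℓ : ℕ → ℕ) (h1 : ∀ j, ∀ w ∈ Lb j, w.length = ℓ j)
    (h2 : ∀ j, (Lb j).length * 2 ^ j ≤ 2 ^ ℓ j)
    (h3 : ∀ j, ∃ w ∈ Lb j, ∀ i < w.length, some (R i) = w[i]?) : ¬ OneRandom R := by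
  intro hR
  obtain ⟨n, hn⟩ := hR (fun j w => w ∈ Lb j) {
    re := by
      apply ComputablePred.to_re
      have : Computable (fun p : ℕ × List Bool => inL p.2 (Lb p.1)) := by fun_prop
      refine ComputablePred.of_eq (p := fun p : ℕ × List Bool => inL p.2 (Lb p.1) = true) ?_ ?_
      · apply Computable.computablePred
        exact this.of_eq (fun p => by simp [inL])
      · intro p; simp
    meas := by
      intro j
      refine (coin_openOf_list (Lb j) (ℓ j) (h1 j)).trans ?_
      have h4 : ((Lb j).length : ENNReal) * 2 ^ j ≤ 2 ^ ℓ j := by exact_mod_cast h2 j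
      have h2j : (2 : ENNReal) ^ j ≠ 0 := by positivity
      have h2j' : (2 : ENNReal) ^ j ≠ ⊤ := by finiteness
      have h2l : (2 : ENNReal) ^ ℓ j ≠ 0 := by positivity
      have h2l' : (2 : ENNReal) ^ ℓ j ≠ ⊤ := by finiteness
      rw [← ENNReal.inv_pow, ← ENNReal.inv_pow, ← div_eq_mul_inv,
        ENNReal.div_le_iff h2l h2l', ← ENNReal.div_eq_inv_mul,
        ENNReal.le_div_iff_mul_le (Or.inl h2j) (Or.inl h2j')]
      exact h4 }
  obtain ⟨w, hw1, hw2⟩ := h3 n
  apply hn
  refine ⟨w.length, ?_⟩
  have : R ∈ cyl w := (mem_cyl_iff w R).2 hw2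
  have h5 : (List.range w.length).map R = w := this
  rw [h5]
  exact hw1

/-- The strong law of large numbers for Cantor space. -/
theorem slln_zero : ∀ᵐ B ∂coin, Tendsto (density {k | B k = true}) atTop (𝓝 (1 / 2)) := by
  classical
  let X : ℕ → (ℕ → Bool) → ℝ := fun i B => if B i = true then 1 else 0
  have hX : ∀ i, Measurable (X i) := by
    intro i
    have h1 : Measurable (fun b : Bool => if b = true then (1 : ℝ) else 0) := measurable_of_finite _
    exact h1.comp (measurable_pi_apply i)
  have hind : iIndepFun X coin := by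
    rw [coin_eq]
    exact iIndepFun_infinitePi (P := fun _ : ℕ => coin1)
      (X := fun (_ : ℕ) (b : Bool) => if b = true then (1 : ℝ) else 0)
      (fun _ => measurable_of_finite _)
  have hbd : ∀ i B, ‖X i B‖ ≤ 1 := by
    intro i B
    simp only [X]
    split_ifs <;> simp
  have hint : Integrable (X 0) coin :=
    Integrable.of_bound (hX 0).aestronglyMeasurable 1 (Eventually.of_forall (hbd 0))
  have hid : ∀ i, IdentDistrib (X i) (X 0) coin coin := by
    intro i
    refine ⟨(hX i).aemeasurable, (hX 0).aemeasurable, ?_⟩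
    have h1 : Measurable (fun b : Bool => if b = true then (1 : ℝ) else 0) := measurable_of_finite _
    have e : ∀ j, coin.map (X j) = coin1.map (fun b : Bool => if b = true then (1 : ℝ) else 0) := by
      intro j
      have h2 := Measure.infinitePi_map_eval (fun _ : ℕ => coin1) j
      rw [← coin_eq] at h2
      have h3 : coin1 = coin.map (Function.eval j) := h2.symm
      conv_rhs => rw [h3]
      rw [Measure.map_map h1 (measurable_pi_apply j)]
      rfl
    rw [e i, e 0]
  have hE : ∫ B, X 0 B ∂coin = 1 / 2 := by
    have h1 : X 0 = Set.indicator (cyl [true]) (fun _ => (1 : ℝ)) := by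
      funext B
      simp only [X, Set.indicator]
      have : (B ∈ cyl [true]) ↔ B 0 = true := by
        rw [mem_cyl_iff]
        simp
      simp only [this]
    rw [h1, integral_indicator (measurableSet_cyl _)]
    simp [Measure.real, coin_cyl]
  have h := strong_law_ae_real X hint (fun i j hij => hind.indepFun hij) hid
  filter_upwards [h] with B hB
  rw [hE] at hB
  refine hB.congr (fun n => ?_)
  unfold density
  congr 1
  have e1 : ({k | B k = true} ∩ Set.Iio n) = (((Finset.range n).filter (fun k => B k = true) :
      Finset ℕ) : Set ℕ) := by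
    ext k
    simp [and_comm]
  rw [e1, Set.ncard_coe_finset, Finset.card_filter]
  push_cast
  rfl

theorem slln (Y : ℕ → Bool) :
    ∀ᵐ B ∂coin, Tendsto (density (symDiff B Y)) atTop (𝓝 (1 / 2)) := by
  have hm : Measurable (fun B : ℕ → Bool => fun i => xor (B i) (Y i)) := by
    rw [measurable_pi_iff]
    intro i
    exact (measurable_of_finite (fun b : Bool => xor b (Y i))).comp (measurable_pi_apply i)
  have h := slln_zero
  rw [← coin_map_xor Y] at h
  have h2 := ae_of_ae_map hm.aemeasurable h
  filter_upwards [h2] with B hB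
  have : symDiff B Y = {k | xor (B k) (Y k) = true} := by
    ext k
    simp [symDiff]
  rw [this]
  exact hB

/-- The computation of `H`. -/
theorem H_eq_half {A B : ℕ → Bool}
    (h1 : ∀ A', degreeOf A' = degreeOf A → upperDensity (symDiff B A') = 1 / 2)
    (h2 : ∀ B', degreeOf B' = degreeOf B → ∀ ε > (0 : ℝ), ∃ A', degreeOf A' = degreeOf A ∧
      upperDensity (symDiff B' A') ≤ 1 / 2 + ε) :
    H (degreeOf A) (degreeOf B) = 1 / 2 := by
  unfold H degreeClosure
  rw [Metric.hausdorffDist_closure]
  set SA : Set CoarseClass := {x | ∃ A' : ℕ → Bool, degreeOf A' = degreeOf A ∧ x = cls A'} with hSA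
  set SB : Set CoarseClass := {x | ∃ A' : ℕ → Bool, degreeOf A' = degreeOf B ∧ x = cls A'} with hSB
  have hAmem : cls A ∈ SA := ⟨A, rfl, rfl⟩
  have hBmem : cls B ∈ SB := ⟨B, rfl, rfl⟩
  have hbdd : ∀ s : Set CoarseClass, Bornology.IsBounded s := by
    intro s
    rw [Metric.isBounded_iff]
    refine ⟨1, ?_⟩
    intro x _ y _
    induction x, y using Quotient.inductionOn₂ with
    | h X Y => exact upperDensity_le_one _
  apply le_antisymm
  · apply Metric.hausdorffDist_le_of_infDist (by norm_num)
    · rintro x ⟨A', hA', rfl⟩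
      refine (Metric.infDist_le_dist_of_mem hBmem).trans ?_
      rw [dist_cls, symDiff_comm, h1 A' hA']
    · rintro x ⟨B', hB', rfl⟩
      apply le_of_forall_pos_le_add
      intro ε hε
      obtain ⟨A', hA', hd⟩ := h2 B' hB' ε hε
      have hmem : cls A' ∈ SA := ⟨A', hA', rfl⟩
      refine (Metric.infDist_le_dist_of_mem hmem).trans ?_
      rw [dist_cls]
      exact hd
  · have h3 : (1 / 2 : ℝ) ≤ Metric.infDist (cls B) SA := by
      rw [Metric.le_infDist (show SA.Nonempty from ⟨_, hAmem⟩)]
      rintro y ⟨A', hA', rfl⟩
      rw [dist_cls, h1 A' hA']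
    refine h3.trans ?_
    rw [Metric.hausdorffDist_comm]
    exact Metric.infDist_le_hausdorffDist_of_mem hBmem
      (Metric.hausdorffEDist_ne_top_of_nonempty_of_bounded ⟨_, hBmem⟩ ⟨_, hAmem⟩ (hbdd _) (hbdd _))

end Pool.Agent.AttrHIF
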