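import Pool.Agent.Lib.MP_99e598_lc.Trace
import Pool.Agent.Lib.MP_99e598_lc.Meas

/-! # A function avoiding all traces computes a good approximation to every set computable
from a random oracle. -/

namespace Pool.Agent.AttrHIF

open Filter Topology MeasureTheory ProbabilityTheory
open Nat.Partrec (Code)

/-- initial segments of binary sequences -/
def resB (X : ℕ → Bool) (s : ℕ) : List Bool := (List.range s).map X

theorem resB_length (X : ℕ → Bool) (s : ℕ) : (resB X s).length = s := by simp [resB]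

theorem resB_succ (X : ℕ → Bool) (s : ℕ) : resB X (s + 1) = resB X s ++ [X s] := by
  simp [resB, List.range_succ]

theorem resB_pre (X : ℕ → Bool) {s s' : ℕ} (h : s ≤ s') : resB X s <+: resB X s' := by
  induction s', h using Nat.le_induction with
  | base => exact List.prefix_refl _
  | succ j _ ih => rw [resB_succ]; exact ih.trans (List.prefix_append _ _)

theorem resB_map (X : ℕ → Bool) (s : ℕ) :
    (resB X s).map Bool.toNat = res (fun n => (X n).toNat) s := by
  simp [resB, res, Function.comp_def]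

/-- the event of being captured by stage `s` -/
def ev1 (C : ℕ → List (List Bool)) (c : Code) (r k q i s : ℕ) : Set (ℕ → Bool) :=
  {X | Cap C c r k q i (resB X s) = true}

theorem coin_ev1 (C : ℕ → List (List Bool)) (c : Code) (r k q i s : ℕ) :
    coin (ev1 C c r k q i s) ≤ cnt C c r s k q i * 2⁻¹ ^ s := by
  have h := coin_openOf_list ((words s).filter (fun τ => Cap C c r k q i τ)) s (by
    intro w hw
    rw [List.mem_filter, mem_words] at hw
    exact hw.1)
  refine (measure_mono ?_).trans h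
  intro X hX
  refine ⟨s, ?_⟩
  show resB X s ∈ (words s).filter (fun τ => Cap C c r k q i τ)
  rw [List.mem_filter, mem_words]
  exact ⟨resB_length X s, hX⟩

/-- the event of being captured on the block -/
def ev2 (C : ℕ → List (List Bool)) (c : Code) (r k q i : ℕ) : Set (ℕ → Bool) :=
  ⋃ s, ev1 C c r k q i s

theorem coin_ev2 {C : ℕ → List (List Bool)} {c : Code} {r k q i : ℕ} (hq : q < p2 (k + 5))
    (h : ∀ s, St C c r k s i = false) : coin (ev2 C c r k q i) ≤ 2⁻¹ ^ (2 * k + 5) := by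
  unfold ev2
  have hmono : Monotone (fun s => ev1 C c r k q i s) := by
    intro s s' hs X hX
    exact Cap_mono (resB_pre X hs) hX
  rw [hmono.measure_iUnion]
  apply iSup_le
  intro s
  refine (coin_ev1 C c r k q i s).trans ?_
  have h1 := h s
  unfold St at h1
  rw [← Bool.not_eq_true, List.any_eq_true] at h1
  push Not at h1
  have h2 := h1 q (List.mem_range.2 hq)
  rw [ne_eq, decide_eq_true_eq, not_lt] at h2
  have h3 : (2 : ENNReal) ^ (2 * k + 5) * (cnt C c r s k q i : ENNReal) ≤ 2 ^ s := by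
    have : ((p2 (2 * k + 5) * cnt C c r s k q i : ℕ) : ENNReal) ≤ ((p2 s : ℕ) : ENNReal) := by
      exact_mod_cast h2
    unfold p2 at this
    push_cast at this
    exact this
  have h2j : (2 : ENNReal) ^ (2 * k + 5) ≠ 0 := by positivity
  have h2j' : (2 : ENNReal) ^ (2 * k + 5) ≠ ⊤ := by finiteness
  have h2l : (2 : ENNReal) ^ s ≠ 0 := by positivity
  have h2l' : (2 : ENNReal) ^ s ≠ ⊤ := by finiteness
  rw [← ENNReal.inv_pow, ← ENNReal.inv_pow, ← div_eq_mul_inv,
    ENNReal.div_le_iff h2l h2l', ← ENNReal.div_eq_inv_mul,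
    ENNReal.le_div_iff_mul_le (Or.inl h2j) (Or.inl h2j'), mul_comm]
  exact h3

/-- the event of being captured on some block of level `k` -/
def ev3 (C : ℕ → List (List Bool)) (c : Code) (r k i : ℕ) : Set (ℕ → Bool) :=
  ⋃ q ∈ Finset.range (p2 (k + 5)), ev2 C c r k q i

theorem coin_ev3 {C : ℕ → List (List Bool)} {c : Code} {r k i : ℕ}
    (h : ∀ s, St C c r k s i = false) : coin (ev3 C c r k i) ≤ 2⁻¹ ^ k := by
  unfold ev3
  refine (measure_biUnion_finset_le _ _).trans ?_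
  calc ∑ q ∈ Finset.range (p2 (k + 5)), coin (ev2 C c r k q i)
      ≤ ∑ q ∈ Finset.range (p2 (k + 5)), (2⁻¹ : ENNReal) ^ (2 * k + 5) :=
        Finset.sum_le_sum (fun q hq => coin_ev2 (Finset.mem_range.1 hq) h)
    _ = (2 : ENNReal) ^ (k + 5) * 2⁻¹ ^ (2 * k + 5) := by
        rw [Finset.sum_const, Finset.card_range, nsmul_eq_mul]
        unfold p2
        push_cast
        rfl
    _ = 2⁻¹ ^ k := by
        have e : 2 * k + 5 = (k + 5) + k := by ring
        rw [e, pow_add (2⁻¹ : ENNReal) (k + 5) k, ← mul_assoc, ← mul_pow,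
          ENNReal.mul_inv_cancel (by norm_num) (by norm_num), one_pow, one_mul]

/-- Almost every oracle eventually avoids being captured. -/
theorem ae_not_captured {C : ℕ → List (List Bool)} {f : ℕ → ℕ} (c : Code) (r : ℕ)
    (h : ∀ᶠ k in atTop, ∀ s, St C c r k s (f k) = false) :
    ∀ᵐ X ∂coin, ∀ᶠ k in atTop, ∀ q < p2 (k + 5), ∀ s,
      Cap C c r k q (f k) (resB X s) = false := by
  obtain ⟨k0, hk0⟩ := eventually_atTop.1 h
  have hsum : ∑' k, coin (ev3 C c r (k + k0) (f (k + k0))) ≠ ⊤ := by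
    have h1 : ∑' k, coin (ev3 C c r (k + k0) (f (k + k0))) ≤ ∑' k : ℕ, (2⁻¹ : ENNReal) ^ k := by
      apply ENNReal.tsum_le_tsum
      intro k
      refine (coin_ev3 (hk0 (k + k0) (by omega))).trans ?_
      apply pow_le_pow_right_of_le_one' _ (by omega)
      exact ENNReal.inv_le_one.2 (by norm_num)
    refine ne_top_of_le_ne_top ?_ h1
    rw [ENNReal.tsum_geometric]
    simp
  have h2 := ae_eventually_notMem hsum
  filter_upwards [h2] with X hX
  rw [eventually_atTop] at hX ⊢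
  obtain ⟨N, hN⟩ := hX
  refine ⟨N + k0, fun k hk q hq s => ?_⟩
  have h3 := hN (k - k0) (by omega)
  have e : k - k0 + k0 = k := by omega
  rw [e] at h3
  by_contra hcon
  rw [Bool.not_eq_false] at hcon
  apply h3
  unfold ev3 ev2
  simp only [Set.mem_iUnion]
  exact ⟨q, Finset.mem_range.2 hq, s, hcon⟩

/-- the set decoded from `f` -/
def Yset (C : ℕ → List (List Bool)) (f : ℕ → ℕ) (n : ℕ) : Bool :=
  cw (C (Nat.log 32 n)) (f (Nat.log 32 n)) (n % bl (Nat.log 32 n))

/-- counting function of a set -/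
noncomputable def cf (D : Set ℕ) (n : ℕ) : ℕ := (D ∩ Set.Iio n).ncard

theorem cf_le (D : Set ℕ) (n : ℕ) : cf D n ≤ n := by
  unfold cf
  have h : (D ∩ Set.Iio n).ncard ≤ (Set.Iio n).ncard :=
    Set.ncard_le_ncard Set.inter_subset_right (Set.finite_Iio n)
  rwa [Set.ncard_Iio_nat] at h

theorem cf_add (D : Set ℕ) (n m : ℕ) :
    cf D (n + m) ≤ cf D n + (D ∩ Set.Ico n (n + m)).ncard := by
  unfold cf
  have : D ∩ Set.Iio (n + m) = (D ∩ Set.Iio n) ∪ (D ∩ Set.Ico n (n + m)) := by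
    ext x
    simp only [Set.mem_inter_iff, Set.mem_Iio, Set.mem_union, Set.mem_Ico]
    constructor
    · rintro ⟨h1, h2⟩
      by_cases h : x < n
      · exact Or.inl ⟨h1, h⟩
      · exact Or.inr ⟨h1, by omega, h2⟩
    · rintro (⟨h1, h2⟩ | ⟨h1, h2, h3⟩)
      · exact ⟨h1, by omega⟩
      · exact ⟨h1, h3⟩
  rw [this]
  exact Set.ncard_union_le _ _

theorem log32 {k q t : ℕ} (hq1 : 2 ^ k ≤ q) (hq2 : q < 2 ^ (k + 5)) (ht : t < 16 ^ k) :
    Nat.log 32 (16 ^ k * q + t) = k := by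
  rw [Nat.log_eq_iff (Or.inr ⟨by norm_num, by
    have : 0 < 16 ^ k * q := Nat.mul_pos (by positivity) (lt_of_lt_of_le (by positivity) hq1)
    omega⟩)]
  constructor
  · have e : (32 : ℕ) ^ k = 16 ^ k * 2 ^ k := by rw [← mul_pow]; norm_num
    rw [e]
    have := Nat.mul_le_mul_left (16 ^ k) hq1
    omega
  · have e : (32 : ℕ) ^ (k + 1) = 16 ^ k * 2 ^ (k + 5) := by
      have : (32 : ℕ) ^ k = 16 ^ k * 2 ^ k := by rw [← mul_pow]; norm_num
      rw [pow_succ, this, pow_add]; ring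
    rw [e]
    have h1 : 16 ^ k * (q + 1) ≤ 16 ^ k * 2 ^ (k + 5) := Nat.mul_le_mul_left _ hq2
    have h2 : 16 ^ k * (q + 1) = 16 ^ k * q + 16 ^ k := by ring
    omega

/-- If the disagreement on every block of high level is at most `(1/2 + 1/r)` times the block
length, then the upper density of the disagreement is at most `1/2 + 1/r`. -/
theorem density_blocks (D : Set ℕ) (r k0 : ℕ) (hr : 0 < r)
    (h : ∀ k ≥ k0, ∀ q, 2 ^ k ≤ q → q < 2 ^ (k + 5) →
      2 * r * (D ∩ Set.Ico (16 ^ k * q) (16 ^ k * q + 16 ^ k)).ncard ≤ (r + 2) * 16 ^ k) :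
    upperDensity D ≤ 1 / 2 + 1 / r := by
  have hr' : (0 : ℝ) < r := by exact_mod_cast hr
  -- counting at block boundaries
  have step : ∀ j q0, 2 ^ (k0 + j) ≤ q0 → 2 * r * cf D (16 ^ (k0 + j) * q0) ≤
      2 * r * 32 ^ k0 + (r + 2) * (16 ^ (k0 + j) * q0) → ∀ q, q0 ≤ q → q ≤ 2 ^ (k0 + j + 5) →
      2 * r * cf D (16 ^ (k0 + j) * q) ≤ 2 * r * 32 ^ k0 + (r + 2) * (16 ^ (k0 + j) * q) := by
    intro j q0 hq0 hb q hq
    induction q, hq using Nat.le_induction with
    | base => intro _; exact hb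
    | succ q hq ih =>
      intro hq2
      have h1 := ih (by omega)
      have h2 := h (k0 + j) (by omega) q (by omega) (by omega)
      have e : 16 ^ (k0 + j) * (q + 1) = 16 ^ (k0 + j) * q + 16 ^ (k0 + j) := by ring
      rw [e]
      have h3 := cf_add D (16 ^ (k0 + j) * q) (16 ^ (k0 + j))
      calc 2 * r * cf D (16 ^ (k0 + j) * q + 16 ^ (k0 + j))
          ≤ 2 * r * (cf D (16 ^ (k0 + j) * q) +
            (D ∩ Set.Ico (16 ^ (k0 + j) * q) (16 ^ (k0 + j) * q + 16 ^ (k0 + j))).ncard) :=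
            Nat.mul_le_mul_left _ h3
        _ = 2 * r * cf D (16 ^ (k0 + j) * q) + 2 * r *
            (D ∩ Set.Ico (16 ^ (k0 + j) * q) (16 ^ (k0 + j) * q + 16 ^ (k0 + j))).ncard := by ring
        _ ≤ (2 * r * 32 ^ k0 + (r + 2) * (16 ^ (k0 + j) * q)) + (r + 2) * 16 ^ (k0 + j) :=
            Nat.add_le_add h1 h2
        _ = _ := by ring
  have e32 : ∀ k : ℕ, (16 : ℕ) ^ k * 2 ^ k = 32 ^ k := by
    intro k; rw [← mul_pow]; norm_num
  have hfirst : ∀ j, 2 * r * cf D (16 ^ (k0 + j) * 2 ^ (k0 + j)) ≤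
      2 * r * 32 ^ k0 + (r + 2) * (16 ^ (k0 + j) * 2 ^ (k0 + j)) := by
    intro j
    induction j with
    | zero =>
      have h1 := cf_le D (16 ^ (k0 + 0) * 2 ^ (k0 + 0))
      rw [e32, add_zero] at h1 ⊢
      have h2 : 2 * r * cf D (32 ^ k0) ≤ 2 * r * 32 ^ k0 := Nat.mul_le_mul_left _ h1
      exact h2.trans (Nat.le_add_right _ _)
    | succ j ih =>
      have h1 := step j _ le_rfl ih (2 ^ (k0 + j + 5))
        (Nat.pow_le_pow_right (by norm_num) (by omega)) le_rfl
      have e : 16 ^ (k0 + j) * 2 ^ (k0 + j + 5) = 16 ^ (k0 + (j + 1)) * 2 ^ (k0 + (j + 1)) := by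
        ring
      rw [e] at h1
      exact h1
  have hA : ∀ j, ∀ q, 2 ^ (k0 + j) ≤ q → q ≤ 2 ^ (k0 + j + 5) →
      2 * r * cf D (16 ^ (k0 + j) * q) ≤ 2 * r * 32 ^ k0 + (r + 2) * (16 ^ (k0 + j) * q) :=
    fun j q h1 h2 => step j _ le_rfl (hfirst j) q h1 h2
  -- the general bound
  have hB : ∀ n ≥ 32 ^ k0, 2 * r * cf D n ≤
      2 * r * 32 ^ k0 + (r + 2) * n + 2 * r * 16 ^ (Nat.log 32 n) := by
    intro n hn
    have hn0 : n ≠ 0 := by
      have : 0 < 32 ^ k0 := by positivity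
      omega
    set k := Nat.log 32 n with hk
    have hk0 : k0 ≤ k := Nat.le_log_of_pow_le (by norm_num) hn
    have h1 : 32 ^ k ≤ n := Nat.pow_log_le_self 32 hn0
    have h2 : n < 32 ^ (k + 1) := Nat.lt_pow_succ_log_self (by norm_num) n
    have h3 : n = 16 ^ k * (n / 16 ^ k) + n % 16 ^ k := (Nat.div_add_mod n (16 ^ k)).symm
    have h4 : n % 16 ^ k < 16 ^ k := Nat.mod_lt _ (by positivity)
    have hq1 : 2 ^ k ≤ n / 16 ^ k := by
      rw [Nat.le_div_iff_mul_le (by positivity), mul_comm, e32]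
      exact h1
    have hq2 : n / 16 ^ k ≤ 2 ^ (k + 5) := by
      have : n / 16 ^ k < 2 ^ (k + 5) := by
        rw [Nat.div_lt_iff_lt_mul (by positivity)]
        have e : 2 ^ (k + 5) * 16 ^ k = 32 ^ (k + 1) := by
          rw [pow_succ 32, ← e32 k]; ring
        rw [e]; exact h2
      omega
    obtain ⟨j, hj⟩ : ∃ j, k = k0 + j := ⟨k - k0, by omega⟩
    have h5 := hA j (n / 16 ^ k) (by rw [← hj]; exact hq1) (by rw [← hj]; exact hq2)
    rw [← hj] at h5
    have h6 : cf D n ≤ cf D (16 ^ k * (n / 16 ^ k)) + 16 ^ k := by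
      have h7 := cf_add D (16 ^ k * (n / 16 ^ k)) (n % 16 ^ k)
      rw [← h3] at h7
      refine h7.trans (Nat.add_le_add_left ?_ _)
      calc (D ∩ Set.Ico (16 ^ k * (n / 16 ^ k)) n).ncard
          ≤ (Set.Ico (16 ^ k * (n / 16 ^ k)) n).ncard :=
            Set.ncard_le_ncard Set.inter_subset_right (Set.finite_Ico _ _)
        _ = n - 16 ^ k * (n / 16 ^ k) := Set.ncard_Ico_nat _ _
        _ ≤ 16 ^ k := by omega
    have h8 : 16 ^ k * (n / 16 ^ k) ≤ n := by omega
    calc 2 * r * cf D n ≤ 2 * r * (cf D (16 ^ k * (n / 16 ^ k)) + 16 ^ k) :=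
          Nat.mul_le_mul_left _ h6
      _ = 2 * r * cf D (16 ^ k * (n / 16 ^ k)) + 2 * r * 16 ^ k := by ring
      _ ≤ (2 * r * 32 ^ k0 + (r + 2) * (16 ^ k * (n / 16 ^ k))) + 2 * r * 16 ^ k :=
          Nat.add_le_add_right h5 _
      _ ≤ (2 * r * 32 ^ k0 + (r + 2) * n) + 2 * r * 16 ^ k := by gcongr
  -- conclusion
  have hlog : Tendsto (fun n : ℕ => Nat.log 32 n) atTop atTop := by
    rw [tendsto_atTop]
    intro b
    filter_upwards [eventually_ge_atTop (32 ^ b)] with n hn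
    exact Nat.le_log_of_pow_le (by norm_num) hn
  have hlim : Tendsto (fun n : ℕ => ((32 : ℝ) ^ k0) / n + (1 / 2 : ℝ) ^ (Nat.log 32 n))
      atTop (𝓝 0) := by
    have h1 : Tendsto (fun n : ℕ => ((32 : ℝ) ^ k0) / n) atTop (𝓝 0) :=
      tendsto_const_div_atTop_nhds_zero_nat _
    have h2 : Tendsto (fun n : ℕ => (1 / 2 : ℝ) ^ (Nat.log 32 n)) atTop (𝓝 0) :=
      (tendsto_pow_atTop_nhds_zero_of_lt_one (by norm_num) (by norm_num)).comp hlog
    simpa using h1.add h2
  apply upperDensity_le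
  intro ε hε
  have h1 : ∀ᶠ n : ℕ in atTop, ((32 : ℝ) ^ k0) / n + (1 / 2 : ℝ) ^ (Nat.log 32 n) < ε :=
    (tendsto_order.1 hlim).2 ε hε
  filter_upwards [h1, eventually_ge_atTop (32 ^ k0)] with n hn1 hn2
  have hn0 : 0 < n := lt_of_lt_of_le (by positivity) hn2
  have hn0' : (0 : ℝ) < n := by exact_mod_cast hn0
  have h2 := hB n hn2
  have h3 : (2 * r * cf D n : ℝ) ≤ 2 * r * 32 ^ k0 + (r + 2) * n + 2 * r * 16 ^ (Nat.log 32 n) := by
    exact_mod_cast h2
  have h4 : (16 : ℝ) ^ (Nat.log 32 n) ≤ (1 / 2) ^ (Nat.log 32 n) * n := by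
    have h5 : 32 ^ (Nat.log 32 n) ≤ n := Nat.pow_log_le_self 32 (by omega)
    have h6 : (32 : ℝ) ^ (Nat.log 32 n) ≤ n := by exact_mod_cast h5
    have e : (16 : ℝ) ^ (Nat.log 32 n) = (1 / 2) ^ (Nat.log 32 n) * 32 ^ (Nat.log 32 n) := by
      rw [← mul_pow]; norm_num
    rw [e]
    gcongr
  have h5 : density D n = (cf D n : ℝ) / n := rfl
  rw [h5, div_le_iff₀ hn0']
  have h6 : ((32 : ℝ) ^ k0) + (1 / 2 : ℝ) ^ (Nat.log 32 n) * n < ε * n := by
    have := mul_lt_mul_of_pos_right hn1 hn0'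
    rw [add_mul, div_mul_cancel₀ _ hn0'.ne'] at this
    exact this
  have h7 : (1 / 2 + 1 / (r : ℝ) + ε) * n = ((r + 2) * n + 2 * r * (ε * n)) / (2 * r) := by
    field_simp
  rw [h7, le_div_iff₀ (by positivity)]
  nlinarith

end Pool.Agent.AttrHIF
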