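import Pool.Agent.Lib.MP_99e598_lc.Tree

/-! # Deciding the existence of bushy trees. -/

namespace Pool.Agent.AttrHIF

@[fun_prop] theorem hb_computable {α : Type*} [Primcodable α] {f : α → ℕ} (hf : Computable f) :
    Computable (fun a => hb (f a)) := by
  unfold hb
  fun_prop

/-- one-step extensions of `τ` in `T` -/
def ext1 (T : List ℕ → Bool) (τ : List ℕ) : List (List ℕ) :=
  ((List.range (hb τ.length)).filter (fun c => T (τ ++ [c]))).map (fun c => τ ++ [c])

/-- nodes of `T` at distance `i` above `ρ` -/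
def lev (T : List ℕ → Bool) (ρ : List ℕ) (i : ℕ) : List (List ℕ) :=
  Nat.rec (motive := fun _ => List (List ℕ)) [ρ] (fun _ IH => IH.flatMap (ext1 T)) i

/-- auxiliary: the nodes at distance `m - t` above which there is a bushy tree of height `t` -/
def gd {α : Type*} (T : List ℕ → Bool) (D : α → List ℕ → Bool) (d : ℕ → ℕ) (a : α) (m : ℕ)
    (ρ : List ℕ) (t : ℕ) : List (List ℕ) :=
  Nat.rec (motive := fun _ => List (List ℕ)) ((lev T ρ m).filter (fun τ => D a τ))
    (fun t IH => (lev T ρ (m - (t + 1))).filter (fun τ =>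
      decide (d τ.length ≤ ((List.range (hb τ.length)).filter
        (fun c => T (τ ++ [c]) && inL (τ ++ [c]) IH)).length))) t

/-- Boolean version of `W`. -/
def Wb {α : Type*} (T : List ℕ → Bool) (D : α → List ℕ → Bool) (d : ℕ → ℕ) (a : α) (m : ℕ)
    (ρ : List ℕ) : Bool := inL ρ (gd T D d a m ρ m)

theorem lev_length (T : List ℕ → Bool) (ρ : List ℕ) (i : ℕ) {τ : List ℕ} (h : τ ∈ lev T ρ i) :
    τ.length = ρ.length + i := by
  induction i generalizing τ with
  | zero => simp [lev] at h; simp [h]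
  | succ i ih =>
    change τ ∈ (lev T ρ i).flatMap (ext1 T) at h
    rw [List.mem_flatMap] at h
    obtain ⟨τ', h1, h2⟩ := h
    simp only [ext1, List.mem_map, List.mem_filter] at h2
    obtain ⟨c, _, rfl⟩ := h2
    simp [ih h1]
    omega

theorem mem_ext1 {T : List ℕ → Bool} {τ : List ℕ} {ρ : List ℕ} :
    ρ ∈ ext1 T τ ↔ ∃ c, c < hb τ.length ∧ T (τ ++ [c]) = true ∧ ρ = τ ++ [c] := by
  simp only [ext1, List.mem_map, List.mem_filter, List.mem_range]
  constructor
  · rintro ⟨c, ⟨h1, h2⟩, rfl⟩; exact ⟨c, h1, h2, rfl⟩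
  · rintro ⟨c, h1, h2, rfl⟩; exact ⟨c, ⟨h1, h2⟩, rfl⟩

theorem mem_lev_succ {T : List ℕ → Bool} {ρ : List ℕ} {i : ℕ} {τ : List ℕ} :
    τ ∈ lev T ρ (i + 1) ↔ ∃ τ' ∈ lev T ρ i, τ ∈ ext1 T τ' := by
  change τ ∈ (lev T ρ i).flatMap (ext1 T) ↔ _
  rw [List.mem_flatMap]

theorem card_kids (T : List ℕ → Bool) (Q : List ℕ → Prop) (ρ : List ℕ) (p : ℕ → Bool)
    (hp : ∀ c < hb ρ.length, (p c = true ↔ (T (ρ ++ [c]) = true ∧ Q (ρ ++ [c])))) :
    (kids T Q ρ).card = ((List.range (hb ρ.length)).filter p).length := by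
  classical
  rw [← List.toFinset_card_of_nodup (List.Nodup.filter p List.nodup_range)]
  congr 1
  ext c
  simp only [mem_kids, List.mem_toFinset, List.mem_filter, List.mem_range]
  constructor
  · rintro ⟨h1, h2⟩; exact ⟨h1, (hp c h1).2 h2⟩
  · rintro ⟨h1, h2⟩; exact ⟨h1, (hp c h1).1 h2⟩

theorem gd_iff {α : Type*} (T : List ℕ → Bool) (D : α → List ℕ → Bool) (d : ℕ → ℕ) (a : α)
    (m : ℕ) (ρ : List ℕ) (t : ℕ) (ht : t ≤ m) (τ : List ℕ) (hτ : τ ∈ lev T ρ (m - t)) :
    τ ∈ gd T D d a m ρ t ↔ W T (fun ρ => D a ρ = true) d t τ := by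
  induction t generalizing τ with
  | zero =>
    change τ ∈ (lev T ρ m).filter (fun τ => D a τ) ↔ _
    rw [List.mem_filter, W_zero]
    simpa using fun _ => hτ
  | succ t ih =>
    change τ ∈ (lev T ρ (m - (t + 1))).filter (fun τ =>
      decide (d τ.length ≤ ((List.range (hb τ.length)).filter
        (fun c => T (τ ++ [c]) && inL (τ ++ [c]) (gd T D d a m ρ t))).length)) ↔ _
    rw [List.mem_filter, W_succ]
    have hkey : (kids T (W T (fun ρ => D a ρ = true) d t) τ).card =
        ((List.range (hb τ.length)).filter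
        (fun c => T (τ ++ [c]) && inL (τ ++ [c]) (gd T D d a m ρ t))).length := by
      apply card_kids
      intro c hc
      simp only [Bool.and_eq_true, inL_iff]
      constructor
      · rintro ⟨h1, h2⟩
        refine ⟨h1, ?_⟩
        rw [← ih (by omega)]
        · exact h2
        · have : m - t = m - (t + 1) + 1 := by omega
          rw [this, mem_lev_succ]
          exact ⟨τ, hτ, mem_ext1.2 ⟨c, hc, h1, rfl⟩⟩
      · rintro ⟨h1, h2⟩
        refine ⟨h1, ?_⟩
        rw [ih (by omega)]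
        · exact h2
        · have : m - t = m - (t + 1) + 1 := by omega
          rw [this, mem_lev_succ]
          exact ⟨τ, hτ, mem_ext1.2 ⟨c, hc, h1, rfl⟩⟩
    rw [hkey, decide_eq_true_eq]
    exact ⟨fun h => h.2, fun h => ⟨hτ, h⟩⟩

theorem Wb_iff {α : Type*} {T : List ℕ → Bool} {D : α → List ℕ → Bool} {d : ℕ → ℕ} {a : α}
    {m : ℕ} {ρ : List ℕ} :
    Wb T D d a m ρ = true ↔ W T (fun ρ => D a ρ = true) d m ρ := by
  unfold Wb
  rw [inL_iff, gd_iff T D d a m ρ m le_rfl ρ (by simp [lev])]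

section comp
variable {α β : Type*} [Primcodable α] [Primcodable β]

@[fun_prop] theorem ext1_computable {T : List ℕ → Bool} (hT : Computable T) {τ : β → List ℕ}
    (hτ : Computable τ) : Computable (fun x => ext1 T (τ x)) := by
  unfold ext1
  fun_prop

@[fun_prop] theorem lev_computable {T : List ℕ → Bool} (hT : Computable T) {τ : β → List ℕ}
    (hτ : Computable τ) {i : β → ℕ} (hi : Computable i) :
    Computable (fun x => lev T (τ x) (i x)) := by
  unfold lev
  fun_prop

@[fun_prop] theorem gd_computable {T : List ℕ → Bool} (hT : Computable T)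
    {D : α → List ℕ → Bool} (hD : Computable (fun p : α × List ℕ => D p.1 p.2))
    {d : ℕ → ℕ} (hd : Computable d) {a : β → α} (ha : Computable a)
    {m : β → ℕ} (hm : Computable m) {τ : β → List ℕ}
    (hτ : Computable τ) {i : β → ℕ} (hi : Computable i) :
    Computable (fun x => gd T D d (a x) (m x) (τ x) (i x)) := by
  unfold gd
  fun_prop

@[fun_prop] theorem Wb_computable {T : List ℕ → Bool} (hT : Computable T)
    {D : α → List ℕ → Bool} (hD : Computable (fun p : α × List ℕ => D p.1 p.2))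
    {d : ℕ → ℕ} (hd : Computable d) {a : β → α} (ha : Computable a)
    {m : β → ℕ} (hm : Computable m) {τ : β → List ℕ}
    (hτ : Computable τ)  :
    Computable (fun x => Wb T D d (a x) (m x) (τ x)) := by
  unfold Wb
  fun_prop

end comp

end Pool.Agent.AttrHIF
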