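import Pool.Agent.Lib.MP_99e598_lc.Tree
import Pool.Agent.Lib.MP_99e598_lc.WComp

/-! # Nearly orthogonal binary codes. -/

namespace Pool.Agent.AttrHIF

open Finset

/-- sign of a bit -/
def sg (b : Bool) : ℝ := if b then 1 else -1

theorem sg_sq (b : Bool) : sg b * sg b = 1 := by cases b <;> simp [sg]

theorem sg_mul (a b : Bool) : sg a * sg b = if a = b then 1 else -1 := by
  cases a <;> cases b <;> simp [sg]

/-- inner product of the `±1` vectors attached to two functions -/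
noncomputable def ip (ℓ : ℕ) (x y : ℕ → Bool) : ℝ := ∑ t ∈ range ℓ, sg (x t) * sg (y t)

theorem ip_eq_agree (ℓ : ℕ) (x y : ℕ → Bool) :
    ip ℓ x y = 2 * (((range ℓ).filter (fun t => x t = y t)).card : ℝ) - ℓ := by
  unfold ip
  simp only [sg_mul]
  rw [← sum_filter_add_sum_filter_not (range ℓ) (fun t => x t = y t)]
  rw [sum_congr rfl (g := fun _ => (1 : ℝ)) (by intro t ht; rw [mem_filter] at ht; simp [ht.2])]
  rw [sum_congr (s₁ := (range ℓ).filter (fun t => ¬ x t = y t)) rfl (g := fun _ => (-1 : ℝ))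
    (by intro t ht; rw [mem_filter] at ht; simp [ht.2])]
  have h := card_filter_add_card_filter_not (s := range ℓ) (fun t => x t = y t)
  rw [card_range] at h
  have h2 : (((range ℓ).filter (fun t => x t = y t)).card : ℝ) +
      ((range ℓ).filter (fun t => ¬ x t = y t)).card = ℓ := by exact_mod_cast h
  simp only [sum_const, nsmul_eq_mul, mul_one, mul_neg]
  linarith

/-- The number of words with large inner product with a given word. -/
theorem count_bad (ℓ : ℕ) (u : Fin ℓ → Bool) (a t : ℝ) (ht : 0 ≤ t) :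
    (((univ : Finset (Fin ℓ → Bool)).filter
      (fun y => a < ∑ i, sg (y i) * sg (u i))).card : ℝ) * Real.exp (t * a) ≤
      2 ^ ℓ * Real.exp (ℓ * (t ^ 2 / 2)) := by
  have h1 : ∑ y : Fin ℓ → Bool, Real.exp (t * ∑ i, sg (y i) * sg (u i)) =
      (2 * Real.cosh t) ^ ℓ := by
    have h2 : ∀ y : Fin ℓ → Bool, Real.exp (t * ∑ i, sg (y i) * sg (u i)) =
        ∏ i, Real.exp (t * (sg (y i) * sg (u i))) := by
      intro y
      rw [mul_sum, Real.exp_sum]
    simp only [h2]
    rw [← Fintype.prod_sum (f := fun (i : Fin ℓ) (b : Bool) =>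
      Real.exp (t * (sg b * sg (u i))))]
    have h3 : ∀ i : Fin ℓ, ∑ b : Bool, Real.exp (t * (sg b * sg (u i))) =
        2 * Real.cosh t := by
      intro i
      rw [Fintype.sum_bool, Real.cosh_eq]
      cases u i <;> simp [sg] <;> ring
    rw [prod_congr rfl (fun i _ => h3 i)]
    simp
  have h4 : (((univ : Finset (Fin ℓ → Bool)).filter
      (fun y => a < ∑ i, sg (y i) * sg (u i))).card : ℝ) * Real.exp (t * a) ≤
      ∑ y : Fin ℓ → Bool, Real.exp (t * ∑ i, sg (y i) * sg (u i)) := by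
    set F : (Fin ℓ → Bool) → ℝ := fun y => ∑ i, sg (y i) * sg (u i) with hF
    have h4a : (((univ : Finset (Fin ℓ → Bool)).filter (fun y => a < F y)).card : ℝ) *
        Real.exp (t * a) = ∑ y ∈ (univ : Finset (Fin ℓ → Bool)).filter (fun y => a < F y),
          Real.exp (t * a) := by
      rw [sum_const, nsmul_eq_mul]
    have h4b : ∑ y ∈ (univ : Finset (Fin ℓ → Bool)).filter (fun y => a < F y),
          Real.exp (t * a) ≤ ∑ y ∈ (univ : Finset (Fin ℓ → Bool)).filter (fun y => a < F y),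
          Real.exp (t * F y) := by
      apply sum_le_sum
      intro y hy
      rw [mem_filter] at hy
      apply Real.exp_le_exp.2
      exact mul_le_mul_of_nonneg_left hy.2.le ht
    have h4c : ∑ y ∈ (univ : Finset (Fin ℓ → Bool)).filter (fun y => a < F y),
          Real.exp (t * F y) ≤ ∑ y ∈ (univ : Finset (Fin ℓ → Bool)), Real.exp (t * F y) := by
      apply sum_le_sum_of_subset_of_nonneg (filter_subset _ _)
      intro y _ _
      exact (Real.exp_pos _).le
    rw [h4a]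
    exact h4b.trans h4c
  rw [h1] at h4
  refine h4.trans ?_
  rw [mul_pow]
  have h5 := Real.cosh_le_exp_half_sq t
  have h6 : Real.cosh t ^ ℓ ≤ Real.exp (t ^ 2 / 2) ^ ℓ :=
    pow_le_pow_left₀ (Real.cosh_pos t).le h5 ℓ
  rw [← Real.exp_nat_mul] at h6
  gcongr

/-- Greedy construction of a nearly orthogonal code. -/
theorem exists_code_words (k m : ℕ) (hm : m ≤ 2 ^ (2 ^ k)) :
    ∃ L : List (Fin (16 ^ k) → Bool), L.length = m ∧
      L.Pairwise (fun u v => ∑ i, sg (u i) * sg (v i) ≤ 4 * 8 ^ k) := by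
  induction m with
  | zero => exact ⟨[], rfl, List.Pairwise.nil⟩
  | succ m ih =>
    obtain ⟨L, hL1, hL2⟩ := ih (by omega)
    -- find a new word
    suffices h : ∃ y : Fin (16 ^ k) → Bool, ∀ u ∈ L, ∑ i, sg (y i) * sg (u i) ≤ 4 * 8 ^ k by
      obtain ⟨y, hy⟩ := h
      exact ⟨y :: L, by simp [hL1], List.pairwise_cons.2 ⟨hy, hL2⟩⟩
    by_contra hcon
    push Not at hcon
    let bad : (Fin (16 ^ k) → Bool) → Finset (Fin (16 ^ k) → Bool) := fun u =>
      (univ : Finset (Fin (16 ^ k) → Bool)).filter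
        (fun y => (4 * 8 ^ k : ℝ) < ∑ i, sg (y i) * sg (u i))
    have hcover : (univ : Finset (Fin (16 ^ k) → Bool)) ⊆ L.toFinset.biUnion bad := by
      intro y _
      obtain ⟨u, hu1, hu2⟩ := hcon y
      rw [mem_biUnion]
      exact ⟨u, List.mem_toFinset.2 hu1, by simp only [bad, mem_filter]; exact ⟨mem_univ _, hu2⟩⟩
    have h1 := (card_le_card hcover).trans card_biUnion_le
    have hcard : (univ : Finset (Fin (16 ^ k) → Bool)).card = 2 ^ (16 ^ k) := by
      rw [card_univ, Fintype.card_fun]; simp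
    rw [hcard] at h1
    have h2 : ∀ u, ((bad u).card : ℝ) ≤ 2 ^ (16 ^ k) * Real.exp (-(8 * 4 ^ k)) := by
      intro u
      have h3 := count_bad (16 ^ k) u (4 * 8 ^ k) (4 / 2 ^ k) (by positivity)
      have e1 : (4 / 2 ^ k : ℝ) * (4 * 8 ^ k) = 16 * 4 ^ k := by
        have : (8 : ℝ) ^ k = 2 ^ k * 4 ^ k := by rw [← mul_pow]; norm_num
        rw [this]; field_simp; ring
      have e2 : (((16 ^ k : ℕ) : ℝ)) * ((4 / 2 ^ k : ℝ) ^ 2 / 2) = 8 * 4 ^ k := by
        have : (16 : ℝ) ^ k = 2 ^ k * 2 ^ k * 4 ^ k := by rw [← mul_pow, ← mul_pow]; norm_num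
        push_cast
        rw [this]; field_simp; ring
      rw [e1, e2] at h3
      have h4 : Real.exp (8 * 4 ^ k) = Real.exp (-(8 * 4 ^ k)) * Real.exp (16 * 4 ^ k) := by
        rw [← Real.exp_add]; congr 1; ring
      rw [h4, ← mul_assoc] at h3
      exact le_of_mul_le_mul_right h3 (Real.exp_pos _)
    have h3 : ((2 : ℝ) ^ (16 ^ k)) ≤ (m : ℝ) * (2 ^ (16 ^ k) * Real.exp (-(8 * 4 ^ k))) := by
      calc ((2 : ℝ) ^ (16 ^ k)) = ((2 ^ (16 ^ k) : ℕ) : ℝ) := by push_cast; rfl
        _ ≤ ((∑ u ∈ L.toFinset, (bad u).card : ℕ) : ℝ) := by exact_mod_cast h1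
        _ = ∑ u ∈ L.toFinset, ((bad u).card : ℝ) := by push_cast; rfl
        _ ≤ ∑ u ∈ L.toFinset, (2 ^ (16 ^ k) * Real.exp (-(8 * 4 ^ k))) :=
            sum_le_sum (fun u _ => h2 u)
        _ = (L.toFinset.card : ℝ) * (2 ^ (16 ^ k) * Real.exp (-(8 * 4 ^ k))) := by
            rw [sum_const, nsmul_eq_mul]
        _ ≤ (m : ℝ) * (2 ^ (16 ^ k) * Real.exp (-(8 * 4 ^ k))) := by
            gcongr
            rw [← hL1]
            exact_mod_cast List.toFinset_card_le L
    have h4 : (m : ℝ) < 2 ^ (2 ^ k) := by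
      have : m < 2 ^ (2 ^ k) := by omega
      exact_mod_cast this
    have h5 : (2 : ℝ) ^ (2 ^ k) ≤ Real.exp (8 * 4 ^ k) := by
      have h6 : (2 : ℝ) ≤ Real.exp 1 := by
        have := Real.add_one_le_exp (1 : ℝ); linarith
      calc (2 : ℝ) ^ (2 ^ k) ≤ (Real.exp 1) ^ (2 ^ k) := pow_le_pow_left₀ (by norm_num) h6 _
        _ = Real.exp (2 ^ k) := by rw [← Real.exp_nat_mul]; push_cast; ring_nf
        _ ≤ Real.exp (8 * 4 ^ k) := by
            apply Real.exp_le_exp.2
            have : (2 : ℝ) ^ k ≤ 4 ^ k := pow_le_pow_left₀ (by norm_num) (by norm_num) k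
            have h0 : (0 : ℝ) ≤ 4 ^ k := by positivity
            linarith
    have h7 : (m : ℝ) * Real.exp (-(8 * 4 ^ k)) < 1 := by
      rw [Real.exp_neg, ← div_eq_mul_inv, div_lt_one (Real.exp_pos _)]
      linarith
    have h8 : (0 : ℝ) < 2 ^ (16 ^ k) := by positivity
    nlinarith

/-- number of agreements below `ℓ` of two words, as a natural number -/
def agr (ℓ : ℕ) (u v : List Bool) : ℕ :=
  ((List.range ℓ).filter (fun t => eqB (u.getD t false) (v.getD t false))).length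

@[fun_prop] theorem agr_computable {α : Type*} [Primcodable α] {ℓ : α → ℕ} {u v : α → List Bool}
    (hℓ : Computable ℓ) (hu : Computable u) (hv : Computable v) :
    Computable (fun a => agr (ℓ a) (u a) (v a)) := by
  unfold agr
  fun_prop

theorem agr_eq (ℓ : ℕ) (u v : List Bool) :
    agr ℓ u v = ((range ℓ).filter (fun t => u.getD t false = v.getD t false)).card := by
  unfold agr
  rw [← List.toFinset_card_of_nodup (List.Nodup.filter _ List.nodup_range)]
  congr 1
  ext t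
  simp

/-- tolerance -/
def tol (k : ℕ) : ℕ := 16 ^ k + 4 * 8 ^ k

@[fun_prop] theorem tol_computable {α : Type*} [Primcodable α] {k : α → ℕ}
    (hk : Computable k) : Computable (fun a => tol (k a)) := by
  unfold tol
  fun_prop

/-- the near-orthogonality test for two words -/
def nearOrth (k : ℕ) (u v : List Bool) : Bool := decide (2 * agr (16 ^ k) u v ≤ tol k)

@[fun_prop] theorem nearOrth_computable {α : Type*} [Primcodable α] {k : α → ℕ}
    {u v : α → List Bool} (hk : Computable k) (hu : Computable u) (hv : Computable v) :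
    Computable (fun a => nearOrth (k a) (u a) (v a)) := by
  unfold nearOrth
  fun_prop

/-- the test for being a good code at level `k` -/
def goodCode (k : ℕ) (C : List (List Bool)) : Bool :=
  (List.range (hb k)).all (fun i => (List.range (hb k)).all (fun j =>
    eqB i j || nearOrth k (C.getD i []) (C.getD j [])))

theorem goodCode_iff {k : ℕ} {C : List (List Bool)} : goodCode k C = true ↔
    ∀ i < hb k, ∀ j < hb k, i ≠ j →
      2 * agr (16 ^ k) (C.getD i []) (C.getD j []) ≤ 16 ^ k + 4 * 8 ^ k := by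
  unfold goodCode nearOrth tol
  simp only [List.all_eq_true, List.mem_range, Bool.or_eq_true, eqB_iff, decide_eq_true_eq]
  constructor
  · intro h i hi j hj hij
    exact (h i hi j hj).resolve_left hij
  · intro h i hi j hj
    by_cases hij : i = j
    · exact Or.inl hij
    · exact Or.inr (h i hi j hj hij)

theorem exists_goodCode (k : ℕ) : ∃ C, goodCode k C = true := by
  obtain ⟨L, hL1, hL2⟩ := exists_code_words k (2 ^ (2 ^ k)) le_rfl
  refine ⟨L.map List.ofFn, ?_⟩
  rw [goodCode_iff]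
  have key : ∀ i (hi : i < L.length) j (hj : j < L.length), i < j →
      2 * agr (16 ^ k) ((L.map List.ofFn).getD i []) ((L.map List.ofFn).getD j []) ≤
        16 ^ k + 4 * 8 ^ k := by
    intro i hi j hj hij
    have h1 := List.pairwise_iff_getElem.1 hL2 i j hi hj hij
    rw [agr_eq]
    have e1 : (L.map List.ofFn).getD i [] = List.ofFn L[i] := by
      simp [List.getD, hi]
    have e2 : (L.map List.ofFn).getD j [] = List.ofFn L[j] := by
      simp [List.getD, hj]
    rw [e1, e2]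
    have h2 := ip_eq_agree (16 ^ k) (fun t => (List.ofFn L[i]).getD t false)
      (fun t => (List.ofFn L[j]).getD t false)
    have h3 : ip (16 ^ k) (fun t => (List.ofFn L[i]).getD t false)
      (fun t => (List.ofFn L[j]).getD t false) = ∑ t, sg (L[i] t) * sg (L[j] t) := by
      unfold ip
      rw [Finset.sum_range]
      apply sum_congr rfl
      intro t _
      have : ∀ (w : Fin (16 ^ k) → Bool), (List.ofFn w).getD (t : ℕ) false = w t := by
        intro w
        simp [List.getD]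
      simp only [this]
    rw [h3] at h2
    rw [h2] at h1
    have h4 : (2 : ℝ) * (((range (16 ^ k)).filter (fun t => (List.ofFn L[i]).getD t false =
      (List.ofFn L[j]).getD t false)).card : ℝ) ≤ 16 ^ k + 4 * 8 ^ k := by
      push_cast at h1
      linarith
    exact_mod_cast h4
  intro i hi j hj hij
  rw [hb, ← hL1] at hi hj
  rcases lt_or_gt_of_ne hij with h | h
  · exact key i hi j hj h
  · have h1 := key j hj i hi h
    have : agr (16 ^ k) ((L.map List.ofFn).getD i []) ((L.map List.ofFn).getD j []) =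
        agr (16 ^ k) ((L.map List.ofFn).getD j []) ((L.map List.ofFn).getD i []) := by
      rw [agr_eq, agr_eq]
      congr 1
      ext t
      simp [eq_comm]
    rw [this]
    exact h1

/-- There is a computable sequence of good codes. -/
theorem exists_codeF : ∃ C : ℕ → List (List Bool), Computable C ∧ ∀ k, goodCode k (C k) = true := by
  refine exists_search (R := goodCode) ?_ exists_goodCode
  unfold goodCode
  fun_prop

/-- List decoding: few codewords disagree with `x` on more than a `1/2 + 1/q` fraction. -/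
theorem list_bound {k q : ℕ} (hq : 0 < q) (hk : 2 * q ^ 2 ≤ 2 ^ k) {C : List (List Bool)}
    (hC : goodCode k C = true) (x : ℕ → Bool) (I : Finset ℕ) (hI : ∀ i ∈ I, i < hb k ∧
      (q + 2) * 16 ^ k <
        2 * q * ((range (16 ^ k)).filter (fun t => x t ≠ (C.getD i []).getD t false)).card) :
    I.card ≤ q ^ 2 := by
  classical
  set ℓ : ℕ := 16 ^ k with hℓ
  let y : ℕ → ℕ → Bool := fun i t => (C.getD i []).getD t false
  have hip : ∀ i ∈ I, ip ℓ x (y i) ≤ -(2 * ℓ / q : ℝ) := by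
    intro i hi
    rw [ip_eq_agree]
    have h1 := (hI i hi).2
    have h2 := card_filter_add_card_filter_not (s := range ℓ) (fun t => x t = y i t)
    rw [card_range] at h2
    have h3 : ((q : ℝ) + 2) * ℓ < 2 * q *
        (((range ℓ).filter (fun t => ¬ x t = y i t)).card : ℝ) := by exact_mod_cast h1
    have h4 : (((range ℓ).filter (fun t => x t = y i t)).card : ℝ) +
      ((range ℓ).filter (fun t => ¬ x t = y i t)).card = ℓ := by exact_mod_cast h2
    have hq' : (0 : ℝ) < q := by exact_mod_cast hq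
    rw [le_neg, div_le_iff₀ hq']
    nlinarith
  have hyy : ∀ i ∈ I, ∀ j ∈ I, i ≠ j → ip ℓ (y i) (y j) ≤ 4 * 8 ^ k := by
    intro i hi j hj hij
    rw [ip_eq_agree]
    have h1 := (goodCode_iff.1 hC) i (hI i hi).1 j (hI j hj).1 hij
    rw [agr_eq] at h1
    have h2 : (2 : ℝ) * (((range ℓ).filter (fun t => y i t = y j t)).card : ℝ) ≤
      ℓ + 4 * 8 ^ k := by exact_mod_cast h1
    linarith
  have hyi : ∀ i, ip ℓ (y i) (y i) = ℓ := by
    intro i
    unfold ip
    simp [sg_sq]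
  -- Cauchy-Schwarz
  have hCS : (∑ i ∈ I, ip ℓ x (y i)) ^ 2 ≤ ℓ * ∑ i ∈ I, ∑ j ∈ I, ip ℓ (y i) (y j) := by
    have e1 : ∑ i ∈ I, ip ℓ x (y i) = ∑ t ∈ range ℓ, sg (x t) * ∑ i ∈ I, sg (y i t) := by
      unfold ip
      rw [sum_comm]
      simp only [mul_sum]
    have e2 : ∑ i ∈ I, ∑ j ∈ I, ip ℓ (y i) (y j) = ∑ t ∈ range ℓ, (∑ i ∈ I, sg (y i t)) ^ 2 := by
      unfold ip
      have : ∀ t, (∑ i ∈ I, sg (y i t)) ^ 2 = ∑ i ∈ I, ∑ j ∈ I, sg (y i t) * sg (y j t) := by
        intro t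
        rw [sq, sum_mul_sum]
      simp only [this]
      calc ∑ i ∈ I, ∑ j ∈ I, ∑ t ∈ range ℓ, sg (y i t) * sg (y j t)
          = ∑ i ∈ I, ∑ t ∈ range ℓ, ∑ j ∈ I, sg (y i t) * sg (y j t) := by
            apply sum_congr rfl
            intro i _
            exact sum_comm
        _ = ∑ t ∈ range ℓ, ∑ i ∈ I, ∑ j ∈ I, sg (y i t) * sg (y j t) := sum_comm
    rw [e1, e2]
    have h := sum_mul_sq_le_sq_mul_sq (range ℓ) (fun t => sg (x t)) (fun t => ∑ i ∈ I, sg (y i t))
    have e3 : ∑ t ∈ range ℓ, sg (x t) ^ 2 = ℓ := by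
      simp [sq, sg_sq]
    rw [e3] at h
    exact h
  have hsum : ∑ i ∈ I, ∑ j ∈ I, ip ℓ (y i) (y j) ≤ I.card * (ℓ + I.card * (4 * 8 ^ k)) := by
    have h1 : ∀ i ∈ I, ∑ j ∈ I, ip ℓ (y i) (y j) ≤ ℓ + I.card * (4 * 8 ^ k) := by
      intro i hi
      rw [← add_sum_erase I _ hi, hyi]
      have h2 : ∑ j ∈ I.erase i, ip ℓ (y i) (y j) ≤ ∑ j ∈ I.erase i, (4 * 8 ^ k : ℝ) := by
        apply sum_le_sum
        intro j hj
        rw [mem_erase] at hj
        exact hyy i hi j hj.2 (Ne.symm hj.1)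
      rw [sum_const, nsmul_eq_mul] at h2
      have h3 : ((I.erase i).card : ℝ) ≤ I.card := by exact_mod_cast card_erase_le
      have h4 : ((I.erase i).card : ℝ) * (4 * 8 ^ k) ≤ I.card * (4 * 8 ^ k) := by gcongr
      linarith
    calc ∑ i ∈ I, ∑ j ∈ I, ip ℓ (y i) (y j) ≤ ∑ i ∈ I, ((ℓ : ℝ) + I.card * (4 * 8 ^ k)) :=
          sum_le_sum h1
      _ = _ := by rw [sum_const, nsmul_eq_mul]
  have hlow : (I.card : ℝ) * (2 * ℓ / q) ≤ -∑ i ∈ I, ip ℓ x (y i) := by
    have : ∑ i ∈ I, ip ℓ x (y i) ≤ ∑ i ∈ I, (-(2 * ℓ / q : ℝ)) := sum_le_sum hip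
    rw [sum_const, nsmul_eq_mul] at this
    linarith
  set M : ℝ := (I.card : ℝ) with hM
  have hM0 : 0 ≤ M := by positivity
  have hq' : (0 : ℝ) < q := by exact_mod_cast hq
  have hℓpos : (0 : ℝ) < ℓ := by
    rw [hℓ]; positivity
  have h2 : (M * (2 * ℓ / q)) ^ 2 ≤ ℓ * (M * (ℓ + M * (4 * 8 ^ k))) := by
    calc (M * (2 * ℓ / q)) ^ 2 ≤ (-∑ i ∈ I, ip ℓ x (y i)) ^ 2 := by
          apply pow_le_pow_left₀ (by positivity) hlow
      _ = (∑ i ∈ I, ip ℓ x (y i)) ^ 2 := by ring
      _ ≤ _ := hCS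
      _ ≤ _ := by gcongr
  rcases Nat.eq_zero_or_pos I.card with h0 | hpos
  · rw [h0]; exact Nat.zero_le _
  have hMpos : 0 < M := by rw [hM]; exact_mod_cast hpos
  have h3 : 4 * M * ℓ ≤ (q : ℝ) ^ 2 * (ℓ + M * (4 * 8 ^ k)) := by
    have e : (M * (2 * ℓ / q)) ^ 2 = (M * ℓ) * (4 * M * ℓ) / (q : ℝ) ^ 2 := by
      field_simp; ring
    rw [e, div_le_iff₀ (by positivity)] at h2
    have h4 : (M * ℓ) * (4 * M * ℓ) ≤ (M * ℓ) * ((q : ℝ) ^ 2 * (ℓ + M * (4 * 8 ^ k))) := by
      linarith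
    exact le_of_mul_le_mul_left h4 (by positivity)
  have h5 : (q : ℝ) ^ 2 * (4 * 8 ^ k) ≤ 2 * ℓ := by
    have h6 : (2 : ℝ) * q ^ 2 ≤ 2 ^ k := by exact_mod_cast hk
    have e : ((ℓ : ℕ) : ℝ) = 2 ^ k * 8 ^ k := by
      rw [hℓ]; push_cast; rw [← mul_pow]; norm_num
    rw [e]
    have h7 : (0 : ℝ) < 8 ^ k := by positivity
    nlinarith
  have h8 : M ≤ (q : ℝ) ^ 2 := by
    by_contra hcon
    push Not at hcon
    have h9 : (q : ℝ) ^ 2 * (M * (4 * 8 ^ k)) ≤ 2 * M * ℓ := by nlinarith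
    have h10 : (q : ℝ) ^ 2 * ℓ < M * ℓ := by nlinarith
    nlinarith
  have h11 : ((I.card : ℕ) : ℝ) ≤ ((q ^ 2 : ℕ) : ℝ) := by push_cast; exact h8
  exact Nat.cast_le.1 h11

end Pool.Agent.AttrHIF
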