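import Mathlib

/-! # Closure properties of computable functions, in a form usable by `fun_prop`. -/

attribute [fun_prop] Computable

namespace Pool.Agent.AttrHIF

/-- Boolean equality test. -/
def eqB {β : Type*} [DecidableEq β] (a b : β) : Bool := decide (a = b)

@[simp] theorem eqB_iff {β : Type*} [DecidableEq β] (a b : β) : eqB a b = true ↔ a = b := by
  simp [eqB]

/-- Boolean membership test. -/
def inL {β : Type*} [DecidableEq β] (b : β) (l : List β) : Bool := decide (b ∈ l)

@[simp] theorem inL_iff {β : Type*} [DecidableEq β] (b : β) (l : List β) :
    inL b l = true ↔ b ∈ l := by simp [inL]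

section fp
variable {α β γ δ σ : Type*} [Primcodable α] [Primcodable β] [Primcodable γ] [Primcodable δ]
  [Primcodable σ]

@[fun_prop] theorem fp_id : Computable (fun a : α => a) := Computable.id

@[fun_prop] theorem fp_const (b : β) : Computable (fun _ : α => b) := Computable.const b

@[fun_prop] theorem fp_comp {f : β → γ} {g : α → β} (hf : Computable f) (hg : Computable g) :
    Computable (fun a => f (g a)) := hf.comp hg

@[fun_prop] theorem fp_fst {f : α → β × γ} (hf : Computable f) :
    Computable (fun a => (f a).1) := Computable.fst.comp hf

@[fun_prop] theorem fp_snd {f : α → β × γ} (hf : Computable f) :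
    Computable (fun a => (f a).2) := Computable.snd.comp hf

@[fun_prop] theorem fp_pair {f : α → β} {g : α → γ} (hf : Computable f) (hg : Computable g) :
    Computable (fun a => (f a, g a)) := hf.pair hg

/-! arithmetic -/

@[fun_prop] theorem fp_succ {f : α → ℕ} (hf : Computable f) :
    Computable (fun a => Nat.succ (f a)) := Computable.succ.comp hf

@[fun_prop] theorem fp_add {f g : α → ℕ} (hf : Computable f) (hg : Computable g) :
    Computable (fun a => f a + g a) := (Primrec.nat_add.to_comp).comp hf hg

@[fun_prop] theorem fp_sub {f g : α → ℕ} (hf : Computable f) (hg : Computable g) :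
    Computable (fun a => f a - g a) := (Primrec.nat_sub.to_comp).comp hf hg

@[fun_prop] theorem fp_mul {f g : α → ℕ} (hf : Computable f) (hg : Computable g) :
    Computable (fun a => f a * g a) := (Primrec.nat_mul.to_comp).comp hf hg

@[fun_prop] theorem fp_div {f g : α → ℕ} (hf : Computable f) (hg : Computable g) :
    Computable (fun a => f a / g a) := (Primrec.nat_div.to_comp).comp hf hg

@[fun_prop] theorem fp_mod {f g : α → ℕ} (hf : Computable f) (hg : Computable g) :
    Computable (fun a => f a % g a) := (Primrec.nat_mod.to_comp).comp hf hg

theorem primrec_pow : Primrec₂ ((· ^ ·) : ℕ → ℕ → ℕ) := Primrec₂.unpaired'.1 Nat.Primrec.pow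

@[fun_prop] theorem fp_pow {f g : α → ℕ} (hf : Computable f) (hg : Computable g) :
    Computable (fun a => f a ^ g a) := (primrec_pow.to_comp).comp hf hg

@[fun_prop] theorem fp_max {f g : α → ℕ} (hf : Computable f) (hg : Computable g) :
    Computable (fun a => max (f a) (g a)) := (Primrec.nat_max.to_comp).comp hf hg

@[fun_prop] theorem fp_min {f g : α → ℕ} (hf : Computable f) (hg : Computable g) :
    Computable (fun a => min (f a) (g a)) := (Primrec.nat_min.to_comp).comp hf hg

@[fun_prop] theorem fp_natPair {f g : α → ℕ} (hf : Computable f) (hg : Computable g) :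
    Computable (fun a => Nat.pair (f a) (g a)) := (Primrec₂.natPair.to_comp).comp hf hg

@[fun_prop] theorem fp_unpair {f : α → ℕ} (hf : Computable f) :
    Computable (fun a => Nat.unpair (f a)) := Computable.unpair.comp hf

@[fun_prop] theorem fp_encode {f : α → β} (hf : Computable f) :
    Computable (fun a => Encodable.encode (f a)) := Computable.encode.comp hf

/-! recursion on natural numbers -/

@[fun_prop] theorem fp_natrec {f : α → ℕ} {g : α → σ} {h : α → ℕ → σ → σ} (hf : Computable f)
    (hg : Computable g) (hh : Computable (fun p : α × ℕ × σ => h p.1 p.2.1 p.2.2)) :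
    Computable fun a => Nat.rec (motive := fun _ => σ) (g a) (fun y IH => h a y IH) (f a) :=
  Computable.nat_rec (h := fun a p => h a p.1 p.2) hf hg hh

/-! Booleans -/

@[fun_prop] theorem fp_not {f : α → Bool} (hf : Computable f) :
    Computable (fun a => !(f a)) := (Primrec.not.to_comp).comp hf

@[fun_prop] theorem fp_and {f g : α → Bool} (hf : Computable f) (hg : Computable g) :
    Computable (fun a => (f a && g a)) := (Primrec.and.to_comp).comp hf hg

@[fun_prop] theorem fp_or {f g : α → Bool} (hf : Computable f) (hg : Computable g) :
    Computable (fun a => (f a || g a)) := (Primrec.or.to_comp).comp hf hg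

@[fun_prop] theorem fp_toNat {f : α → Bool} (hf : Computable f) :
    Computable (fun a => (f a).toNat) := ((Primrec.dom_bool Bool.toNat).to_comp).comp hf

@[fun_prop] theorem fp_cond {c : α → Bool} {f g : α → σ} (hc : Computable c) (hf : Computable f)
    (hg : Computable g) : Computable (fun a => bif c a then f a else g a) :=
  Computable.cond hc hf hg

@[fun_prop] theorem fp_decide_le {f g : α → ℕ} (hf : Computable f) (hg : Computable g) :
    Computable (fun a => decide (f a ≤ g a)) := (Primrec.nat_le.decide.to_comp).comp hf hg

@[fun_prop] theorem fp_decide_lt {f g : α → ℕ} (hf : Computable f) (hg : Computable g) :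
    Computable (fun a => decide (f a < g a)) := (Primrec.nat_lt.decide.to_comp).comp hf hg

@[fun_prop] theorem fp_eqB [DecidableEq β] {f g : α → β} (hf : Computable f)
    (hg : Computable g) : Computable (fun a => eqB (f a) (g a)) :=
  ((Primrec.eq (α := β)).decide.to_comp).comp hf hg

/-! options -/

@[fun_prop] theorem fp_some {f : α → β} (hf : Computable f) :
    Computable (fun a => Option.some (f a)) := Computable.option_some.comp hf

@[fun_prop] theorem fp_getD {f : α → Option β} {g : α → β} (hf : Computable f)
    (hg : Computable g) : Computable (fun a => (f a).getD (g a)) :=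
  Computable.option_getD hf hg

@[fun_prop] theorem fp_isSome {f : α → Option β} (hf : Computable f) :
    Computable (fun a => (f a).isSome) := (Primrec.option_isSome.to_comp).comp hf

@[fun_prop] theorem fp_orElse {f g : α → Option β} (hf : Computable f)
    (hg : Computable g) : Computable (fun a => ((f a).or (g a))) :=
  ((Primrec.option_orElse.to_comp).comp hf hg).of_eq (fun a => by cases f a <;> rfl)

@[fun_prop] theorem fp_omap {f : α → Option β} {g : α → β → σ} (hf : Computable f)
    (hg : Computable (fun p : α × β => g p.1 p.2)) : Computable (fun a => (f a).map (g a)) :=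
  Computable.option_map hf hg

@[fun_prop] theorem fp_obind {f : α → Option β} {g : α → β → Option σ} (hf : Computable f)
    (hg : Computable (fun p : α × β => g p.1 p.2)) : Computable (fun a => (f a).bind (g a)) :=
  Computable.option_bind hf hg

/-! lists -/

@[fun_prop] theorem fp_cons {f : α → β} {g : α → List β} (hf : Computable f)
    (hg : Computable g) : Computable (fun a => f a :: g a) := Computable.list_cons.comp hf hg

@[fun_prop] theorem fp_append {f : α → List β} {g : α → List β} (hf : Computable f)
    (hg : Computable g) : Computable (fun a => f a ++ g a) := Computable.list_append.comp hf hg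

@[fun_prop] theorem fp_length {f : α → List β} (hf : Computable f) :
    Computable (fun a => (f a).length) := Computable.list_length.comp hf

@[fun_prop] theorem fp_getElem? {f : α → List β} {g : α → ℕ} (hf : Computable f)
    (hg : Computable g) : Computable (fun a => (f a)[g a]?) :=
  Computable.list_getElem?.comp hf hg

@[fun_prop] theorem fp_lgetD {f : α → List β} {g : α → ℕ} {d : α → β} (hf : Computable f)
    (hg : Computable g) (hd : Computable d) : Computable (fun a => (f a).getD (g a) (d a)) :=
  (fp_getD (fp_getElem? hf hg) hd).of_eq (fun a => by simp [List.getD])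

@[fun_prop] theorem fp_take {f : α → ℕ} {g : α → List β} (hf : Computable f)
    (hg : Computable g) : Computable (fun a => (g a).take (f a)) :=
  (Primrec.list_take.to_comp).comp hf hg

@[fun_prop] theorem fp_drop {f : α → ℕ} {g : α → List β} (hf : Computable f)
    (hg : Computable g) : Computable (fun a => (g a).drop (f a)) :=
  (Primrec.list_drop.to_comp).comp hf hg

@[fun_prop] theorem fp_tail {f : α → List β} (hf : Computable f) :
    Computable (fun a => (f a).tail) := (Primrec.list_tail.to_comp).comp hf

@[fun_prop] theorem fp_reverse {f : α → List β} (hf : Computable f) :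
    Computable (fun a => (f a).reverse) := Computable.list_reverse.comp hf

@[fun_prop] theorem fp_range {f : α → ℕ} (hf : Computable f) :
    Computable (fun a => List.range (f a)) := (Primrec.list_range.to_comp).comp hf

theorem foldl_eq_natrec {β σ : Type*} (h : σ → β → σ) (l : List β) (s : σ) :
    l.foldl h s = Nat.rec (motive := fun _ => σ) s
      (fun y IH => ((l[y]?).map (h IH)).getD IH) l.length := by
  induction l using List.reverseRecOn generalizing s with
  | nil => rfl
  | append_singleton l b ih =>
    rw [List.foldl_append, ih s, List.length_append]
    simp only [List.length_cons, List.length_nil, List.foldl_cons, List.foldl_nil]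
    have key : ∀ n ≤ l.length,
        (Nat.rec (motive := fun _ => σ) s (fun y IH => (((l ++ [b])[y]?).map (h IH)).getD IH) n)
        = (Nat.rec (motive := fun _ => σ) s (fun y IH => ((l[y]?).map (h IH)).getD IH) n) := by
      intro n hn
      induction n with
      | zero => rfl
      | succ n ihn =>
        simp only
        rw [ihn (by omega)]
        rw [List.getElem?_append_left (by omega)]
    show _ = (((l ++ [b])[l.length]?).map (h _)).getD _
    rw [key _ le_rfl]
    simp

@[fun_prop] theorem fp_foldl {l : α → List β} {g : α → σ} {h : α → σ → β → σ} (hl : Computable l)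
    (hg : Computable g) (hh : Computable (fun p : α × σ × β => h p.1 p.2.1 p.2.2)) :
    Computable (fun a => (l a).foldl (h a) (g a)) := by
  have : Computable (fun a => Nat.rec (motive := fun _ => σ) (g a)
      (fun y IH => (((l a)[y]?).map (h a IH)).getD IH) (l a).length) := by
    have h2 : Computable (fun q : (α × ℕ × σ) × β => h q.1.1 q.1.2.2 q.2) :=
      hh.comp (Computable.pair (Computable.fst.comp Computable.fst)
        (Computable.pair (Computable.snd.comp (Computable.snd.comp Computable.fst))
          Computable.snd))
    exact fp_natrec (fp_length hl) hg (fp_getD (fp_omap (by fun_prop) h2) (by fun_prop))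
  exact this.of_eq (fun a => (foldl_eq_natrec _ _ _).symm)

@[fun_prop] theorem fp_lmap {l : α → List β} {g : α → β → σ} (hl : Computable l)
    (hg : Computable (fun p : α × β => g p.1 p.2)) :
    Computable (fun a => (l a).map (g a)) := by
  have hg' : Computable (fun p : α × List σ × β => g p.1 p.2.2) :=
    hg.comp (by fun_prop : Computable (fun p : α × List σ × β => (p.1, p.2.2)))
  have : Computable (fun a => (l a).foldl (fun acc b => acc ++ [g a b]) []) := by
    apply fp_foldl hl (by fun_prop)
    exact fp_append (by fun_prop) (fp_cons hg' (by fun_prop))
  refine this.of_eq (fun a => ?_)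
  have : ∀ (l : List β) (acc : List σ),
      l.foldl (fun acc b => acc ++ [g a b]) acc = acc ++ l.map (g a) := by
    intro l
    induction l with
    | nil => intro acc; simp
    | cons x xs ih => intro acc; simp [ih]
  simpa using this (l a) []

@[fun_prop] theorem fp_lflatMap {l : α → List β} {g : α → β → List σ} (hl : Computable l)
    (hg : Computable (fun p : α × β => g p.1 p.2)) :
    Computable (fun a => (l a).flatMap (g a)) := by
  have hg' : Computable (fun p : α × List σ × β => g p.1 p.2.2) :=
    hg.comp (by fun_prop : Computable (fun p : α × List σ × β => (p.1, p.2.2)))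
  have : Computable (fun a => (l a).foldl (fun acc b => acc ++ g a b) []) := by
    apply fp_foldl hl (by fun_prop)
    exact fp_append (by fun_prop) hg'
  refine this.of_eq (fun a => ?_)
  have : ∀ (l : List β) (acc : List σ),
      l.foldl (fun acc b => acc ++ g a b) acc = acc ++ l.flatMap (g a) := by
    intro l
    induction l with
    | nil => intro acc; simp
    | cons x xs ih => intro acc; simp [ih]
  simpa using this (l a) []

@[fun_prop] theorem fp_lfilter {l : α → List β} {g : α → β → Bool} (hl : Computable l)
    (hg : Computable (fun p : α × β => g p.1 p.2)) :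
    Computable (fun a => (l a).filter (g a)) := by
  have : Computable (fun a => (l a).flatMap (fun b => bif g a b then [b] else [])) := by
    apply fp_lflatMap hl
    exact fp_cond hg (by fun_prop) (by fun_prop)
  refine this.of_eq (fun a => ?_)
  induction l a with
  | nil => rfl
  | cons x xs ih =>
    rw [List.flatMap_cons, ih, List.filter_cons]
    cases g a x <;> simp

@[fun_prop] theorem fp_lall {l : α → List β} {g : α → β → Bool} (hl : Computable l)
    (hg : Computable (fun p : α × β => g p.1 p.2)) :
    Computable (fun a => (l a).all (g a)) := by
  have : Computable (fun a => eqB (((l a).filter (fun b => !(g a b))).length) 0) := by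
    apply fp_eqB _ (by fun_prop)
    apply fp_length
    exact fp_lfilter hl (fp_not hg)
  refine this.of_eq (fun a => ?_)
  rw [Bool.eq_iff_iff]
  simp [List.length_eq_zero_iff, List.filter_eq_nil_iff]

@[fun_prop] theorem fp_lany {l : α → List β} {g : α → β → Bool} (hl : Computable l)
    (hg : Computable (fun p : α × β => g p.1 p.2)) :
    Computable (fun a => (l a).any (g a)) := by
  have : Computable (fun a => !((l a).all (fun b => !(g a b)))) :=
    fp_not (fp_lall hl (fp_not hg))
  refine this.of_eq (fun a => ?_)
  simp [List.all_eq_not_any_not]

@[fun_prop] theorem fp_inL [DecidableEq β] {l : α → List β} {g : α → β} (hl : Computable l)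
    (hg : Computable g) :
    Computable (fun a => inL (g a) (l a)) := by
  have : Computable (fun a => (l a).any (fun b => eqB (g a) b)) := by fun_prop
  refine this.of_eq (fun a => ?_)
  rw [Bool.eq_iff_iff]
  simp

@[fun_prop] theorem fp_sum {l : α → List ℕ} (hl : Computable l) :
    Computable (fun a => (l a).sum) := by
  have : Computable (fun a => (l a).foldl (fun s b => s + b) 0) := by fun_prop
  exact this.of_eq (fun a => (List.sum_eq_foldl (xs := l a)).symm)

/-- unbounded search over an arbitrary (encodable) type -/
theorem exists_search [Inhabited β] {R : α → β → Bool}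
    (hR : Computable (fun p : α × β => R p.1 p.2)) (h : ∀ a, ∃ b, R a b = true) :
    ∃ g : α → β, Computable g ∧ ∀ a, R a (g a) = true := by
  classical
  let P : α → ℕ → Prop := fun a n => ((Encodable.decode (α := β) n).map (R a)).getD false = true
  have hP : ∀ a, ∃ n, P a n := by
    intro a
    obtain ⟨b, hb⟩ := h a
    exact ⟨Encodable.encode b, by simp [P, hb]⟩
  have hPc : ComputablePred (fun p : α × ℕ => P p.1 p.2) := by
    apply Computable.computablePred
    have h2 : Computable (fun q : (α × ℕ) × β => R q.1.1 q.2) :=
      hR.comp (by fun_prop : Computable (fun q : (α × ℕ) × β => (q.1.1, q.2)))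
    have : Computable (fun p : α × ℕ =>
        ((Encodable.decode (α := β) p.2).map (R p.1)).getD false) :=
      fp_getD (fp_omap (Computable.decode.comp Computable.snd) h2) (by fun_prop)
    refine this.of_eq (fun p => ?_)
    simp only [P]
    rw [Bool.decide_coe]
  refine ⟨fun a => (Encodable.decode (α := β) (Nat.find (hP a))).getD default, ?_, ?_⟩
  · have := Computable.find hPc hP
    exact fp_getD (Computable.decode.comp this) (by fun_prop)
  · intro a
    have := Nat.find_spec (hP a)
    simp only [P] at this
    cases hd : (Encodable.decode (α := β) (Nat.find (hP a))) with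
    | none => rw [hd] at this; simp at this
    | some b =>
      rw [hd] at this
      show R a ((Encodable.decode (α := β) (Nat.find (hP a))).getD default) = true
      rw [hd]
      simpa using this

end fp

end Pool.Agent.AttrHIF
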