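import Mathlib

/-! # Coarse similarity, the Hausdorff distance of Turing degrees, attractive sets

Sets of natural numbers are points of Cantor space `ℕ → Bool`. -/

namespace Pool.Agent.AttrHIF

open Filter Topology MeasureTheory

/-- The proportion `|X ∩ [0,n)| / n`. -/
noncomputable def density (X : Set ℕ) (n : ℕ) : ℝ := ((X ∩ Set.Iio n).ncard : ℝ) / n

/-- The upper density of `X`. -/
noncomputable def upperDensity (X : Set ℕ) : ℝ := limsup (density X) atTop

/-- The symmetric difference of two sets given by their characteristic functions. -/
def symDiff (A B : ℕ → Bool) : Set ℕ := {k | A k ≠ B k}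

/-- Coarse similarity: the symmetric difference has density `0`. -/
def CoarselySimilar (A B : ℕ → Bool) : Prop := Tendsto (density (symDiff A B)) atTop (𝓝 0)

theorem density_nonneg (X : Set ℕ) (n : ℕ) : 0 ≤ density X n := by
  unfold density; positivity

theorem density_le_one (X : Set ℕ) (n : ℕ) : density X n ≤ 1 := by
  unfold density
  rcases Nat.eq_zero_or_pos n with rfl | hn
  · simp
  · rw [div_le_one (by exact_mod_cast hn)]
    have h : (X ∩ Set.Iio n).ncard ≤ (Set.Iio n).ncard :=
      Set.ncard_le_ncard Set.inter_subset_right (Set.finite_Iio n)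
    rw [Set.ncard_Iio_nat] at h
    exact_mod_cast h

theorem density_mono {X Y : Set ℕ} (h : X ⊆ Y) (n : ℕ) : density X n ≤ density Y n := by
  unfold density
  gcongr
  exact (Set.finite_Iio n).subset Set.inter_subset_right

theorem density_union_le (X Y : Set ℕ) (n : ℕ) :
    density (X ∪ Y) n ≤ density X n + density Y n := by
  unfold density
  rw [← add_div]
  gcongr
  rw [Set.union_inter_distrib_right]
  exact_mod_cast Set.ncard_union_le _ _

theorem isBoundedUnder_density (X : Set ℕ) :
    IsBoundedUnder (· ≤ ·) atTop (density X) :=
  isBoundedUnder_of ⟨1, fun n => density_le_one X n⟩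

theorem isCoboundedUnder_density (X : Set ℕ) :
    IsCoboundedUnder (· ≤ ·) atTop (density X) :=
  IsBoundedUnder.isCoboundedUnder_le (isBoundedUnder_of ⟨0, fun n => density_nonneg X n⟩)

theorem upperDensity_le {X : Set ℕ} {c : ℝ}
    (h : ∀ ε > 0, ∀ᶠ n in atTop, density X n ≤ c + ε) : upperDensity X ≤ c := by
  apply le_of_forall_pos_le_add
  intro ε hε
  exact limsup_le_of_le (isCoboundedUnder_density X) (h ε hε)

theorem eventually_density_lt {X : Set ℕ} {c : ℝ} (h : upperDensity X < c) :
    ∀ᶠ n in atTop, density X n < c :=
  eventually_lt_of_limsup_lt h (isBoundedUnder_density X)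

theorem upperDensity_nonneg (X : Set ℕ) : 0 ≤ upperDensity X :=
  le_limsup_of_frequently_le (Frequently.of_forall fun n => density_nonneg X n)
    (isBoundedUnder_density X)

theorem upperDensity_le_one (X : Set ℕ) : upperDensity X ≤ 1 :=
  upperDensity_le fun ε hε => Eventually.of_forall fun n => by
    have := density_le_one X n; linarith

theorem upperDensity_mono {X Y : Set ℕ} (h : X ⊆ Y) : upperDensity X ≤ upperDensity Y := by
  apply upperDensity_le
  intro ε hε
  have h1 := eventually_density_lt (X := Y) (c := upperDensity Y + ε) (by linarith)
  filter_upwards [h1] with n hn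
  exact (density_mono h n).trans hn.le

theorem upperDensity_union_le (X Y : Set ℕ) :
    upperDensity (X ∪ Y) ≤ upperDensity X + upperDensity Y := by
  apply upperDensity_le
  intro ε hε
  have h1 := eventually_density_lt (X := X) (c := upperDensity X + ε / 2) (by linarith)
  have h2 := eventually_density_lt (X := Y) (c := upperDensity Y + ε / 2) (by linarith)
  filter_upwards [h1, h2] with n hn1 hn2
  have := density_union_le X Y n
  linarith

theorem upperDensity_eq_of_tendsto {X : Set ℕ} {c : ℝ} (h : Tendsto (density X) atTop (𝓝 c)) :
    upperDensity X = c := h.limsup_eq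

theorem symDiff_comm (A B : ℕ → Bool) : symDiff A B = symDiff B A := by
  ext k; simp only [symDiff, Set.mem_ofPred_eq]; exact ne_comm

theorem symDiff_triangle (A B C : ℕ → Bool) : symDiff A C ⊆ symDiff A B ∪ symDiff B C := by
  intro k hk
  by_cases h : A k = B k
  · right
    simp only [symDiff, Set.mem_ofPred_eq] at hk ⊢
    rwa [h] at hk
  · exact Or.inl h

theorem ud_triangle (A B C : ℕ → Bool) :
    upperDensity (symDiff A C) ≤ upperDensity (symDiff A B) + upperDensity (symDiff B C) :=
  (upperDensity_mono (symDiff_triangle A B C)).trans (upperDensity_union_le _ _)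

theorem ud_self (A : ℕ → Bool) : upperDensity (symDiff A A) = 0 := by
  apply upperDensity_eq_of_tendsto
  have : density (symDiff A A) = fun _ => 0 := by
    funext n; simp [density, symDiff]
  rw [this]
  exact tendsto_const_nhds

/-- Two sets are coarsely similar iff the upper density of their symmetric difference is `0`. -/
theorem coarselySimilar_iff (A B : ℕ → Bool) :
    CoarselySimilar A B ↔ upperDensity (symDiff A B) = 0 := by
  constructor
  · intro h; exact upperDensity_eq_of_tendsto h
  · intro h
    unfold CoarselySimilar
    rw [tendsto_order]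
    constructor
    · intro a ha
      exact Eventually.of_forall fun n => lt_of_lt_of_le ha (density_nonneg _ n)
    · intro a ha
      exact eventually_density_lt (by rw [h]; exact ha)

/-- Coarse similarity as an equivalence relation. -/
def coarseSetoid : Setoid (ℕ → Bool) where
  r := CoarselySimilar
  iseqv := by
    refine ⟨?_, ?_, ?_⟩
    · intro A; rw [coarselySimilar_iff]; exact ud_self A
    · intro A B h; rw [coarselySimilar_iff] at h ⊢; rw [symDiff_comm]; exact h
    · intro A B C h1 h2
      rw [coarselySimilar_iff] at h1 h2 ⊢
      have := ud_triangle A B C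
      rw [h1, h2] at this
      exact le_antisymm (by linarith) (upperDensity_nonneg _)

/-- The space `𝒮` of coarse similarity classes. -/
def CoarseClass : Type := Quotient coarseSetoid

/-- The coarse similarity class `[A]`. -/
def cls (A : ℕ → Bool) : CoarseClass := Quotient.mk coarseSetoid A

/-- The metric `δ([A],[B])` is the upper density of the symmetric difference. -/
noncomputable instance : MetricSpace CoarseClass where
  dist := Quotient.lift₂ (fun A B => upperDensity (symDiff A B)) (by
    intro A B A' B' h1 h2
    have h1' := (coarselySimilar_iff _ _).1 h1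
    have h2' := (coarselySimilar_iff _ _).1 h2
    have e1 := ud_triangle A A' B
    have e2 := ud_triangle A' B' B
    have e3 := ud_triangle A' A B'
    have e4 := ud_triangle A B B'
    rw [symDiff_comm B' B] at e2
    rw [symDiff_comm A' A] at e3
    apply le_antisymm <;> linarith)
  dist_self x := by
    induction x using Quotient.inductionOn with
    | h A => exact ud_self A
  dist_comm x y := by
    induction x, y using Quotient.inductionOn₂ with
    | h A B => exact congrArg upperDensity (symDiff_comm A B)
  dist_triangle x y z := by
    induction x, y using Quotient.inductionOn₂ with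
    | h A B =>
      induction z using Quotient.inductionOn with
      | h C => exact ud_triangle A B C
  eq_of_dist_eq_zero {x y} h := by
    induction x, y using Quotient.inductionOn₂ with
    | h A B => exact Quotient.sound ((coarselySimilar_iff A B).2 h)

theorem dist_cls (A B : ℕ → Bool) : dist (cls A) (cls B) = upperDensity (symDiff A B) := rfl

/-- The characteristic function of a set, as an oracle. -/
def charFn (A : ℕ → Bool) : ℕ →. ℕ := fun n => Part.some (A n).toNat

/-- The Turing degree of a set. -/
def degreeOf (A : ℕ → Bool) : TuringDegree := toAntisymmetrization TuringReducible (charFn A)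

/-- The closure, in the space of coarse similarity classes, of `{[A] : A ∈ d}`. -/
def degreeClosure (d : TuringDegree) : Set CoarseClass :=
  closure {x | ∃ A : ℕ → Bool, degreeOf A = d ∧ x = cls A}

/-- The Hausdorff distance `H(a, b)` of two Turing degrees. -/
noncomputable def H (a b : TuringDegree) : ℝ :=
  Metric.hausdorffDist (degreeClosure a) (degreeClosure b)

/-- The uniform (coin-toss) measure on Cantor space. -/
noncomputable def coin : Measure (ℕ → Bool) :=
  Measure.infinitePi (fun _ => (PMF.uniformOfFintype Bool).toMeasure)

/-- `A` is attractive if `H(A,B) = 1/2` for almost every `B`. -/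
def Attractive (A : ℕ → Bool) : Prop :=
  ∀ᵐ B ∂coin, H (degreeOf A) (degreeOf B) = 1 / 2

/-- Every function computable from `A` is dominated by a computable function. -/
def HyperimmuneFree (A : ℕ → Bool) : Prop :=
  ∀ g : ℕ → ℕ, TuringReducible (g : ℕ →. ℕ) (charFn A) →
    ∃ f : ℕ → ℕ, Computable f ∧ ∀ n, g n ≤ f n

/-- The open subset of Cantor space generated by a set of binary strings. -/
def openOf (W : List Bool → Prop) : Set (ℕ → Bool) :=
  {X | ∃ n, W ((List.range n).map X)}

/-- A Martin-Löf test: a uniformly c.e. sequence of open sets `U n` of measure at most `2⁻ⁿ`. -/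
structure IsMLTest (W : ℕ → List Bool → Prop) : Prop where
  re : REPred (fun p : ℕ × List Bool => W p.1 p.2)
  meas : ∀ n, coin (openOf (W n)) ≤ 2⁻¹ ^ n

/-- `R` is `1`-random: it passes every Martin-Löf test. -/
def OneRandom (R : ℕ → Bool) : Prop :=
  ∀ W, IsMLTest W → ∃ n, R ∉ openOf (W n)

end Pool.Agent.AttrHIF
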