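import Pool.Agent.Lib.MP_99e598_lc.Thin

/-! # The forcing conditions and the generic function. -/

namespace Pool.Agent.AttrHIF

open Finset Filter

/-- A forcing condition: a stem, a computable bushy tree, and a computable small bad set. -/
structure Cond where
  σ : List ℕ
  T : List ℕ → Bool
  B : List ℕ → Bool
  β : ℕ → ℕ
  γ : ℕ → ℕ
  cT : Computable T
  cB : Computable B
  cγ : Computable γ
  Tσ : T σ = true
  Tpre : ∀ ρ c, T (ρ ++ [c]) = true → T ρ = true
  Tbd : ∀ ρ c, T (ρ ++ [c]) = true → c < hb ρ.length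
  Bup : ∀ ρ c, B ρ = true → B (ρ ++ [c]) = true
  br : ∀ ρ, T ρ = true → σ <+: ρ → 2 ^ β ρ.length ≤ (kids T (fun _ => True) ρ).card
  small : ¬ Big T (fun ρ => B ρ = true) (fun k => 2 ^ γ k) σ
  γmono : Monotone γ
  γpos : ∀ k, 1 ≤ γ k
  le : ∀ k, σ.length ≤ k → γ k ≤ β k
  gap : ∃ n, ∀ᶠ k in atTop, γ k * 2 ^ (k / (n + 1)) ≤ β k

/-- The paths of a condition. -/
def Cond.paths (p : Cond) : Set (ℕ → ℕ) :=
  {f | (∀ k, p.T (res f k) = true) ∧ (∀ k, p.B (res f k) = false) ∧
    res f p.σ.length = p.σ}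

theorem isOpen_res (P : List ℕ → Prop) (k : ℕ) : IsOpen {f : ℕ → ℕ | P (res f k)} := by
  rw [isOpen_iff_forall_mem_open]
  intro f hf
  refine ⟨Set.pi (Set.Iio k) (fun i => {f i}), ?_, ?_, ?_⟩
  · intro g hg
    have : res g k = res f k := res_congr (fun i hi => hg i hi)
    simp only [Set.mem_ofPred_eq] at hf ⊢
    rw [this]; exact hf
  · exact isOpen_set_pi (Set.finite_Iio k) (fun i _ => isOpen_discrete _)
  · intro i _; rfl

theorem isClosed_res (P : List ℕ → Prop) (k : ℕ) : IsClosed {f : ℕ → ℕ | P (res f k)} := by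
  rw [← isOpen_compl_iff]
  exact isOpen_res (fun l => ¬ P l) k

theorem Cond.isClosed_paths (p : Cond) : IsClosed p.paths := by
  unfold Cond.paths
  simp only [Set.ofPred_and, Set.ofPred_forall]
  refine (isClosed_iInter fun k => isClosed_res (fun l => p.T l = true) k).inter
    ((isClosed_iInter fun k => isClosed_res (fun l => p.B l = false) k).inter
      (isClosed_res (fun l => l = p.σ) _))

theorem Cond.paths_lt (p : Cond) {f : ℕ → ℕ} (hf : f ∈ p.paths) (k : ℕ) : f k < hb k := by
  have h := hf.1 (k + 1)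
  rw [res_succ] at h
  have := p.Tbd _ _ h
  simpa using this

theorem Cond.isCompact_paths (p : Cond) : IsCompact p.paths := by
  have h : IsCompact (Set.pi Set.univ (fun k : ℕ => Set.Iio (hb k))) :=
    isCompact_univ_pi (fun k => (Set.finite_Iio (hb k)).isCompact)
  refine h.of_isClosed_subset p.isClosed_paths ?_
  intro f hf k _
  exact p.paths_lt hf k

/-- Following a property through one-step extensions yields an infinite path. -/
theorem exists_path (P : List ℕ → Prop) (σ : List ℕ) (h0 : P σ)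
    (hs : ∀ ρ, P ρ → ∃ c, P (ρ ++ [c])) : ∃ f : ℕ → ℕ, ∀ i, P (res f (σ.length + i)) ∧
      res f σ.length = σ := by
  classical
  choose! c hc using hs
  let s : ℕ → List ℕ := fun i => Nat.rec (motive := fun _ => List ℕ) σ
    (fun _ IH => IH ++ [c IH]) i
  have s0 : s 0 = σ := rfl
  have s1 : ∀ i, s (i + 1) = s i ++ [c (s i)] := fun i => rfl
  have hP : ∀ i, P (s i) := by
    intro i
    induction i with
    | zero => exact h0
    | succ i ih => rw [s1]; exact hc _ ih
  have hl : ∀ i, (s i).length = σ.length + i := by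
    intro i
    induction i with
    | zero => simp [s0]
    | succ i ih => rw [s1]; simp [ih]; omega
  have hpre : ∀ i j, i ≤ j → s i <+: s j := by
    intro i j hij
    induction j, hij using Nat.le_induction with
    | base => exact List.prefix_refl _
    | succ j _ ih => rw [s1]; exact ih.trans (List.prefix_append _ _)
  let f : ℕ → ℕ := fun k => (s (k + 1)).getD k 0
  have hres : ∀ i, res f (σ.length + i) = s i := by
    intro i
    apply List.ext_getElem
    · rw [res_length, hl]
    · intro n h1 h2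
      have hn : n < σ.length + i := by simpa using h1
      have e1 : (res f (σ.length + i))[n] = f n := by
        have := res_getElem? f _ n hn
        rw [List.getElem?_eq_getElem h1] at this
        exact Option.some.inj this
      rw [e1]
      show (s (n + 1)).getD n 0 = _
      have hlen : n < (s (n + 1)).length := by have := hl (n + 1); omega
      rw [List.getD_eq_getElem _ _ hlen]
      have hk1 := hpre (n + 1) (max (n + 1) i) (le_max_left _ _)
      have hk2 := hpre i (max (n + 1) i) (le_max_right _ _)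
      rw [hk1.getElem hlen, hk2.getElem h2]
  refine ⟨f, fun i => ⟨by rw [hres]; exact hP i, ?_⟩⟩
  have := hres 0
  rw [s0] at this
  simpa using this

theorem Cond.br' (p : Cond) (ρ : List ℕ) (h1 : p.T ρ = true) (h2 : p.σ <+: ρ) :
    2 ^ p.γ ρ.length ≤ (kids p.T (fun _ => True) ρ).card :=
  (Nat.pow_le_pow_right (by norm_num) (p.le _ h2.length_le)).trans (p.br ρ h1 h2)

theorem Cond.step (p : Cond) (ρ : List ℕ) (h1 : p.T ρ = true) (h2 : p.σ <+: ρ)
    (h3 : ¬ Big p.T (fun ρ => p.B ρ = true) (fun k => 2 ^ p.γ k) ρ) :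
    ∃ c, p.T (ρ ++ [c]) = true ∧ p.σ <+: ρ ++ [c] ∧
      ¬ Big p.T (fun ρ => p.B ρ = true) (fun k => 2 ^ p.γ k) (ρ ++ [c]) := by
  obtain ⟨c, hc1, hc2⟩ := exists_small_child (T := p.T) (D := fun ρ => p.B ρ = true)
    (d := fun k => 2 ^ p.γ k) (P := fun ρ => p.T ρ = true ∧ p.σ <+: ρ)
    (fun ρ c h hc => ⟨hc, h.2.trans (List.prefix_append _ _)⟩)
    (fun ρ h => p.br' ρ h.1 h.2) p.Bup ⟨h1, h2⟩ h3
  exact ⟨c, hc1, h2.trans (List.prefix_append _ _), hc2⟩

theorem Cond.nonempty_paths (p : Cond) : p.paths.Nonempty := by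
  obtain ⟨f, hf⟩ := exists_path (fun ρ => p.T ρ = true ∧ p.σ <+: ρ ∧
    ¬ Big p.T (fun ρ => p.B ρ = true) (fun k => 2 ^ p.γ k) ρ) p.σ
    ⟨p.Tσ, List.prefix_refl _, p.small⟩
    (fun ρ h => p.step ρ h.1 h.2.1 h.2.2)
  have hT : ∀ k, p.T (res f k) = true := by
    intro k
    have h1 := (hf k).1.1
    have : ∀ j, p.T (res f (k + j)) = true → p.T (res f k) = true := by
      intro j
      induction j with
      | zero => intro h; exact h
      | succ j ih => intro h; rw [← add_assoc, res_succ] at h; exact ih (p.Tpre _ _ h)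
    apply this p.σ.length
    rw [add_comm]; exact h1
  refine ⟨f, hT, ?_, (hf 0).2⟩
  intro k
  by_contra hB
  rw [Bool.not_eq_false] at hB
  have : ∀ j, p.B (res f (k + j)) = true := by
    intro j
    induction j with
    | zero => exact hB
    | succ j ih => rw [← add_assoc, res_succ]; exact p.Bup _ _ ih
  have h2 := this p.σ.length
  rw [add_comm] at h2
  exact (hf k).1.2.2 ⟨0, h2⟩

/-- Extending the stem. -/
theorem Cond.extend (p : Cond) (s : ℕ) : ∃ q : Cond, q.T = p.T ∧ q.B = p.B ∧ q.β = p.β ∧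
    q.γ = p.γ ∧ s ≤ q.σ.length ∧ q.paths ⊆ p.paths := by
  have key : ∀ n, ∃ ρ : List ℕ, ρ.length = p.σ.length + n ∧ p.T ρ = true ∧ p.σ <+: ρ ∧
      ¬ Big p.T (fun ρ => p.B ρ = true) (fun k => 2 ^ p.γ k) ρ := by
    intro n
    induction n with
    | zero => exact ⟨p.σ, by simp, p.Tσ, List.prefix_refl _, p.small⟩
    | succ n ih =>
      obtain ⟨ρ, h0, h1, h2, h3⟩ := ih
      obtain ⟨c, hc1, hc2, hc3⟩ := p.step ρ h1 h2 h3
      exact ⟨ρ ++ [c], by simp [h0]; omega, hc1, hc2, hc3⟩
  obtain ⟨ρ, h0, h1, h2, h3⟩ := key s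
  refine ⟨{ p with
    σ := ρ
    Tσ := h1
    br := fun τ hτ hpre => p.br τ hτ (h2.trans hpre)
    small := h3
    le := fun k hk => p.le k (by omega) }, rfl, rfl, rfl, rfl, by simp [h0], ?_⟩
  intro f hf
  refine ⟨hf.1, hf.2.1, ?_⟩
  have h4 : res f ρ.length = ρ := hf.2.2
  have h5 : res f p.σ.length = (res f ρ.length).take p.σ.length := by
    rw [res_take f _ _ (by omega)]
  rw [h5, h4]
  exact (List.prefix_iff_eq_take.1 h2).symm

/-- Meeting countably many dense requirements. -/
theorem generic {ι : Type*} [Countable ι] (R : ι → (ℕ → ℕ) → Prop)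
    (hR : ∀ i, ∀ p : Cond, ∃ q : Cond, q.paths ⊆ p.paths ∧ ∀ f ∈ q.paths, R i f) (p : Cond) :
    ∃ f ∈ p.paths, ∀ i, R i f := by
  classical
  rcases isEmpty_or_nonempty ι with hι | hι
  · obtain ⟨f, hf⟩ := p.nonempty_paths
    exact ⟨f, hf, fun i => (hι.false i).elim⟩
  obtain ⟨e, he⟩ := exists_surjective_nat ι
  choose q hq1 hq2 using hR
  let s : ℕ → Cond := fun n => Nat.rec (motive := fun _ => Cond) p
    (fun n IH => q (e n) IH) n
  have s0 : s 0 = p := rfl
  have s1 : ∀ n, s (n + 1) = q (e n) (s n) := fun n => rfl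
  have hne : (⋂ n, (s n).paths).Nonempty := by
    apply IsCompact.nonempty_iInter_of_sequence_nonempty_isCompact_isClosed
    · intro n; rw [s1]; exact hq1 _ _
    · intro n; exact (s n).nonempty_paths
    · exact (s 0).isCompact_paths
    · intro n; exact (s n).isClosed_paths
  obtain ⟨f, hf⟩ := hne
  rw [Set.mem_iInter] at hf
  refine ⟨f, hf 0, ?_⟩
  intro i
  obtain ⟨n, rfl⟩ := he i
  have := hf (n + 1)
  rw [s1] at this
  exact hq2 _ _ f this

end Pool.Agent.AttrHIF
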