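import Pool.Agent.Lib.MP_99e598_lc.Req

/-! # The generic function. -/

namespace Pool.Agent.AttrHIF

open Finset Filter
open Nat.Partrec (Code)

theorem countable_computable {α β : Type*} [Primcodable α] [Primcodable β] :
    Set.Countable {f : α → β | Computable f} := by
  have h : ∀ f : α → β, Computable f → ∃ c : Code, ∀ a,
      Code.eval c (Encodable.encode a) = Part.some (Encodable.encode (f a)) := by
    intro f hf
    obtain ⟨c, hc⟩ := Nat.Partrec.Code.exists_code.1 hf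
    refine ⟨c, fun a => ?_⟩
    rw [hc]
    simp only [Encodable.encodek, Part.coe_some, Part.bind_some]
    simp
  choose! c hc using h
  refine Set.MapsTo.countable_of_injOn (f := c) (t := Set.univ) (fun _ _ => Set.mem_univ _) ?_
    Set.countable_univ
  intro f hf g hg hfg
  funext a
  have h1 := hc f hf a
  have h2 := hc g hg a
  rw [hfg, h2] at h1
  have h3 := Part.some_injective h1
  exact (Encodable.encode_injective h3).symm

theorem countable_trace : Countable {S : ℕ → ℕ → ℕ → Bool // IsTrace S} := by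
  have h := countable_computable (α := ℕ × ℕ × ℕ) (β := Bool)
  haveI : Countable {f : ℕ × ℕ × ℕ → Bool | Computable f} := h
  let e : {S : ℕ → ℕ → ℕ → Bool // IsTrace S} → {f : ℕ × ℕ × ℕ → Bool | Computable f} :=
    fun S => ⟨fun x => S.1 x.1 x.2.1 x.2.2, S.2.comp⟩
  refine Function.Injective.countable (f := e) ?_
  intro S S' hS
  apply Subtype.ext
  funext a b c
  have := congrArg (fun (z : {f : ℕ × ℕ × ℕ → Bool | Computable f}) => z.1 (a, b, c)) hS
  exact this

/-- There is a function `f`, bounded by `hb`, avoiding every trace, such that every functional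
is decided at `f`. -/
theorem exists_generic : ∃ f : ℕ → ℕ, (∀ k, f k < hb k) ∧
    (∀ S, IsTrace S → ∀ᶠ k in atTop, ∀ s, S k s (f k) = false) ∧
    (∀ c : Code, (∀ n, ∃ k v, G c (res f k) n = some v) →
      (∃ bd : ℕ → ℕ, Computable bd ∧ ∀ n, ∃ k v, G c (res f k) n = some v ∧ v ≤ bd n) ∧
      (∃ Lb : ℕ → List (List Bool), Computable Lb ∧ ∃ ℓ : ℕ → ℕ,
        (∀ j, ∀ w ∈ Lb j, w.length = ℓ j) ∧ (∀ j, (Lb j).length * 2 ^ j ≤ 2 ^ ℓ j) ∧
        ∀ j, ∃ w ∈ Lb j, ∀ i < w.length, ∃ k v, G c (res f k) i = some v ∧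
            some (!(eqB v 0)) = w[i]?)) := by
  haveI := countable_trace
  let R : {S : ℕ → ℕ → ℕ → Bool // IsTrace S} ⊕ Code → (ℕ → ℕ) → Prop := fun i f =>
    match i with
    | Sum.inl S => ∀ᶠ k in atTop, ∀ s, S.1 k s (f k) = false
    | Sum.inr c => (∀ n, ∃ k v, G c (res f k) n = some v) →
      (∃ bd : ℕ → ℕ, Computable bd ∧ ∀ n, ∃ k v, G c (res f k) n = some v ∧ v ≤ bd n) ∧
      (∃ Lb : ℕ → List (List Bool), Computable Lb ∧ ∃ ℓ : ℕ → ℕ,
        (∀ j, ∀ w ∈ Lb j, w.length = ℓ j) ∧ (∀ j, (Lb j).length * 2 ^ j ≤ 2 ^ ℓ j) ∧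
        ∀ j, ∃ w ∈ Lb j, ∀ i < w.length, ∃ k v, G c (res f k) i = some v ∧
            some (!(eqB v 0)) = w[i]?)
  obtain ⟨f, hf, hR⟩ := generic R (by
    intro i p
    rcases i with S | c
    · exact avoid_trace p S.2
    · obtain ⟨q, hq1, hq2⟩ := decide_functional p (g := G c)
        (G_computable c Computable.fst Computable.snd) (fun σ τ n v h1 h2 => G_mono c h1 n h2)
      refine ⟨q, hq1, ?_⟩
      intro f hf htot
      rcases hq2 with h | ⟨⟨bd, h1, h2⟩, ⟨Lb, h3, ℓ, h4, h5, h6⟩⟩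
      · exfalso
        obtain ⟨n, hn⟩ := h f hf
        obtain ⟨k, v, hv⟩ := htot n
        rw [hn k] at hv
        simp at hv
      · exact ⟨⟨bd, h1, h2 f hf⟩, ⟨Lb, h3, ℓ, h4, h5, h6 f hf⟩⟩) baseCond
  exact ⟨f, fun k => baseCond.paths_lt hf k, fun S hS => hR (Sum.inl ⟨S, hS⟩),
    fun c => hR (Sum.inr c)⟩

end Pool.Agent.AttrHIF
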