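import Pool.Agent.Lib.MP_99e598_lc.Attr
import Pool.Agent.Lib.MP_99e598_lc.Gen

/-! # The main theorem. -/

namespace Pool.Agent.AttrHIF

open Filter Topology MeasureTheory
open Nat.Partrec (Code)

theorem G_unique (c : Code) (f : ℕ → ℕ) {k l n v w : ℕ} (h1 : G c (res f k) n = some v)
    (h2 : G c (res f l) n = some w) : v = w := by
  have h3 := G_mono c (res_pre f (le_max_left k l)) n h1
  have h4 := G_mono c (res_pre f (le_max_right k l)) n h2
  rw [h3] at h4
  exact Option.some.inj h4

/-- If the computed set is not captured on almost all blocks, it is within `1/2 + 1/r` of the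
decoded set. -/
theorem ud_of_not_captured {C : ℕ → List (List Bool)} {f : ℕ → ℕ} {c : Code} {r : ℕ}
    (hr : 0 < r) {X : ℕ → Bool}
    (h : ∀ᶠ k in atTop, ∀ q < p2 (k + 5), ∀ s, Cap C c r k q (f k) (resB X s) = false)
    {B' : ℕ → Bool}
    (hB : ∀ n, ∃ s, G c (res (fun n => (X n).toNat) s) n = some (B' n).toNat) :
    upperDensity (symDiff B' (Yset C f)) ≤ 1 / 2 + 1 / r := by
  obtain ⟨k0, hk0⟩ := eventually_atTop.1 h
  apply density_blocks _ r k0 hr
  intro k hk q hq1 hq2
  choose st hst using hB
  -- a stage at which everything has converged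
  let S := (Finset.range (16 ^ k)).sup (fun t => st (16 ^ k * q + t))
  have hS : ∀ t < bl k, GB c (resB X S) (bl k * q + t) = some (B' (16 ^ k * q + t)).toNat := by
    intro t ht
    have h1 : st (16 ^ k * q + t) ≤ S :=
      Finset.le_sup (f := fun t => st (16 ^ k * q + t)) (Finset.mem_range.2 ht)
    have h2 := G_mono c (res_pre (fun n => (X n).toNat) h1) _ (hst (16 ^ k * q + t))
    unfold GB
    rw [resB_map]
    exact h2
  have hcap := hk0 k hk q hq2 S
  have htot : blockTot c k q (resB X S) = true := by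
    unfold blockTot
    rw [List.all_eq_true]
    intro t ht
    rw [hS t (List.mem_range.1 ht)]
    rfl
  unfold Cap at hcap
  rw [htot, Bool.true_and, decide_eq_false_iff_not, not_lt] at hcap
  have hdis : dis C c k q (f k) (resB X S) = (symDiff B' (Yset C f) ∩
      Set.Ico (16 ^ k * q) (16 ^ k * q + 16 ^ k)).ncard := by
    unfold dis
    rw [← List.toFinset_card_of_nodup ((List.nodup_range).filter _)]
    have himg : (symDiff B' (Yset C f) ∩ Set.Ico (16 ^ k * q) (16 ^ k * q + 16 ^ k)) =
        (fun t => 16 ^ k * q + t) '' ((((List.range (bl k)).filter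
          (fun t => !(eqB (bitO (GB c (resB X S) (bl k * q + t))) (cw (C k) (f k) t)))).toFinset :
            Finset ℕ) : Set ℕ) := by
      ext n
      simp only [Set.mem_inter_iff, Set.mem_Ico, Set.mem_image, Finset.mem_coe, List.mem_toFinset,
        List.mem_filter, List.mem_range]
      have key : ∀ t < bl k, ((!(eqB (bitO (GB c (resB X S) (bl k * q + t))) (cw (C k) (f k) t)))
          = true ↔ 16 ^ k * q + t ∈ symDiff B' (Yset C f)) := by
        intro t ht
        rw [hS t ht]
        have h1 : bitO (some (B' (16 ^ k * q + t)).toNat) = B' (16 ^ k * q + t) := by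
          cases B' (16 ^ k * q + t) <;> rfl
        have h2 : Yset C f (16 ^ k * q + t) = cw (C k) (f k) t := by
          unfold Yset
          rw [log32 hq1 hq2 ht]
          unfold bl
          rw [Nat.mul_add_mod, Nat.mod_eq_of_lt (show t < 16 ^ k from ht)]
        rw [h1]
        simp only [symDiff, Set.mem_ofPred_eq, h2, Bool.not_eq_true', ne_eq]
        rw [← Bool.not_eq_true, eqB_iff]
      constructor
      · rintro ⟨h1, h2, h3⟩
        have ht : n - 16 ^ k * q < bl k := by unfold bl; omega
        refine ⟨n - 16 ^ k * q, ⟨ht, (key _ ht).2 ?_⟩, by omega⟩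
        have e : 16 ^ k * q + (n - 16 ^ k * q) = n := by omega
        rw [e]; exact h1
      · rintro ⟨t, ⟨ht, h1⟩, rfl⟩
        refine ⟨(key t ht).1 h1, by omega, ?_⟩
        unfold bl at ht
        omega
    rw [himg, Set.ncard_image_of_injective _ (fun a b hab => by simpa using hab),
      Set.ncard_coe_finset]
  rw [← hdis]
  exact hcap

theorem log32_computable : Computable (fun n : ℕ => Nat.log 32 n) := by
  have hP : ComputablePred (fun p : ℕ × ℕ => p.1 < 32 ^ (p.2 + 1)) := by
    apply Computable.computablePred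
    fun_prop
  have hex : ∀ n : ℕ, ∃ k, n < 32 ^ (k + 1) := by
    intro n
    exact ⟨n, lt_of_lt_of_le (Nat.lt_pow_self (by norm_num))
      (Nat.pow_le_pow_right (by norm_num) (by omega))⟩
  have h := Computable.find (P := fun n k => n < 32 ^ (k + 1)) hP hex
  refine h.of_eq (fun n => ?_)
  rw [Nat.find_eq_iff]
  constructor
  · exact Nat.lt_pow_succ_log_self (by norm_num) n
  · intro m hm
    rw [not_lt]
    rcases Nat.eq_zero_or_pos n with rfl | hn
    · simp at hm
    · exact (Nat.pow_le_pow_right (by norm_num) hm).trans (Nat.pow_log_le_self 32 (by omega))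

@[fun_prop] theorem fp_log32 {α : Type*} [Primcodable α] {f : α → ℕ} (hf : Computable f) :
    Computable (fun a => Nat.log 32 (f a)) := log32_computable.comp hf

theorem Yset_le {C : ℕ → List (List Bool)} (hC : Computable C) (f : ℕ → ℕ) :
    TuringReducible (charFn (Yset C f)) (charFn (graphSet f)) := by
  rw [turing_charFn]
  have h1 : CI {charFn (graphSet f)} (fun n => f (Nat.log 32 n)) :=
    (le_graphSet f).comp (CI.of_computable log32_computable)
  have h2 : CI {charFn (graphSet f)} (fun n => n) := CI.of_computable (by fun_prop)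
  exact h2.comp₂ h1
    (h := fun n v => (cw (C (Nat.log 32 n)) v (n % bl (Nat.log 32 n))).toNat) (by fun_prop)

/-- only countably many sets are Turing equivalent to the graph of `f` -/
theorem countable_degree (f : ℕ → ℕ) :
    {A' : ℕ → Bool | degreeOf A' = degreeOf (graphSet f)}.Countable := by
  have h : ∀ A' : ℕ → Bool, degreeOf A' = degreeOf (graphSet f) →
      ∃ c : Code, ∀ n, ∃ k, G c (res f k) n = some (A' n).toNat := by
    intro A' hA'
    apply exists_code_graph f (fun n => (A' n).toNat)
    exact ((degreeOf_eq_iff _ _).1 hA').1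
  choose! c hc using h
  refine Set.MapsTo.countable_of_injOn (f := c) (t := Set.univ) (fun _ _ => Set.mem_univ _) ?_
    Set.countable_univ
  intro A' hA' A'' hA'' heq
  funext n
  obtain ⟨k, hk⟩ := hc A' hA' n
  obtain ⟨l, hl⟩ := hc A'' hA'' n
  rw [heq] at hk
  have := G_unique _ f hk hl
  revert this
  cases A' n <;> cases A'' n <;> simp

/-- A function avoiding every trace is attractive. -/
theorem attractive_graph {f : ℕ → ℕ}
    (hf : ∀ S, IsTrace S → ∀ᶠ k in atTop, ∀ s, S k s (f k) = false) :
    Attractive (graphSet f) := by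
  obtain ⟨C, hCc, hC⟩ := exists_codeF
  unfold Attractive
  have h1 : ∀ᵐ X ∂coin, ∀ c : Code, ∀ r : ℕ, ∀ᶠ k in atTop, ∀ q < p2 (k + 5), ∀ s,
      Cap C c (r + 1) k q (f k) (resB X s) = false := by
    rw [ae_all_iff]
    intro c
    rw [ae_all_iff]
    intro r
    exact ae_not_captured c (r + 1) (hf _ (isTrace_St hCc hC c (Nat.succ_pos r)))
  have h2 : ∀ᵐ X ∂coin, ∀ A' ∈ {A' : ℕ → Bool | degreeOf A' = degreeOf (graphSet f)},
      Tendsto (density (symDiff X A')) atTop (𝓝 (1 / 2)) :=
    (ae_ball_iff (countable_degree f)).2 (fun A' _ => slln A')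
  filter_upwards [h1, h2] with X hX1 hX2
  apply H_eq_half
  · intro A' hA'
    exact upperDensity_eq_of_tendsto (hX2 A' hA')
  · intro B' hB' ε hε
    have hred : CI {charFn X} (fun n => (B' n).toNat) := by
      rw [← turing_charFn]
      exact ((degreeOf_eq_iff _ _).1 hB').1
    obtain ⟨c, hc⟩ := exists_code (fun n => (X n).toNat) (fun n => (B' n).toNat) hred
    obtain ⟨r, hr⟩ := exists_nat_one_div_lt hε
    refine ⟨codeIn (graphSet f) (Yset C f), codeIn_equiv _ _ (Yset_le hCc f), ?_⟩
    have h3 := ud_of_not_captured (Nat.succ_pos r) (hX1 c r) hc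
    have h4 := ud_triangle B' (Yset C f) (codeIn (graphSet f) (Yset C f))
    rw [codeIn_density] at h4
    push_cast at h3
    linarith

/-- There is an attractive set of hyperimmune-free degree computing no `1`-random set. -/
theorem main : ∃ A : ℕ → Bool, Attractive A ∧ HyperimmuneFree A ∧
    ∀ R : ℕ → Bool, TuringReducible (charFn R) (charFn A) → ¬ OneRandom R := by
  obtain ⟨f, -, hf, hdec⟩ := exists_generic
  refine ⟨graphSet f, attractive_graph hf, ?_, ?_⟩
  · intro g hg
    obtain ⟨c, hc⟩ := exists_code_graph f g hg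
    obtain ⟨⟨bd, h1, h2⟩, -⟩ := hdec c (fun n => by
      obtain ⟨k, hk⟩ := hc n
      exact ⟨k, _, hk⟩)
    refine ⟨bd, h1, fun n => ?_⟩
    obtain ⟨k, v, hv, hle⟩ := h2 n
    obtain ⟨l, hl⟩ := hc n
    rw [G_unique c f hl hv]
    exact hle
  · intro R hR
    obtain ⟨c, hc⟩ := exists_code_graph f (fun n => (R n).toNat) hR
    obtain ⟨-, ⟨Lb, h1, ℓ, h2, h3, h4⟩⟩ := hdec c (fun n => by
      obtain ⟨k, hk⟩ := hc n
      exact ⟨k, _, hk⟩)
    refine not_oneRandom R Lb h1 ℓ h2 h3 (fun j => ?_)
    obtain ⟨w, hw1, hw2⟩ := h4 j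
    refine ⟨w, hw1, fun i hi => ?_⟩
    obtain ⟨k, v, hv, hvw⟩ := hw2 i hi
    obtain ⟨l, hl⟩ := hc i
    have := G_unique c f hl hv
    rw [← hvw, ← this]
    cases R i <;> rfl

end Pool.Agent.AttrHIF
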