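import Pool.Agent.Lib.MP_99e598_lc.Comp

/-! # Turing functionals as computable monotone maps on finite strings (use principle). -/

namespace Pool.Agent.AttrHIF

open Filter
open Nat.Partrec (Code)

/-- The initial segment of length `k` of `f`. -/
def res (f : ℕ → ℕ) (k : ℕ) : List ℕ := (List.range k).map f

@[simp] theorem res_length (f : ℕ → ℕ) (k : ℕ) : (res f k).length = k := by simp [res]

@[simp] theorem res_zero (f : ℕ → ℕ) : res f 0 = [] := rfl

theorem res_succ (f : ℕ → ℕ) (k : ℕ) : res f (k + 1) = res f k ++ [f k] := by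
  simp [res, List.range_succ]

theorem res_getElem? (f : ℕ → ℕ) (k n : ℕ) (h : n < k) : (res f k)[n]? = some (f n) := by
  simp [res, h]

theorem res_take (f : ℕ → ℕ) (j k : ℕ) (h : j ≤ k) : (res f k).take j = res f j := by
  rw [res, ← List.map_take, List.take_range, min_eq_left h, res]

theorem res_pre (f : ℕ → ℕ) {j k : ℕ} (h : j ≤ k) : res f j <+: res f k := by
  rw [← res_take f j k h]; exact List.take_prefix _ _

theorem res_congr {f g : ℕ → ℕ} {k : ℕ} (h : ∀ i < k, f i = g i) : res f k = res g k := by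
  simp only [res]
  apply List.map_congr_left
  intro i hi
  exact h i (by simpa using hi)

/-- `p` represents the partial function `g` relative to the oracle `f`. -/
structure Rep (f : ℕ → ℕ) (g : ℕ → Part ℕ) (p : List ℕ → ℕ → Part ℕ) : Prop where
  part : Partrec (fun x : List ℕ × ℕ => p x.1 x.2)
  mono : ∀ σ τ n v, σ <+: τ → v ∈ p σ n → v ∈ p τ n
  lim : ∀ n v, v ∈ g n → ∀ᶠ k in atTop, v ∈ p (res f k) n
  sound : ∀ k n v, v ∈ p (res f k) n → v ∈ g n

theorem exists_rep (f : ℕ → ℕ) (g : ℕ →. ℕ) (h : Nat.RecursiveIn {(f : ℕ →. ℕ)} g) :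
    ∃ p, Rep f g p := by
  induction h with
  | zero =>
    refine ⟨fun _ _ => Part.some 0, ?_, ?_, ?_, ?_⟩
    · exact (Computable.const 0).partrec
    · intro _ _ _ _ _ h; exact h
    · intro n v hv; exact Eventually.of_forall fun k => hv
    · intro k n v hv; exact hv
  | succ =>
    refine ⟨fun _ n => Part.some (Nat.succ n), ?_, ?_, ?_, ?_⟩
    · exact (Computable.succ.comp Computable.snd).partrec
    · intro _ _ _ _ _ h; exact h
    · intro n v hv; exact Eventually.of_forall fun k => hv
    · intro k n v hv; exact hv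
  | left =>
    refine ⟨fun _ n => Part.some (Nat.unpair n).1, ?_, ?_, ?_, ?_⟩
    · exact (Computable.fst.comp (Computable.unpair.comp Computable.snd)).partrec
    · intro _ _ _ _ _ h; exact h
    · intro n v hv; exact Eventually.of_forall fun k => hv
    · intro k n v hv; exact hv
  | right =>
    refine ⟨fun _ n => Part.some (Nat.unpair n).2, ?_, ?_, ?_, ?_⟩
    · exact (Computable.snd.comp (Computable.unpair.comp Computable.snd)).partrec
    · intro _ _ _ _ _ h; exact h
    · intro n v hv; exact Eventually.of_forall fun k => hv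
    · intro k n v hv; exact hv
  | oracle g hg =>
    rw [Set.mem_singleton_iff] at hg
    subst hg
    refine ⟨fun σ n => Part.ofOption (σ[n]?), ?_, ?_, ?_, ?_⟩
    · have : Computable (fun p : List ℕ × ℕ => p.1[p.2]?) := by fun_prop
      exact this.ofOption
    · intro σ τ n v hst hv
      rw [Part.mem_ofOption] at hv ⊢
      obtain ⟨ρ, rfl⟩ := hst
      have hn : n < σ.length := (List.getElem?_eq_some_iff.1 hv).1
      rw [List.getElem?_append_left hn]
      exact hv
    · intro n v hv
      refine eventually_atTop.2 ⟨n + 1, fun k hk => ?_⟩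
      rw [Part.mem_ofOption, res_getElem? f k n (by omega)]
      have : v = f n := by simpa using hv
      simp [this]
    · intro k n v hv
      rw [Part.mem_ofOption] at hv
      have hn : n < k := by simpa using (List.getElem?_eq_some_iff.1 hv).1
      rw [res_getElem? f k n hn] at hv
      have : f n = v := by simpa using hv
      simp [this]
  | @pair g h _ _ ihg ihh =>
    obtain ⟨p, hp⟩ := ihg
    obtain ⟨q, hq⟩ := ihh
    refine ⟨fun σ n => (p σ n).bind fun a => (q σ n).map fun b => Nat.pair a b, ?_, ?_, ?_, ?_⟩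
    · refine Partrec.bind (g := fun (x : List ℕ × ℕ) (a : ℕ) =>
        (q x.1 x.2).map fun b => Nat.pair a b) hp.part ?_
      refine Partrec.map (f := fun (x : (List ℕ × ℕ) × ℕ) => q x.1.1 x.1.2)
        (g := fun (x : (List ℕ × ℕ) × ℕ) (b : ℕ) => Nat.pair x.2 b) ?_ ?_
      · exact Partrec.comp hq.part Computable.fst
      · exact (by fun_prop : Computable (fun x : ((List ℕ × ℕ) × ℕ) × ℕ => Nat.pair x.1.2 x.2))
    · intro σ τ n v hst hv
      simp only [Part.mem_bind_iff, Part.mem_map_iff] at hv ⊢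
      obtain ⟨a, ha, b, hb, rfl⟩ := hv
      exact ⟨a, hp.mono _ _ _ _ hst ha, b, hq.mono _ _ _ _ hst hb, rfl⟩
    · intro n v hv
      simp only [Part.map_eq_map, seq_eq_bind_map, Part.bind_eq_bind, Part.mem_bind_iff,
        Part.mem_map_iff] at hv
      obtain ⟨g', ⟨a, ha, rfl⟩, b, hb, rfl⟩ := hv
      filter_upwards [hp.lim n a ha, hq.lim n b hb] with k h1 h2
      simp only [Part.mem_bind_iff, Part.mem_map_iff]
      exact ⟨a, h1, b, h2, rfl⟩
    · intro k n v hv
      simp only [Part.mem_bind_iff, Part.mem_map_iff] at hv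
      obtain ⟨a, ha, b, hb, rfl⟩ := hv
      simp only [Part.map_eq_map, seq_eq_bind_map, Part.bind_eq_bind, Part.mem_bind_iff,
        Part.mem_map_iff]
      exact ⟨_, ⟨a, hp.sound _ _ _ ha, rfl⟩, b, hq.sound _ _ _ hb, rfl⟩
  | @comp g h _ _ ihg ihh =>
    obtain ⟨p, hp⟩ := ihg
    obtain ⟨q, hq⟩ := ihh
    refine ⟨fun σ n => (q σ n).bind fun a => p σ a, ?_, ?_, ?_, ?_⟩
    · refine Partrec.bind (g := fun (x : List ℕ × ℕ) (a : ℕ) => p x.1 a) hq.part ?_
      exact Partrec.comp hp.part (by fun_prop :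
        Computable (fun x : (List ℕ × ℕ) × ℕ => (x.1.1, x.2)))
    · intro σ τ n v hst hv
      rw [Part.mem_bind_iff] at hv ⊢
      obtain ⟨a, ha, hb⟩ := hv
      exact ⟨a, hq.mono _ _ _ _ hst ha, hp.mono _ _ _ _ hst hb⟩
    · intro n v hv
      obtain ⟨a, ha, hb⟩ := Part.mem_bind_iff.1 hv
      filter_upwards [hq.lim n a ha, hp.lim a v hb] with k h1 h2
      rw [Part.mem_bind_iff]
      exact ⟨a, h1, h2⟩
    · intro k n v hv
      rw [Part.mem_bind_iff] at hv
      obtain ⟨a, ha, hb⟩ := hv
      exact Part.mem_bind_iff.2 ⟨_, hq.sound _ _ _ ha, hp.sound _ _ _ hb⟩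
  | @prec g h _ _ ihg ihh =>
    obtain ⟨p, hp⟩ := ihg
    obtain ⟨q, hq⟩ := ihh
    refine ⟨fun σ x => Nat.rec (motive := fun _ => Part ℕ) (p σ (Nat.unpair x).1)
      (fun y IH => IH.bind fun i => q σ (Nat.pair (Nat.unpair x).1 (Nat.pair y i)))
      (Nat.unpair x).2, ?_, ?_, ?_, ?_⟩
    · refine Partrec.nat_rec (f := fun x : List ℕ × ℕ => (Nat.unpair x.2).2)
        (g := fun x : List ℕ × ℕ => p x.1 (Nat.unpair x.2).1)
        (h := fun (x : List ℕ × ℕ) (yi : ℕ × ℕ) =>
          q x.1 (Nat.pair (Nat.unpair x.2).1 (Nat.pair yi.1 yi.2))) (by fun_prop) ?_ ?_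
      · exact Partrec.comp hp.part (by fun_prop :
          Computable (fun x : List ℕ × ℕ => (x.1, (Nat.unpair x.2).1)))
      · exact Partrec.comp hq.part (by fun_prop :
          Computable (fun x : (List ℕ × ℕ) × (ℕ × ℕ) =>
            (x.1.1, Nat.pair (Nat.unpair x.1.2).1 (Nat.pair x.2.1 x.2.2))))
    · intro σ τ x v hst
      generalize (Nat.unpair x).2 = m
      revert v
      induction m with
      | zero => intro v hv; exact hp.mono _ _ _ _ hst hv
      | succ m ih =>
        intro v hv
        simp only [Part.mem_bind_iff] at hv ⊢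
        obtain ⟨i, hi, hv⟩ := hv
        exact ⟨i, ih i hi, hq.mono _ _ _ _ hst hv⟩
    · intro x v
      show v ∈ (Nat.rec (motive := fun _ => Part ℕ) (g (Nat.unpair x).1)
        (fun y IH => IH.bind fun i => h (Nat.pair (Nat.unpair x).1 (Nat.pair y i)))
        (Nat.unpair x).2) → _
      generalize (Nat.unpair x).2 = m
      revert v
      induction m with
      | zero => intro v hv; exact hp.lim _ _ hv
      | succ m ih =>
        intro v hv
        simp only [Part.mem_bind_iff] at hv ⊢
        obtain ⟨i, hi, hv⟩ := hv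
        filter_upwards [ih i hi, hq.lim _ _ hv] with k h1 h2
        exact ⟨i, h1, h2⟩
    · intro k x v
      show _ → v ∈ (Nat.rec (motive := fun _ => Part ℕ) (g (Nat.unpair x).1)
        (fun y IH => IH.bind fun i => h (Nat.pair (Nat.unpair x).1 (Nat.pair y i)))
        (Nat.unpair x).2)
      generalize (Nat.unpair x).2 = m
      revert v
      induction m with
      | zero => intro v hv; exact hp.sound _ _ _ hv
      | succ m ih =>
        intro v hv
        simp only [Part.mem_bind_iff] at hv ⊢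
        obtain ⟨i, hi, hv⟩ := hv
        exact ⟨i, ih i hi, hq.sound _ _ _ hv⟩
  | @rfind g _ ihg =>
    obtain ⟨p, hp⟩ := ihg
    have key : ∀ (r : ℕ → Part ℕ) (a v : ℕ),
        v ∈ Nat.rfind (fun n => (r (Nat.pair a n)).map (fun m => decide (m = 0))) ↔
        (0 ∈ r (Nat.pair a v) ∧ ∀ j < v, ∃ m ∈ r (Nat.pair a j), m ≠ 0) := by
      intro r a v
      constructor
      · intro h
        obtain ⟨h1, h2⟩ := Nat.mem_rfind.1 h
        obtain ⟨m, hm, hm0⟩ := (Part.mem_map_iff _).1 h1
        have hm1 : m = 0 := by simpa using hm0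
        subst hm1
        refine ⟨hm, fun j hj => ?_⟩
        obtain ⟨m', hm', hm0'⟩ := (Part.mem_map_iff _).1 (h2 hj)
        exact ⟨m', hm', by simpa using hm0'⟩
      · rintro ⟨hm, h⟩
        refine Nat.mem_rfind.2 ⟨(Part.mem_map_iff _).2 ⟨0, hm, by simp⟩, ?_⟩
        intro j hj
        obtain ⟨m', hm', hm0'⟩ := h j hj
        exact (Part.mem_map_iff _).2 ⟨m', hm', by simpa using hm0'⟩
    refine ⟨fun σ a => Nat.rfind fun n => (p σ (Nat.pair a n)).map (fun m => decide (m = 0)),
      ?_, ?_, ?_, ?_⟩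
    · refine Partrec.rfind (p := fun (x : List ℕ × ℕ) (n : ℕ) =>
        (p x.1 (Nat.pair x.2 n)).map (fun m => decide (m = 0))) ?_
      refine Partrec.map (f := fun (x : (List ℕ × ℕ) × ℕ) => p x.1.1 (Nat.pair x.1.2 x.2))
        (g := fun (x : (List ℕ × ℕ) × ℕ) (m : ℕ) => decide (m = 0)) ?_ ?_
      · exact Partrec.comp hp.part (by fun_prop :
          Computable (fun x : (List ℕ × ℕ) × ℕ => (x.1.1, Nat.pair x.1.2 x.2)))
      · exact ((Primrec.eq (α := ℕ)).decide.to_comp).comp Computable.snd (Computable.const 0)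
    · intro σ τ a v hst hv
      rw [key] at hv ⊢
      obtain ⟨hm, hlt⟩ := hv
      refine ⟨hp.mono _ _ _ _ hst hm, ?_⟩
      intro j hj
      obtain ⟨m', hm', hm0'⟩ := hlt j hj
      exact ⟨m', hp.mono _ _ _ _ hst hm', hm0'⟩
    · intro a v hv
      obtain ⟨hm, hlt⟩ := (key g a v).1 hv
      have h2 : ∀ᶠ k in atTop, ∀ j ∈ Set.Iio v, ∃ b ∈ p (res f k) (Nat.pair a j), b ≠ 0 := by
        rw [eventually_all_finite (Set.finite_Iio v)]
        intro j hj
        obtain ⟨m', hm', hm0'⟩ := hlt j hj
        filter_upwards [hp.lim _ _ hm'] with k hk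
        exact ⟨m', hk, hm0'⟩
      filter_upwards [hp.lim _ _ hm, h2] with k h3 h4
      rw [key]
      exact ⟨h3, fun j hj => h4 j hj⟩
    · intro k a v hv
      obtain ⟨hm, hlt⟩ := (key (p (res f k)) a v).1 hv
      refine (key g a v).2 ⟨hp.sound _ _ _ hm, ?_⟩
      intro j hj
      obtain ⟨m', hm', hm0'⟩ := hlt j hj
      exact ⟨m', hp.sound _ _ _ hm', hm0'⟩

/-- Bounded evaluation of a code. -/
def ev (c : Code) (k n : ℕ) : Option ℕ := Code.evaln k c n

/-- Encoding of a finite oracle and an input. -/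
def en (σ : List ℕ) (n : ℕ) : ℕ := Encodable.encode (σ, n)

theorem ev_comp' (c : Code) : Computable (fun q : ℕ × ℕ => ev c q.1 q.2) := by
  have h0 : Computable (fun a : (ℕ × Code) × ℕ => Code.evaln a.1.1 a.1.2 a.2) :=
    (Nat.Partrec.Code.primrec_evaln).to_comp
  exact h0.comp (by fun_prop : Computable (fun q : ℕ × ℕ => ((q.1, c), q.2)))

theorem en_comp' : Computable (fun q : List ℕ × ℕ => en q.1 q.2) := Computable.encode

@[fun_prop] theorem ev_comp {α : Type*} [Primcodable α] (c : Code) {k n : α → ℕ}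
    (hk : Computable k) (hn : Computable n) : Computable (fun a => ev c (k a) (n a)) :=
  (ev_comp' c).comp (fp_pair hk hn)

@[fun_prop] theorem en_comp {α : Type*} [Primcodable α] {k : α → List ℕ} {n : α → ℕ}
    (hk : Computable k) (hn : Computable n) : Computable (fun a => en (k a) (n a)) :=
  en_comp'.comp (fp_pair hk hn)

/-- A single stage of the approximation to the functional with code `c`. -/
def stg (c : Code) (σ : List ℕ) (n t : ℕ) : Option ℕ :=
  ev c t.unpair.2 (en (σ.take t.unpair.1) n)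

@[fun_prop] theorem stg_comp {α : Type*} [Primcodable α] (c : Code) {σ : α → List ℕ} {n t : α → ℕ}
    (hσ : Computable σ) (hn : Computable n) (ht : Computable t) :
    Computable (fun a => stg c (σ a) (n a) (t a)) := by
  unfold stg
  fun_prop

/-- First hit among the stages `< t`. -/
def Gaux (c : Code) (σ : List ℕ) (n t : ℕ) : Option ℕ :=
  Nat.rec (motive := fun _ => Option ℕ) none (fun t IH => IH.or (stg c σ n t)) t

/-- The functional with code `c`, evaluated on finite oracles. -/
def G (c : Code) (σ : List ℕ) (n : ℕ) : Option ℕ := Gaux c σ n (σ.length + 1)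

@[fun_prop] theorem G_computable {α : Type*} [Primcodable α] (c : Code) {σ : α → List ℕ}
    {n : α → ℕ} (hσ : Computable σ) (hn : Computable n) :
    Computable (fun a => G c (σ a) (n a)) := by
  unfold G Gaux
  fun_prop

theorem Gaux_mono_t (c : Code) (σ : List ℕ) (n : ℕ) {t t' : ℕ} (h : t ≤ t') {v : ℕ}
    (hv : Gaux c σ n t = some v) : Gaux c σ n t' = some v := by
  induction t', h using Nat.le_induction with
  | base => exact hv
  | succ m _ ih =>
    show (Gaux c σ n m).or (stg c σ n m) = some v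
    rw [ih]; rfl

theorem Gaux_congr (c : Code) {σ τ : List ℕ} (h : σ <+: τ) (n : ℕ) {t : ℕ}
    (ht : t ≤ σ.length + 1) : Gaux c σ n t = Gaux c τ n t := by
  induction t with
  | zero => rfl
  | succ t ih =>
    show (Gaux c σ n t).or (stg c σ n t) = (Gaux c τ n t).or (stg c τ n t)
    rw [ih (by omega)]
    congr 1
    unfold stg
    obtain ⟨ρ, rfl⟩ := h
    rw [List.take_append_of_le_length]
    exact (Nat.unpair_left_le t).trans (by omega)

theorem G_mono (c : Code) {σ τ : List ℕ} (h : σ <+: τ) (n : ℕ) {v : ℕ}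
    (hv : G c σ n = some v) : G c τ n = some v := by
  unfold G at *
  rw [Gaux_congr c h n le_rfl] at hv
  exact Gaux_mono_t c τ n (by have := h.length_le; omega) hv

theorem Gaux_some (c : Code) (σ : List ℕ) (n : ℕ) {t : ℕ} {v : ℕ}
    (hv : Gaux c σ n t = some v) : ∃ s < t, stg c σ n s = some v := by
  induction t with
  | zero => simp [Gaux] at hv
  | succ t ih =>
    change (Gaux c σ n t).or (stg c σ n t) = some v at hv
    cases h : Gaux c σ n t with
    | none => rw [h] at hv; exact ⟨t, by omega, by simpa using hv⟩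
    | some w =>
      rw [h] at hv
      have : w = v := by simpa using hv
      subst this
      obtain ⟨s, hs, h2⟩ := ih h
      exact ⟨s, by omega, h2⟩

theorem Gaux_hit (c : Code) (σ : List ℕ) (n : ℕ) {t s : ℕ} {v : ℕ} (hs : s < t)
    (hv : stg c σ n s = some v) : ∃ w, Gaux c σ n t = some w := by
  have : ∃ w, Gaux c σ n (s + 1) = some w := by
    cases h : Gaux c σ n s with
    | none => exact ⟨v, by show (Gaux c σ n s).or (stg c σ n s) = some v; rw [h, hv]; rfl⟩
    | some w => exact ⟨w, by show (Gaux c σ n s).or (stg c σ n s) = some w; rw [h]; rfl⟩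
  obtain ⟨w, hw⟩ := this
  exact ⟨w, Gaux_mono_t c σ n hs hw⟩

/-- Every total function computable from `f` is given by some functional. -/
theorem exists_code (f g : ℕ → ℕ) (h : Nat.RecursiveIn {(f : ℕ →. ℕ)} g) :
    ∃ c : Code, ∀ n, ∃ k, G c (res f k) n = some (g n) := by
  obtain ⟨p, hp⟩ := exists_rep f g h
  have hpart : Nat.Partrec fun n => Part.bind (Encodable.decode (α := List ℕ × ℕ) n)
      fun a : List ℕ × ℕ => (p a.1 a.2).map Encodable.encode := hp.part
  obtain ⟨c, hc⟩ := Nat.Partrec.Code.exists_code.1 hpart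
  have hev : ∀ (σ : List ℕ) (n v : ℕ), v ∈ Code.eval c (Encodable.encode (σ, n)) ↔ v ∈ p σ n := by
    intro σ n v
    rw [hc]
    simp only [Encodable.encodek, Part.coe_some, Part.bind_some, Part.mem_map_iff]
    simp
  refine ⟨c, fun n => ?_⟩
  have hlim := hp.lim n (g n) (by simp)
  obtain ⟨k, hk⟩ := hlim.exists
  rw [← hev] at hk
  obtain ⟨s, hs⟩ := Nat.Partrec.Code.evaln_complete.1 hk
  refine ⟨Nat.pair k s, ?_⟩
  set t := Nat.pair k s with ht
  have hkt : k ≤ t := Nat.left_le_pair k s
  have hst : stg c (res f t) n t = some (g n) := by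
    unfold stg
    rw [ht, Nat.unpair_pair]
    simp only
    rw [← ht, res_take f k t hkt]
    exact hs
  obtain ⟨w, hw⟩ := Gaux_hit c (res f t) n (t := (res f t).length + 1) (by simp) hst
  have hG : G c (res f t) n = some w := hw
  rw [hG]
  obtain ⟨s', hs', h'⟩ := Gaux_some c _ n hw
  unfold stg at h'
  rw [res_take f _ t ((Nat.unpair_left_le s').trans (by rw [res_length] at hs'; omega))] at h'
  have h2 : w ∈ Code.eval c (Encodable.encode (res f (Nat.unpair s').1, n)) :=
    Nat.Partrec.Code.evaln_sound h'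
  rw [hev] at h2
  have := hp.sound _ _ _ h2
  simpa using this

end Pool.Agent.AttrHIF
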