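import Pool.Agent.Lib.MP_99e598_lc.Force

/-! # The density lemmas. -/

namespace Pool.Agent.AttrHIF

open Finset Filter

/-! ### numerical facts -/

/-- the reduced exponent -/
def beta' (γ : ℕ → ℕ) (n : ℕ) (k : ℕ) : ℕ := γ k * 2 ^ (k / (4 * (n + 1)))

/-- the enlarged smallness exponent -/
def delta (γ : ℕ → ℕ) (n : ℕ) (k : ℕ) : ℕ := k + ∑ i ∈ range (k + 1), beta' γ n i

/-- the number of bits decided at level `k` -/
def nbits (γ : ℕ → ℕ) (n : ℕ) (k : ℕ) : ℕ := k + ∑ i ∈ range k, beta' γ n i

@[fun_prop] theorem beta'_computable {α : Type*} [Primcodable α] {γ : ℕ → ℕ} (hγ : Computable γ)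
    (n : ℕ) {k : α → ℕ} (hk : Computable k) : Computable (fun a => beta' γ n (k a)) := by
  unfold beta'
  fun_prop

theorem sum_range_list (f : ℕ → ℕ) (k : ℕ) : ∑ i ∈ range k, f i = ((List.range k).map f).sum := by
  induction k with
  | zero => simp
  | succ k ih => rw [sum_range_succ, ih, List.range_succ]; simp

@[fun_prop] theorem delta_computable {α : Type*} [Primcodable α] {γ : ℕ → ℕ} (hγ : Computable γ)
    (n : ℕ) {k : α → ℕ} (hk : Computable k) : Computable (fun a => delta γ n (k a)) := by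
  unfold delta
  simp only [sum_range_list]
  fun_prop

@[fun_prop] theorem nbits_computable {α : Type*} [Primcodable α] {γ : ℕ → ℕ} (hγ : Computable γ)
    (n : ℕ) {k : α → ℕ} (hk : Computable k) : Computable (fun a => nbits γ n (k a)) := by
  unfold nbits
  simp only [sum_range_list]
  fun_prop

theorem beta'_mono {γ : ℕ → ℕ} (hγ : Monotone γ) (n : ℕ) : Monotone (beta' γ n) := by
  intro a b h
  unfold beta'
  exact Nat.mul_le_mul (hγ h) (Nat.pow_le_pow_right (by norm_num) (Nat.div_le_div_right h))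

theorem delta_mono (γ : ℕ → ℕ) (n : ℕ) : Monotone (delta γ n) := by
  intro a b h
  unfold delta
  have : ∑ i ∈ range (a + 1), beta' γ n i ≤ ∑ i ∈ range (b + 1), beta' γ n i :=
    sum_le_sum_of_subset (by intro x; simp; omega)
  omega

theorem gamma_le_beta' (γ : ℕ → ℕ) (n k : ℕ) : γ k ≤ beta' γ n k := by
  unfold beta'
  exact Nat.le_mul_of_pos_right _ (by positivity)

theorem gamma_le_delta (γ : ℕ → ℕ) (n k : ℕ) : γ k ≤ delta γ n k := by
  unfold delta
  rw [sum_range_succ]
  have := gamma_le_beta' γ n k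
  omega

theorem beta'_le_delta (γ : ℕ → ℕ) (n k : ℕ) : beta' γ n k ≤ delta γ n k := by
  unfold delta
  rw [sum_range_succ]
  omega

theorem nbits_add_beta' (γ : ℕ → ℕ) (n : ℕ) {l k : ℕ} (h : l ≤ k) :
    nbits γ n l + beta' γ n k ≤ delta γ n k := by
  unfold nbits delta
  rw [sum_range_succ]
  have : ∑ i ∈ range l, beta' γ n i ≤ ∑ i ∈ range k, beta' γ n i :=
    sum_le_sum_of_subset (by intro x; simp; omega)
  omega

theorem aux_pow (q : ℕ) : (q + 1) ≤ 2 ^ q := Nat.succ_le_of_lt (Nat.lt_two_pow_self)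

theorem four_q_le (n k : ℕ) : 4 * (k / (4 * (n + 1))) ≤ k / (n + 1) := by
  have h : k / (4 * (n + 1)) = k / (n + 1) / 4 := by
    rw [mul_comm, Nat.div_div_eq_div_mul]
  rw [h]
  omega

theorem delta_gap {γ β : ℕ → ℕ} (hγ : Monotone γ) (hpos : ∀ k, 1 ≤ γ k) {n : ℕ}
    (h : ∀ᶠ k in atTop, γ k * 2 ^ (k / (n + 1)) ≤ β k) :
    ∀ᶠ k in atTop, delta γ n k * 2 ^ (k / (4 * (n + 1))) ≤ β k := by
  filter_upwards [h, eventually_ge_atTop (4 * (n + 1) * (8 * (n + 1)))] with k hk hk2
  refine le_trans ?_ hk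
  set q := k / (4 * (n + 1)) with hq
  have hq8 : 8 * (n + 1) ≤ q := by
    rw [hq, Nat.le_div_iff_mul_le (by omega)]
    calc 8 * (n + 1) * (4 * (n + 1)) = 4 * (n + 1) * (8 * (n + 1)) := by ring
      _ ≤ k := hk2
  have hklt : k < 4 * (n + 1) * (q + 1) := by
    rw [hq]
    exact Nat.lt_mul_div_succ k (by omega)
  have h1 : delta γ n k ≤ (2 * k + 1) * (γ k * 2 ^ q) := by
    unfold delta
    have h2 : ∑ i ∈ range (k + 1), beta' γ n i ≤ (k + 1) * (γ k * 2 ^ q) := by
      calc ∑ i ∈ range (k + 1), beta' γ n i ≤ ∑ i ∈ range (k + 1), beta' γ n k := by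
            apply sum_le_sum
            intro i hi
            exact beta'_mono hγ n (by simp at hi; omega)
        _ = (k + 1) * (γ k * 2 ^ q) := by simp [beta', hq]
    have h3 : 1 ≤ γ k * 2 ^ q := Nat.mul_pos (hpos k) (by positivity)
    have h4 : k ≤ k * (γ k * 2 ^ q) := Nat.le_mul_of_pos_right _ h3
    calc k + ∑ i ∈ range (k + 1), beta' γ n i ≤ k * (γ k * 2 ^ q) + (k + 1) * (γ k * 2 ^ q) := by
          omega
      _ = (2 * k + 1) * (γ k * 2 ^ q) := by ring
  have h5 : 2 * k + 1 ≤ 2 ^ q * 2 ^ q := by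
    have h6 := aux_pow q
    calc 2 * k + 1 ≤ 8 * (n + 1) * (q + 1) := by nlinarith
      _ ≤ q * (q + 1) := Nat.mul_le_mul_right _ hq8
      _ ≤ 2 ^ q * 2 ^ q := Nat.mul_le_mul (by omega) h6
  calc delta γ n k * 2 ^ q ≤ (2 * k + 1) * (γ k * 2 ^ q) * 2 ^ q := Nat.mul_le_mul_right _ h1
    _ ≤ (2 ^ q * 2 ^ q) * (γ k * 2 ^ q) * 2 ^ q := by gcongr
    _ = γ k * 2 ^ (4 * q) := by ring
    _ ≤ γ k * 2 ^ (k / (n + 1)) :=
        Nat.mul_le_mul_left _ (Nat.pow_le_pow_right (by norm_num) (four_q_le n k))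

theorem trace_gap {γ β : ℕ → ℕ} (hpos : ∀ k, 1 ≤ γ k) {n : ℕ}
    (h : ∀ᶠ k in atTop, γ k * 2 ^ (k / (n + 1)) ≤ β k) :
    ∀ᶠ k in atTop, (γ k + k ^ 2 + 2) * 2 ^ (k / (4 * (n + 1))) ≤ β k := by
  filter_upwards [h, eventually_ge_atTop (4 * (n + 1) * (19 * (n + 1) ^ 2))] with k hk hk2
  refine le_trans ?_ hk
  set q := k / (4 * (n + 1)) with hq
  have hq8 : 19 * (n + 1) ^ 2 ≤ q := by
    rw [hq, Nat.le_div_iff_mul_le (by omega)]
    calc 19 * (n + 1) ^ 2 * (4 * (n + 1)) = 4 * (n + 1) * (19 * (n + 1) ^ 2) := by ring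
      _ ≤ k := hk2
  have hklt : k < 4 * (n + 1) * (q + 1) := by
    rw [hq]
    exact Nat.lt_mul_div_succ k (by omega)
  have h1 : γ k + k ^ 2 + 2 ≤ (k ^ 2 + 3) * γ k := by
    have := hpos k
    nlinarith
  have h5 : k ^ 2 + 3 ≤ 2 ^ q * 2 ^ q * 2 ^ q := by
    have h6 := aux_pow q
    have h7 : k ^ 2 ≤ (4 * (n + 1) * (q + 1)) ^ 2 := Nat.pow_le_pow_left hklt.le 2
    have h8 : 1 ≤ (n + 1) ^ 2 * (q + 1) ^ 2 := Nat.succ_le_of_lt (by positivity)
    calc k ^ 2 + 3 ≤ (4 * (n + 1) * (q + 1)) ^ 2 + 3 * ((n + 1) ^ 2 * (q + 1) ^ 2) := by omega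
      _ = 19 * (n + 1) ^ 2 * ((q + 1) * (q + 1)) := by ring
      _ ≤ q * ((q + 1) * (q + 1)) := Nat.mul_le_mul_right _ hq8
      _ ≤ 2 ^ q * (2 ^ q * 2 ^ q) := Nat.mul_le_mul (by omega) (Nat.mul_le_mul h6 h6)
      _ = 2 ^ q * 2 ^ q * 2 ^ q := by ring
  calc (γ k + k ^ 2 + 2) * 2 ^ q ≤ (k ^ 2 + 3) * γ k * 2 ^ q := Nat.mul_le_mul_right _ h1
    _ ≤ (2 ^ q * 2 ^ q * 2 ^ q) * γ k * 2 ^ q := by gcongr
    _ = γ k * 2 ^ (4 * q) := by ring
    _ ≤ γ k * 2 ^ (k / (n + 1)) :=
        Nat.mul_le_mul_left _ (Nat.pow_le_pow_right (by norm_num) (four_q_le n k))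

theorem gap_le {γ β : ℕ → ℕ} {n : ℕ}
    (h : ∀ᶠ k in atTop, γ k * 2 ^ (k / n) ≤ β k) : ∀ᶠ k in atTop, γ k ≤ β k := by
  filter_upwards [h] with k hk
  exact (Nat.le_mul_of_pos_right _ (by positivity)).trans hk

/-! ### avoiding traces -/

/-- `S` is a computable increasing approximation to a uniformly c.e. sequence of sets, the
`k`-th of which has at most `2 ^ (k ^ 2)` elements below `hb k`, for almost all `k`. -/
structure IsTrace (S : ℕ → ℕ → ℕ → Bool) : Prop where
  comp : Computable (fun x : ℕ × ℕ × ℕ => S x.1 x.2.1 x.2.2)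
  mono : ∀ k s v, S k s v = true → S k (s + 1) v = true
  bd : ∃ k0, ∀ k ≥ k0, ∀ s, ((range (hb k)).filter (fun v => S k s v = true)).card ≤ 2 ^ (k ^ 2)

theorem IsTrace.mono_le {S : ℕ → ℕ → ℕ → Bool} (hS : IsTrace S) {k s s' v : ℕ} (h : s ≤ s')
    (hv : S k s v = true) : S k s' v = true := by
  induction s', h using Nat.le_induction with
  | base => exact hv
  | succ j _ ih => exact hS.mono _ _ _ ih

open Classical in
theorem IsTrace.bd' {S : ℕ → ℕ → ℕ → Bool} (hS : IsTrace S) : ∃ k0, ∀ k ≥ k0,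
    ((range (hb k)).filter (fun v => ∃ s, S k s v = true)).card ≤ 2 ^ (k ^ 2) := by
  obtain ⟨k0, h⟩ := hS.bd
  refine ⟨k0, fun k hk => ?_⟩
  have h1 : ∀ v ∈ (range (hb k)).filter (fun v => ∃ s, S k s v = true), ∃ s, S k s v = true := by
    intro v hv
    exact (mem_filter.1 hv).2
  choose! f hf using h1
  refine le_trans (card_le_card ?_) (h k hk
    (((range (hb k)).filter (fun v => ∃ s, S k s v = true)).sup f))
  intro v hv
  rw [mem_filter]
  exact ⟨(mem_filter.1 hv).1, hS.mono_le (Finset.le_sup hv) (hf v hv)⟩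

theorem avoid_trace (p : Cond) {S : ℕ → ℕ → ℕ → Bool} (hS : IsTrace S) :
    ∃ q : Cond, q.paths ⊆ p.paths ∧ ∀ f ∈ q.paths, ∀ᶠ k in atTop, ∀ s, S k s (f k) = false := by
  classical
  obtain ⟨n, hn⟩ := p.gap
  have hgap := trace_gap p.γpos hn
  obtain ⟨s1, hs1⟩ := eventually_atTop.1 (gap_le hgap)
  obtain ⟨k0, hk0⟩ := hS.bd'
  obtain ⟨p', hT', hB', hβ', hγ', hlen, hsub⟩ := p.extend (max s1 k0)
  rw [← hγ', ← hβ'] at hs1 hgap
  let E : List ℕ → Bool := fun ρ => (List.range ρ.length).any
    (fun i => decide (p'.σ.length ≤ i) && S i ρ.length (ρ.getD i 0))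
  have hE : ∀ ρ, E ρ = true ↔ ∃ i < ρ.length, p'.σ.length ≤ i ∧
      S i ρ.length (ρ.getD i 0) = true := by
    intro ρ; simp [E]
  have hEup : ∀ ρ c, E ρ = true → E (ρ ++ [c]) = true := by
    intro ρ c h
    rw [hE] at h ⊢
    obtain ⟨i, h1, h2, h3⟩ := h
    refine ⟨i, by simp; omega, h2, ?_⟩
    rw [List.getD_append _ _ _ _ h1]
    have : (ρ ++ [c]).length = ρ.length + 1 := by simp
    rw [this]
    exact hS.mono _ _ _ h3
  have hsmallE : ∀ m ρ, p'.σ.length ≤ ρ.length →
      W p'.T (fun ρ => E ρ = true) (fun k => 2 ^ (k ^ 2) + 1) m ρ →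
      ∃ i < ρ.length, p'.σ.length ≤ i ∧ ∃ s, S i s (ρ.getD i 0) = true := by
    intro m
    induction m with
    | zero =>
      intro ρ _ h
      rw [W_zero, hE] at h
      obtain ⟨i, h1, h2, h3⟩ := h
      exact ⟨i, h1, h2, _, h3⟩
    | succ m ih =>
      intro ρ hl h
      rw [W_succ] at h
      by_contra hcon
      have hsub2 : kids p'.T (W p'.T (fun ρ => E ρ = true) (fun k => 2 ^ (k ^ 2) + 1) m) ρ ⊆
          (range (hb ρ.length)).filter (fun v => ∃ s, S ρ.length s v = true) := by
        intro c hc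
        rw [mem_kids] at hc
        obtain ⟨i, h1, h2, s, h3⟩ := ih (ρ ++ [c]) (by simp; omega) hc.2.2
        rw [mem_filter, mem_range]
        refine ⟨hc.1, ?_⟩
        by_cases hi : i < ρ.length
        · exfalso
          rw [List.getD_append _ _ _ _ hi] at h3
          exact hcon ⟨i, hi, h2, s, h3⟩
        · have hi2 : i = ρ.length := by simp at h1; omega
          subst hi2
          have e7 : (ρ ++ [c]).getD ρ.length 0 = c := by simp [List.getD]
          rw [e7] at h3
          exact ⟨s, h3⟩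
      have h5 := card_le_card hsub2
      have h6 := hk0 ρ.length (by omega)
      omega
  have hγc : Computable p'.γ := p'.cγ
  have hBc : Computable p'.B := p'.cB
  have hSc := hS.comp
  refine ⟨{ p' with
    B := fun ρ => p'.B ρ || E ρ
    γ := fun k => p'.γ k + k ^ 2 + 2
    cB := ?_
    cγ := ?_
    Bup := ?_
    small := ?_
    γmono := ?_
    γpos := ?_
    le := ?_
    gap := ⟨4 * (n + 1) - 1, ?_⟩ }, ?_, ?_⟩
  · simp only [E]
    have h1 : Computable (fun x : List ℕ × ℕ => S x.2 x.1.length (x.1.getD x.2 0)) :=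
      hSc.comp (by fun_prop : Computable (fun x : List ℕ × ℕ =>
        (x.2, x.1.length, x.1.getD x.2 0)))
    fun_prop
  · fun_prop
  · intro ρ c h
    simp only [Bool.or_eq_true] at h ⊢
    rcases h with h | h
    · exact Or.inl (p'.Bup _ _ h)
    · exact Or.inr (hEup _ _ h)
  · rintro ⟨m, hm⟩
    have h1 : W p'.T (fun ρ => p'.B ρ = true ∨ E ρ = true)
        (fun k => 2 ^ p'.γ k + (2 ^ (k ^ 2) + 1)) m p'.σ := by
      have h2 : W p'.T (fun ρ => p'.B ρ = true ∨ E ρ = true)
        (fun k => 2 ^ (p'.γ k + k ^ 2 + 2)) m p'.σ :=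
        W_mono_D (by intro ρ h; simpa using h) hm
      refine W_anti_d ?_ h2
      intro k _
      have e1 : 2 ^ (p'.γ k + k ^ 2 + 2) = 4 * (2 ^ p'.γ k * 2 ^ (k ^ 2)) := by ring
      rw [e1]
      have e2 : 1 ≤ 2 ^ p'.γ k := Nat.one_le_two_pow
      have e3 : 1 ≤ 2 ^ (k ^ 2) := Nat.one_le_two_pow
      nlinarith
    rcases W_union h1 with h2 | h2
    · exact p'.small ⟨m, h2⟩
    · obtain ⟨i, hi1, hi2, _⟩ := hsmallE m p'.σ le_rfl h2
      omega
  · intro a b hab
    have h1 := p'.γmono hab
    have h2 : a ^ 2 ≤ b ^ 2 := Nat.pow_le_pow_left hab 2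
    simp only
    omega
  · intro k
    show 1 ≤ p'.γ k + k ^ 2 + 2
    omega
  · intro k hk
    exact hs1 k (by omega)
  · have : 4 * (n + 1) - 1 + 1 = 4 * (n + 1) := by omega
    rw [this]
    exact hgap
  · intro f hf
    apply hsub
    refine ⟨hf.1, ?_, hf.2.2⟩
    intro k
    have := hf.2.1 k
    simp only [Bool.or_eq_false_iff] at this
    exact this.1
  · intro f hf
    refine eventually_atTop.2 ⟨p'.σ.length, fun k hk s => ?_⟩
    by_contra hcon
    rw [Bool.not_eq_false] at hcon
    have h1 := hf.2.1 (max (k + 1) s)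
    simp only [Bool.or_eq_false_iff] at h1
    have h2 : E (res f (max (k + 1) s)) = true := by
      rw [hE]
      refine ⟨k, by simp, hk, ?_⟩
      have e1 : (res f (max (k + 1) s)).getD k 0 = f k := by
        rw [List.getD, res_getElem? f _ k (by simp)]
        rfl
      rw [e1, res_length]
      exact hS.mono_le (le_max_right _ _) hcon
    rw [h2] at h1
    simp at h1

/-! ### deciding a functional -/

theorem words_length (n : ℕ) : (words n).length = 2 ^ n := by
  induction n with
  | zero => rfl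
  | succ n ih =>
    change ((words n).flatMap (fun w => [false :: w, true :: w])).length = _
    rw [List.length_flatMap]
    simp [ih, pow_succ]

/-- the requirement attached to a functional `g` -/
def Decided (g : List ℕ → ℕ → Option ℕ) (P : Set (ℕ → ℕ)) : Prop :=
  (∀ f ∈ P, ∃ n, ∀ k, g (res f k) n = none) ∨
  ((∃ bd : ℕ → ℕ, Computable bd ∧ ∀ f ∈ P, ∀ n, ∃ k v, g (res f k) n = some v ∧ v ≤ bd n) ∧
   (∃ Lb : ℕ → List (List Bool), Computable Lb ∧ ∃ ℓ : ℕ → ℕ,
        (∀ j, ∀ w ∈ Lb j, w.length = ℓ j) ∧ (∀ j, (Lb j).length * 2 ^ j ≤ 2 ^ ℓ j) ∧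
        ∀ f ∈ P, ∀ j, ∃ w ∈ Lb j, ∀ i < w.length, ∃ k v, g (res f k) i = some v ∧
            some (!(eqB v 0)) = w[i]?))

theorem decide_functional (p : Cond) {g : List ℕ → ℕ → Option ℕ}
    (hg : Computable (fun x : List ℕ × ℕ => g x.1 x.2))
    (gmono : ∀ σ τ n v, σ <+: τ → g σ n = some v → g τ n = some v) :
    ∃ q : Cond, q.paths ⊆ p.paths ∧ Decided g q.paths := by
  classical
  obtain ⟨n, hn⟩ := p.gap
  have hgap := delta_gap p.γmono p.γpos hn
  obtain ⟨s1, hs1⟩ := eventually_atTop.1 (gap_le hgap)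
  obtain ⟨p', hT', hB', hβ', hγ', hlen, hsub⟩ := p.extend s1
  rw [← hγ', ← hβ'] at hs1 hgap
  have hγc : Computable p'.γ := p'.cγ
  have hBc : Computable p'.B := p'.cB
  have hTc : Computable p'.T := p'.cT
  by_cases hC : ∃ ρ m, p'.T ρ = true ∧ p'.σ <+: ρ ∧
      ¬ Big p'.T (fun τ => (p'.B τ || (List.range m).all (fun i => (g τ i).isSome)) = true)
        (fun k => 2 ^ delta p'.γ n k) ρ
  · obtain ⟨ρ, m, hρ1, hρ2, hρ3⟩ := hC
    have hup : ∀ τ c, ((List.range m).all (fun i => (g τ i).isSome)) = true →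
        ((List.range m).all (fun i => (g (τ ++ [c]) i).isSome)) = true := by
      intro τ c h
      simp only [List.all_eq_true, List.mem_range] at h ⊢
      intro i hi
      have h1 := h i hi
      rw [Option.isSome_iff_exists] at h1 ⊢
      obtain ⟨v, hv⟩ := h1
      exact ⟨v, gmono _ _ _ _ (List.prefix_append _ _) hv⟩
    refine ⟨{ p' with
      σ := ρ
      B := fun τ => p'.B τ || (List.range m).all (fun i => (g τ i).isSome)
      γ := delta p'.γ n
      cB := by fun_prop
      cγ := by fun_prop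
      Tσ := hρ1
      Bup := ?_
      br := fun τ h1 h2 => p'.br τ h1 (hρ2.trans h2)
      small := hρ3
      γmono := delta_mono _ _
      γpos := fun k => (p'.γpos k).trans (gamma_le_delta _ _ _)
      le := ?_
      gap := ⟨4 * (n + 1) - 1, ?_⟩ }, ?_, Or.inl ?_⟩
    · intro τ c h
      simp only [Bool.or_eq_true] at h ⊢
      rcases h with h | h
      · exact Or.inl (p'.Bup _ _ h)
      · exact Or.inr (hup _ _ h)
    · intro k hk
      have := hρ2.length_le
      exact hs1 k (by omega)
    · have : 4 * (n + 1) - 1 + 1 = 4 * (n + 1) := by omega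
      rw [this]
      exact hgap
    · intro f hf
      apply hsub
      refine ⟨hf.1, ?_, ?_⟩
      · intro k
        have := hf.2.1 k
        simp only [Bool.or_eq_false_iff] at this
        exact this.1
      · have h4 : res f ρ.length = ρ := hf.2.2
        have h5 : res f p'.σ.length = (res f ρ.length).take p'.σ.length := by
          rw [res_take f _ _ hρ2.length_le]
        rw [h5, h4]
        exact (List.prefix_iff_eq_take.1 hρ2).symm
    · intro f hf
      by_contra hcon
      push Not at hcon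
      choose K hK using hcon
      have h1 := hf.2.1 ((range m).sup K)
      simp only [Bool.or_eq_false_iff] at h1
      have h2 : (List.range m).all (fun i => (g (res f ((range m).sup K)) i).isSome) = true := by
        simp only [List.all_eq_true, List.mem_range]
        intro i hi
        have h3 := hK i
        rw [Option.ne_none_iff_exists'] at h3
        obtain ⟨v, hv⟩ := h3
        have h4 : K i ≤ (range m).sup K := Finset.le_sup (f := K) (mem_range.2 hi)
        rw [gmono _ _ _ _ (res_pre f h4) hv]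
        rfl
      rw [h2] at h1
      simp at h1
  · push Not at hC
    have hb2 : Computable (fun k => 2 ^ beta' p'.γ n k) := by fun_prop
    have hN : Computable (fun k => nbits p'.γ n k) := by fun_prop
    obtain ⟨T', h1, h2, h3, h4, h5, h6, h7⟩ := thin (σ := p'.σ) (T := p'.T) (B := p'.B) (g := g)
      (b' := fun k => 2 ^ beta' p'.γ n k) (N := fun k => nbits p'.γ n k) hTc hBc hg hb2 hN
      p'.Tσ p'.Tpre p'.Bup (fun ρ c n v h => gmono _ _ _ _ (List.prefix_append _ _) h)
      (by
        intro ρ hρ1 hρ2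
        refine le_trans ?_ (p'.br ρ hρ1 hρ2)
        apply Nat.pow_le_pow_right (by norm_num)
        have := hρ2.length_le
        exact (beta'_le_delta _ _ _).trans (hs1 _ (by omega)))
      (by
        intro ρ hρ1 hρ2
        obtain ⟨m, hm⟩ := hC ρ (nbits p'.γ n ρ.length) hρ1 hρ2
        have hm1 : W p'.T (fun τ => ∃ w ∈ (words (nbits p'.γ n ρ.length)).toFinset,
            labB p'.B g w τ = true) (fun k => 2 ^ nbits p'.γ n ρ.length * 2 ^ beta' p'.γ n k)
            m ρ := by
          refine W_anti_d (d := fun k => 2 ^ delta p'.γ n k) ?_ (W_mono_D ?_ hm)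
          · intro k hk
            rw [← pow_add]
            exact Nat.pow_le_pow_right (by norm_num) (nbits_add_beta' _ _ hk)
          · intro τ hτ
            rw [Bool.or_eq_true] at hτ
            refine ⟨(List.range (nbits p'.γ n ρ.length)).map
              (fun i => !(eqB ((g τ i).getD 0) 0)), ?_, ?_⟩
            · rw [List.mem_toFinset, mem_words]
              simp
            · rw [labB_iff]
              rcases hτ with hτ | hτ
              · exact Or.inl hτ
              · right
                intro i hi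
                simp only [List.all_eq_true, List.mem_range] at hτ
                simp only [List.length_map, List.length_range] at hi
                have h8 := hτ i hi
                rw [Option.isSome_iff_exists] at h8
                obtain ⟨v, hv⟩ := h8
                simp [hv, hi]
        obtain ⟨w, hw1, hw2⟩ := W_pigeon _ (by
          rw [Finset.nonempty_iff_ne_empty]
          intro h0
          have := congrArg Finset.card h0
          rw [Finset.card_empty, Finset.card_eq_zero, List.toFinset_eq_empty_iff] at this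
          have h9 := words_length (nbits p'.γ n ρ.length)
          rw [this] at h9
          have h10 : 0 < 2 ^ nbits p'.γ n ρ.length := by positivity
          rw [← h9] at h10
          simp at h10) (N := 2 ^ nbits p'.γ n ρ.length) (by
            refine (List.toFinset_card_le _).trans ?_
            rw [words_length]) hm1
        rw [List.mem_toFinset, mem_words] at hw1
        exact ⟨m, w, hw1, hw2⟩)
      (by
        intro i
        rw [prod_pow_eq_pow_sum, ← pow_add]
        apply Nat.pow_le_pow_right (by norm_num)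
        unfold nbits
        rw [sum_range_add]
        omega)
      (by intro i; show i ≤ nbits p'.γ n (p'.σ.length + i); unfold nbits; omega)
    refine ⟨{ p' with
      T := T'
      β := beta' p'.γ n
      cT := h1
      Tσ := h2
      Tpre := h3
      Tbd := fun ρ c h => p'.Tbd ρ c (h4 _ h)
      br := h5
      small := ?_
      le := fun k _ => gamma_le_beta' _ _ _
      gap := ⟨4 * (n + 1) - 1, ?_⟩ }, ?_, Or.inr ⟨?_, ?_⟩⟩
    · rintro ⟨m, hm⟩
      exact p'.small ⟨m, W_mono_T h4 hm⟩
    · have : 4 * (n + 1) - 1 + 1 = 4 * (n + 1) := by omega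
      rw [this]
      exact Eventually.of_forall (fun k => le_rfl)
    · intro f hf
      apply hsub
      exact ⟨fun k => h4 _ (hf.1 k), hf.2.1, hf.2.2⟩
    · obtain ⟨bd, hbd1, hbd2⟩ := h6
      exact ⟨bd, hbd1, fun f hf => hbd2 f hf.1 hf.2.1⟩
    · obtain ⟨Lb, hLb, ℓ, hℓ1, hℓ2, hℓ3⟩ := h7
      exact ⟨Lb, hLb, ℓ, hℓ1, hℓ2, fun f hf => hℓ3 f hf.1 hf.2.1⟩

/-! ### the initial condition -/

/-- The initial condition: the full base tree. -/
def baseCond : Cond where
  σ := []
  T := fun ρ => (List.range ρ.length).all (fun i => decide (ρ.getD i 0 < hb i))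
  B := fun _ => false
  β := fun k => 2 ^ k
  γ := fun _ => 1
  cT := by fun_prop
  cB := by fun_prop
  cγ := by fun_prop
  Tσ := by simp
  Tpre := by
    intro ρ c h
    simp only [List.all_eq_true, List.mem_range, decide_eq_true_eq] at h ⊢
    intro i hi
    have := h i (by simp; omega)
    rw [List.getD_append _ _ _ _ hi] at this
    exact this
  Tbd := by
    intro ρ c h
    simp only [List.all_eq_true, List.mem_range, decide_eq_true_eq] at h
    have := h ρ.length (by simp)
    have e7 : (ρ ++ [c]).getD ρ.length 0 = c := by simp [List.getD]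
    rw [e7] at this
    exact this
  Bup := by intro _ _ h; simp at h
  br := by
    intro ρ hρ _
    simp only [List.all_eq_true, List.mem_range, decide_eq_true_eq] at hρ
    have h1 : Finset.range (hb ρ.length) ⊆ kids (fun ρ => (List.range ρ.length).all
        (fun i => decide (ρ.getD i 0 < hb i))) (fun _ => True) ρ := by
      intro c hc
      rw [mem_range] at hc
      rw [mem_kids]
      refine ⟨hc, ?_, trivial⟩
      simp only [List.all_eq_true, List.mem_range, decide_eq_true_eq]
      intro i hi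
      by_cases hi' : i < ρ.length
      · rw [List.getD_append _ _ _ _ hi']
        exact hρ i hi'
      · have : i = ρ.length := by simp at hi; omega
        subst this
        have e7 : (ρ ++ [c]).getD ρ.length 0 = c := by simp [List.getD]
        rw [e7]
        exact hc
    have h2 := card_le_card h1
    rw [card_range] at h2
    exact h2
  small := by
    rintro ⟨m, hm⟩
    have : ∀ m ρ, ¬ W (fun ρ => (List.range ρ.length).all
        (fun i => decide (ρ.getD i 0 < hb i))) (fun _ => false = true) (fun _ => 2 ^ 1) m ρ := by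
      intro m
      induction m with
      | zero => intro ρ h; exact Bool.false_ne_true h
      | succ m ih =>
        intro ρ h
        rw [W_succ] at h
        have h0 : kids (fun ρ => (List.range ρ.length).all
          (fun i => decide (ρ.getD i 0 < hb i)))
          (W (fun ρ => (List.range ρ.length).all
          (fun i => decide (ρ.getD i 0 < hb i))) (fun _ => false = true) (fun _ => 2 ^ 1) m) ρ = ∅ := by
          rw [Finset.eq_empty_iff_forall_notMem]
          intro c hc
          rw [mem_kids] at hc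
          exact ih _ hc.2.2
        rw [h0] at h
        simp at h
    exact this m _ hm
  γmono := fun _ _ _ => le_rfl
  γpos := fun _ => le_rfl
  le := fun k _ => Nat.one_le_two_pow
  gap := ⟨0, Eventually.of_forall (fun k => by simp)⟩

end Pool.Agent.AttrHIF
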