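import Pool.Agent.Lib.MP_99e598_lc.WComp

/-! # Thinning a computable bushy tree so that a functional takes few values. -/

namespace Pool.Agent.AttrHIF

open Finset

/-- all Boolean words of length `n` -/
def words (n : ℕ) : List (List Bool) :=
  Nat.rec (motive := fun _ => List (List Bool)) [[]]
    (fun _ IH => IH.flatMap (fun w => [false :: w, true :: w])) n

theorem mem_words {n : ℕ} {w : List Bool} : w ∈ words n ↔ w.length = n := by
  induction n generalizing w with
  | zero => simp [words]
  | succ n ih =>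
    change w ∈ (words n).flatMap (fun w => [false :: w, true :: w]) ↔ _
    rw [List.mem_flatMap]
    constructor
    · rintro ⟨w', h1, h2⟩
      rw [ih] at h1
      simp only [List.mem_cons, List.not_mem_nil, or_false] at h2
      rcases h2 with rfl | rfl <;> simp [h1]
    · intro h
      cases w with
      | nil => simp at h
      | cons b w =>
        refine ⟨w, ih.2 (by simpa using h), ?_⟩
        cases b <;> simp

@[fun_prop] theorem words_computable {α : Type*} [Primcodable α] {f : α → ℕ}
    (hf : Computable f) : Computable (fun a => words (f a)) := by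
  unfold words
  fun_prop

/-- the label test: bad, or the functional has the values prescribed by `w` -/
def labB (B : List ℕ → Bool) (g : List ℕ → ℕ → Option ℕ) (w : List Bool) (ρ : List ℕ) : Bool :=
  B ρ || ((List.range w.length).all
    (fun i => eqB ((g ρ i).map (fun v => !(eqB v 0))) (w[i]?)))

theorem labB_iff {B : List ℕ → Bool} {g : List ℕ → ℕ → Option ℕ} {w : List Bool}
    {ρ : List ℕ} : labB B g w ρ = true ↔
      (B ρ = true ∨ ∀ i < w.length, (g ρ i).map (fun v => !(eqB v 0)) = w[i]?) := by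
  simp [labB]

theorem labB_up {B : List ℕ → Bool} {g : List ℕ → ℕ → Option ℕ}
    (Bup : ∀ ρ c, B ρ = true → B (ρ ++ [c]) = true)
    (gmono : ∀ ρ c n v, g ρ n = some v → g (ρ ++ [c]) n = some v) {w : List Bool}
    (ρ : List ℕ) (c : ℕ) (h : labB B g w ρ = true) : labB B g w (ρ ++ [c]) = true := by
  rw [labB_iff] at h ⊢
  rcases h with h | h
  · exact Or.inl (Bup _ _ h)
  · right
    intro i hi
    have h1 := h i hi
    have : w[i]? = some w[i] := List.getElem?_eq_getElem hi
    rw [this] at h1 ⊢
    cases hg : g ρ i with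
    | none => rw [hg] at h1; simp at h1
    | some v =>
      rw [gmono ρ c i v hg]
      rw [hg] at h1
      exact h1

section defs
variable (σ : List ℕ) (T B : List ℕ → Bool) (g : List ℕ → ℕ → Option ℕ) (b' N m : ℕ → ℕ)

/-- last checkpoint at or below relative level `i` -/
def cpF (i : ℕ) : ℕ :=
  Nat.rec (motive := fun _ => ℕ) 0
    (fun i IH => bif eqB (i + 1) (IH + m IH) then i + 1 else IH) i

/-- the label chosen at the node `τ` at relative checkpoint level `i` -/
def wlF (i : ℕ) (τ : List ℕ) : List Bool :=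
  ((words (N (σ.length + i))).filter (fun w => Wb T (labB B g) b' w (m i) τ)).getD 0 []

/-- the label governing `τ` -/
def labF (τ : List ℕ) : List Bool :=
  wlF σ T B g b' N m (cpF m (τ.length - σ.length))
    (τ.take (σ.length + cpF m (τ.length - σ.length)))

/-- children kept at `τ` -/
def ChF (τ : List ℕ) : List ℕ :=
  ((List.range (hb τ.length)).filter (fun c => T (τ ++ [c]) &&
    Wb T (labB B g) b' (labF σ T B g b' N m τ)
      (cpF m (τ.length - σ.length) + m (cpF m (τ.length - σ.length)) -
        (τ.length - σ.length) - 1) (τ ++ [c]))).take (b' τ.length)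

/-- the thinned tree -/
def TF (ρ : List ℕ) : Bool :=
  eqB (ρ.take σ.length) (σ.take ρ.length) &&
    (List.range (ρ.length - σ.length)).all
      (fun i => inL (ρ.getD (σ.length + i) 0) (ChF σ T B g b' N m (ρ.take (σ.length + i))))

/-- nodes of the thinned tree -/
def NdF (i : ℕ) : List (List ℕ) :=
  Nat.rec (motive := fun _ => List (List ℕ)) [σ]
    (fun _ IH => IH.flatMap (fun τ => (ChF σ T B g b' N m τ).map (fun c => τ ++ [c]))) i

end defs

section comp
variable {σ : List ℕ} {T B : List ℕ → Bool} {g : List ℕ → ℕ → Option ℕ} {b' N m : ℕ → ℕ}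
variable {α : Type*} [Primcodable α]

@[fun_prop] theorem labB_computable (hB : Computable B)
    (hg : Computable (fun p : List ℕ × ℕ => g p.1 p.2)) {w : α → List Bool} {ρ : α → List ℕ}
    (hw : Computable w) (hρ : Computable ρ) : Computable (fun a => labB B g (w a) (ρ a)) := by
  unfold labB
  fun_prop

@[fun_prop] theorem cpF_computable (hm : Computable m) {i : α → ℕ} (hi : Computable i) :
    Computable (fun a => cpF m (i a)) := by
  unfold cpF
  fun_prop

@[fun_prop] theorem wlF_computable (hT : Computable T) (hB : Computable B)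
    (hg : Computable (fun p : List ℕ × ℕ => g p.1 p.2)) (hb' : Computable b')
    (hN : Computable N) (hm : Computable m) {i : α → ℕ} {τ : α → List ℕ}
    (hi : Computable i) (hτ : Computable τ) :
    Computable (fun a => wlF σ T B g b' N m (i a) (τ a)) := by
  unfold wlF
  fun_prop

@[fun_prop] theorem labF_computable (hT : Computable T) (hB : Computable B)
    (hg : Computable (fun p : List ℕ × ℕ => g p.1 p.2)) (hb' : Computable b')
    (hN : Computable N) (hm : Computable m) {τ : α → List ℕ} (hτ : Computable τ) :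
    Computable (fun a => labF σ T B g b' N m (τ a)) := by
  unfold labF
  fun_prop

@[fun_prop] theorem ChF_computable (hT : Computable T) (hB : Computable B)
    (hg : Computable (fun p : List ℕ × ℕ => g p.1 p.2)) (hb' : Computable b')
    (hN : Computable N) (hm : Computable m) {τ : α → List ℕ} (hτ : Computable τ) :
    Computable (fun a => ChF σ T B g b' N m (τ a)) := by
  unfold ChF
  fun_prop

@[fun_prop] theorem TF_computable (hT : Computable T) (hB : Computable B)
    (hg : Computable (fun p : List ℕ × ℕ => g p.1 p.2)) (hb' : Computable b')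
    (hN : Computable N) (hm : Computable m) {τ : α → List ℕ} (hτ : Computable τ) :
    Computable (fun a => TF σ T B g b' N m (τ a)) := by
  unfold TF
  fun_prop

@[fun_prop] theorem NdF_computable (hT : Computable T) (hB : Computable B)
    (hg : Computable (fun p : List ℕ × ℕ => g p.1 p.2)) (hb' : Computable b')
    (hN : Computable N) (hm : Computable m) {i : α → ℕ} (hi : Computable i) :
    Computable (fun a => NdF σ T B g b' N m (i a)) := by
  unfold NdF
  fun_prop

end comp

section proofs
variable {σ : List ℕ} {T B : List ℕ → Bool} {g : List ℕ → ℕ → Option ℕ} {b' N m : ℕ → ℕ}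

theorem cpF_zero : cpF m 0 = 0 := rfl

theorem cpF_succ (i : ℕ) : cpF m (i + 1) =
    if i + 1 = cpF m i + m (cpF m i) then i + 1 else cpF m i := by
  change (bif eqB (i + 1) (cpF m i + m (cpF m i)) then i + 1 else cpF m i) = _
  by_cases h : i + 1 = cpF m i + m (cpF m i)
  · rw [if_pos h, (eqB_iff _ _).2 h]; rfl
  · rw [if_neg h]
    have : eqB (i + 1) (cpF m i + m (cpF m i)) = false := by
      rw [← Bool.not_eq_true, eqB_iff]; exact h
    rw [this]; rfl

theorem cpF_le (i : ℕ) : cpF m i ≤ i := by
  induction i with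
  | zero => exact le_rfl
  | succ i ih => rw [cpF_succ]; split_ifs <;> omega

theorem cpF_lt (hm1 : ∀ i, 1 ≤ m i) (i : ℕ) : i < cpF m i + m (cpF m i) := by
  induction i with
  | zero => rw [cpF_zero]; have := hm1 0; omega
  | succ i ih =>
    rw [cpF_succ]
    split_ifs with h
    · have := hm1 (i + 1); omega
    · omega

theorem cpF_fix (i : ℕ) : cpF m (cpF m i) = cpF m i := by
  induction i with
  | zero => rfl
  | succ i ih =>
    by_cases h : i + 1 = cpF m i + m (cpF m i)
    · have h2 : cpF m (i + 1) = i + 1 := by rw [cpF_succ, if_pos h]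
      rw [h2, h2]
    · have h2 : cpF m (i + 1) = cpF m i := by rw [cpF_succ, if_neg h]
      rw [h2, ih]

theorem cpF_const {K : ℕ} (hK : cpF m K = K) {i : ℕ} (h1 : K ≤ i) (h2 : i < K + m K) :
    cpF m i = K := by
  induction i, h1 using Nat.le_induction with
  | base => exact hK
  | succ i hi ih =>
    have h3 := ih (by omega)
    rw [cpF_succ, h3, if_neg (by omega)]

theorem cpF_next (hm1 : ∀ i, 1 ≤ m i) {K : ℕ} (hK : cpF m K = K) :
    cpF m (K + m K) = K + m K := by
  have h1 := hm1 K
  obtain ⟨i, hi⟩ : ∃ i, K + m K = i + 1 := ⟨K + m K - 1, by omega⟩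
  have h2 : cpF m i = K := cpF_const hK (by omega) (by omega)
  rw [hi, cpF_succ, h2, if_pos hi.symm]

theorem ChF_length_le (τ : List ℕ) : (ChF σ T B g b' N m τ).length ≤ b' τ.length := by
  unfold ChF
  rw [List.length_take]
  exact min_le_left _ _

theorem ChF_nodup (τ : List ℕ) : (ChF σ T B g b' N m τ).Nodup := by
  unfold ChF
  exact ((List.nodup_range).filter _).sublist (List.take_sublist _ _)

theorem mem_ChF {τ : List ℕ} {c : ℕ} (h : c ∈ ChF σ T B g b' N m τ) :
    c < hb τ.length ∧ T (τ ++ [c]) = true ∧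
    W T (fun ρ => labB B g (labF σ T B g b' N m τ) ρ = true) b'
      (cpF m (τ.length - σ.length) + m (cpF m (τ.length - σ.length)) -
        (τ.length - σ.length) - 1) (τ ++ [c]) := by
  unfold ChF at h
  have h1 := List.mem_of_mem_take h
  rw [List.mem_filter, List.mem_range, Bool.and_eq_true, Wb_iff] at h1
  exact h1

theorem TF_append {ρ : List ℕ} {c : ℕ} (h : σ.length ≤ ρ.length) :
    TF σ T B g b' N m (ρ ++ [c]) = true ↔
      (TF σ T B g b' N m ρ = true ∧ c ∈ ChF σ T B g b' N m ρ) := by
  unfold TF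
  simp only [Bool.and_eq_true, eqB_iff, List.all_eq_true, List.mem_range, inL_iff]
  have e1 : (ρ ++ [c]).take σ.length = ρ.take σ.length := List.take_append_of_le_length h
  have e2 : σ.take (ρ ++ [c]).length = σ.take ρ.length := by
    rw [List.take_of_length_le (by simp; omega), List.take_of_length_le h]
  have e3 : (ρ ++ [c]).length = ρ.length + 1 := by simp
  rw [e1, e2, e3]
  constructor
  · rintro ⟨h1, h2⟩
    refine ⟨⟨h1, ?_⟩, ?_⟩
    · intro i hi
      have h3 := h2 i (by omega)
      have e4 : (ρ ++ [c]).getD (σ.length + i) 0 = ρ.getD (σ.length + i) 0 := by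
        rw [List.getD_append _ _ _ _ (by omega)]
      have e5 : (ρ ++ [c]).take (σ.length + i) = ρ.take (σ.length + i) :=
        List.take_append_of_le_length (by omega)
      rw [e4, e5] at h3
      exact h3
    · have h3 := h2 (ρ.length - σ.length) (by omega)
      have e6 : σ.length + (ρ.length - σ.length) = ρ.length := by omega
      rw [e6] at h3
      have e7 : (ρ ++ [c]).getD ρ.length 0 = c := by
        simp [List.getD]
      have e8 : (ρ ++ [c]).take ρ.length = ρ := by simp
      rw [e7, e8] at h3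
      exact h3
  · rintro ⟨⟨h1, h2⟩, h3⟩
    refine ⟨h1, ?_⟩
    intro i hi
    by_cases hi' : i < ρ.length - σ.length
    · have e4 : (ρ ++ [c]).getD (σ.length + i) 0 = ρ.getD (σ.length + i) 0 := by
        rw [List.getD_append _ _ _ _ (by omega)]
      have e5 : (ρ ++ [c]).take (σ.length + i) = ρ.take (σ.length + i) :=
        List.take_append_of_le_length (by omega)
      rw [e4, e5]
      exact h2 i hi'
    · have e6 : σ.length + i = ρ.length := by omega
      rw [e6]
      have e7 : (ρ ++ [c]).getD ρ.length 0 = c := by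
        simp [List.getD]
      have e8 : (ρ ++ [c]).take ρ.length = ρ := by simp
      rw [e7, e8]
      exact h3

theorem TF_short {ρ : List ℕ} (h : ρ.length ≤ σ.length) :
    TF σ T B g b' N m ρ = true ↔ ρ <+: σ := by
  unfold TF
  simp only [Bool.and_eq_true, eqB_iff, List.all_eq_true, List.mem_range, inL_iff]
  have e1 : ρ.take σ.length = ρ := List.take_of_length_le h
  rw [e1]
  constructor
  · rintro ⟨h1, _⟩
    rw [h1]; exact List.take_prefix _ _
  · intro h1
    refine ⟨List.prefix_iff_eq_take.1 h1, ?_⟩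
    intro i hi
    omega

theorem TF_self : TF σ T B g b' N m σ = true := (TF_short le_rfl).2 (List.prefix_refl _)

theorem TF_pre {ρ : List ℕ} {c : ℕ} (h : TF σ T B g b' N m (ρ ++ [c]) = true) :
    TF σ T B g b' N m ρ = true := by
  by_cases h1 : σ.length ≤ ρ.length
  · exact ((TF_append h1).1 h).1
  · rw [TF_short (by simp; omega)] at h
    rw [TF_short (by omega)]
    exact (List.prefix_append _ _).trans h

theorem wlF_spec {i : ℕ} {τ : List ℕ}
    (h : ∃ w : List Bool, w.length = N (σ.length + i) ∧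
      W T (fun ρ => labB B g w ρ = true) b' (m i) τ) :
    (wlF σ T B g b' N m i τ).length = N (σ.length + i) ∧
      W T (fun ρ => labB B g (wlF σ T B g b' N m i τ) ρ = true) b' (m i) τ := by
  obtain ⟨w, h1, h2⟩ := h
  have hw : w ∈ (words (N (σ.length + i))).filter (fun w => Wb T (labB B g) b' w (m i) τ) := by
    rw [List.mem_filter, mem_words, Wb_iff]
    exact ⟨h1, h2⟩
  have hw2 : wlF σ T B g b' N m i τ ∈
      (words (N (σ.length + i))).filter (fun w => Wb T (labB B g) b' w (m i) τ) := by
    unfold wlF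
    have hpos := List.length_pos_of_mem hw
    rw [List.getD_eq_getElem _ _ hpos]
    exact List.getElem_mem hpos
  rw [List.mem_filter, mem_words, Wb_iff] at hw2
  exact hw2

/-- the structural invariant -/
theorem TF_inv (hm1 : ∀ i, 1 ≤ m i)
    (hm : ∀ i, ∀ ρ ∈ lev T σ i, ∃ w : List Bool, w.length = N (σ.length + i) ∧
      W T (fun ρ => labB B g w ρ = true) b' (m i) ρ)
    (Tσ : T σ = true) (i : ℕ) (ρ : List ℕ) (hl : ρ.length = σ.length + i)
    (h : TF σ T B g b' N m ρ = true) :
    T ρ = true ∧ σ <+: ρ ∧ ρ ∈ lev T σ i ∧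
      W T (fun τ => labB B g (labF σ T B g b' N m ρ) τ = true) b'
        (cpF m i + m (cpF m i) - i) ρ := by
  induction i generalizing ρ with
  | zero =>
    have h1 : ρ = σ := by
      have := (TF_short (by omega)).1 h
      exact this.eq_of_length (by omega)
    subst h1
    refine ⟨Tσ, List.prefix_refl _, by simp [lev], ?_⟩
    have h2 := (wlF_spec (hm 0 ρ (by simp [lev]))).2
    have e : labF ρ T B g b' N m ρ = wlF ρ T B g b' N m 0 ρ := by
      unfold labF
      have : ρ.length - ρ.length = 0 := by omega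
      rw [this, cpF_zero]
      simp
    rw [e, cpF_zero]
    simpa using h2
  | succ i ih =>
    obtain ⟨ρ₀, c, rfl⟩ : ∃ ρ₀ c, ρ = ρ₀ ++ [c] := by
      have hne : ρ ≠ [] := by intro h0; rw [h0] at hl; simp at hl
      exact ⟨ρ.dropLast, ρ.getLast hne, (List.dropLast_append_getLast hne).symm⟩
    have hl0 : ρ₀.length = σ.length + i := by simp at hl; omega
    rw [TF_append (by omega)] at h
    obtain ⟨hT0, hpre, hlev, hW⟩ := ih ρ₀ hl0 h.1
    obtain ⟨hc1, hc2, hc3⟩ := mem_ChF h.2
    have e1 : ρ₀.length - σ.length = i := by omega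
    rw [e1] at hc3
    have hlev' : ρ₀ ++ [c] ∈ lev T σ (i + 1) := by
      rw [mem_lev_succ]
      exact ⟨ρ₀, hlev, mem_ext1.2 ⟨c, hc1, hc2, rfl⟩⟩
    refine ⟨hc2, hpre.trans (List.prefix_append _ _), hlev', ?_⟩
    by_cases hcp : i + 1 = cpF m i + m (cpF m i)
    · have e2 : cpF m (i + 1) = i + 1 := by rw [cpF_succ, if_pos hcp]
      have e3 : labF σ T B g b' N m (ρ₀ ++ [c]) = wlF σ T B g b' N m (i + 1) (ρ₀ ++ [c]) := by
        unfold labF
        have : (ρ₀ ++ [c]).length - σ.length = i + 1 := by simp; omega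
        rw [this, e2]
        congr 1
        apply List.take_of_length_le
        simp; omega
      rw [e3, e2]
      have := (wlF_spec (hm (i + 1) _ hlev')).2
      have e4 : i + 1 + m (i + 1) - (i + 1) = m (i + 1) := by omega
      rw [e4]
      exact this
    · have e2 : cpF m (i + 1) = cpF m i := by rw [cpF_succ, if_neg hcp]
      have hle := cpF_le (m := m) i
      have e3 : labF σ T B g b' N m (ρ₀ ++ [c]) = labF σ T B g b' N m ρ₀ := by
        unfold labF
        have : (ρ₀ ++ [c]).length - σ.length = i + 1 := by simp; omega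
        rw [this, e2, e1]
        congr 1
        apply List.take_append_of_le_length
        omega
      rw [e3, e2]
      have e4 : cpF m i + m (cpF m i) - i - 1 = cpF m i + m (cpF m i) - (i + 1) := by omega
      rw [e4] at hc3
      exact hc3

theorem TF_branch (hm1 : ∀ i, 1 ≤ m i)
    (hm : ∀ i, ∀ ρ ∈ lev T σ i, ∃ w : List Bool, w.length = N (σ.length + i) ∧
      W T (fun ρ => labB B g w ρ = true) b' (m i) ρ)
    (Tσ : T σ = true) (ρ : List ℕ) (hl : σ.length ≤ ρ.length)
    (h : TF σ T B g b' N m ρ = true) :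
    b' ρ.length ≤ (kids (TF σ T B g b' N m) (fun _ => True) ρ).card := by
  classical
  obtain ⟨i, hi⟩ : ∃ i, ρ.length = σ.length + i := ⟨ρ.length - σ.length, by omega⟩
  obtain ⟨_, _, _, hW⟩ := TF_inv hm1 hm Tσ i ρ hi h
  have hlt := cpF_lt hm1 i
  obtain ⟨t, ht⟩ : ∃ t, cpF m i + m (cpF m i) - i = t + 1 :=
    ⟨cpF m i + m (cpF m i) - i - 1, by omega⟩
  rw [ht, W_succ] at hW
  have e1 : ρ.length - σ.length = i := by omega
  have hcard := card_kids T (W T (fun τ => labB B g (labF σ T B g b' N m ρ) τ = true) b' t) ρ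
    (fun c => T (ρ ++ [c]) && Wb T (labB B g) b' (labF σ T B g b' N m ρ) t (ρ ++ [c]))
    (by intro c _; rw [Bool.and_eq_true, Wb_iff])
  rw [hcard] at hW
  have hlen : (ChF σ T B g b' N m ρ).length = b' ρ.length := by
    unfold ChF
    rw [List.length_take, e1]
    have : cpF m i + m (cpF m i) - i - 1 = t := by omega
    rw [this]
    exact min_eq_left hW
  rw [← hlen, ← List.toFinset_card_of_nodup (ChF_nodup ρ)]
  apply card_le_card
  intro c hc
  rw [List.mem_toFinset] at hc
  rw [mem_kids]
  exact ⟨(mem_ChF hc).1, (TF_append hl).2 ⟨h, hc⟩, trivial⟩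

theorem TF_label (hm1 : ∀ i, 1 ≤ m i)
    {K : ℕ} (hK : cpF m K = K) (ρ : List ℕ) (hl : ρ.length = σ.length + (K + m K))
    (h : TF σ T B g b' N m ρ = true) :
    labB B g (wlF σ T B g b' N m K (ρ.take (σ.length + K))) ρ = true := by
  obtain ⟨ρ₀, c, rfl⟩ : ∃ ρ₀ c, ρ = ρ₀ ++ [c] := by
    have hne : ρ ≠ [] := by intro h0; rw [h0] at hl; have := hm1 K; simp at hl; omega
    exact ⟨ρ.dropLast, ρ.getLast hne, (List.dropLast_append_getLast hne).symm⟩
  have h1 := hm1 K
  have hl0 : ρ₀.length = σ.length + (K + m K - 1) := by simp at hl; omega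
  rw [TF_append (by omega)] at h
  obtain ⟨hc1, hc2, hc3⟩ := mem_ChF h.2
  have e1 : ρ₀.length - σ.length = K + m K - 1 := by omega
  have e2 : cpF m (K + m K - 1) = K := cpF_const hK (by omega) (by omega)
  rw [e1, e2] at hc3
  have e3 : K + m K - (K + m K - 1) - 1 = 0 := by omega
  rw [e3, W_zero] at hc3
  have e4 : labF σ T B g b' N m ρ₀ =
      wlF σ T B g b' N m K ((ρ₀ ++ [c]).take (σ.length + K)) := by
    unfold labF
    rw [e1, e2]
    congr 1
    rw [List.take_append_of_le_length (by omega)]
  rw [← e4]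
  exact hc3

theorem NdF_succ (i : ℕ) : NdF σ T B g b' N m (i + 1) =
    (NdF σ T B g b' N m i).flatMap (fun τ => (ChF σ T B g b' N m τ).map (fun c => τ ++ [c])) :=
  rfl

theorem NdF_len (i : ℕ) : ∀ τ ∈ NdF σ T B g b' N m i, τ.length = σ.length + i := by
  induction i with
  | zero => intro τ h; simp [NdF] at h; simp [h]
  | succ i ih =>
    intro τ h
    rw [NdF_succ, List.mem_flatMap] at h
    obtain ⟨τ', h1, h2⟩ := h
    rw [List.mem_map] at h2
    obtain ⟨c, _, rfl⟩ := h2
    have := ih τ' h1
    simp; omega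

theorem NdF_length (i : ℕ) :
    (NdF σ T B g b' N m i).length ≤ ∏ x ∈ range i, b' (σ.length + x) := by
  induction i with
  | zero => simp [NdF]
  | succ i ih =>
    rw [NdF_succ, List.length_flatMap, prod_range_succ]
    have : ∀ l : List (List ℕ), (∀ τ ∈ l, τ.length = σ.length + i) →
        (l.map (fun τ => ((ChF σ T B g b' N m τ).map (fun c => τ ++ [c])).length)).sum ≤
          l.length * b' (σ.length + i) := by
      intro l hl
      induction l with
      | nil => simp
      | cons a l ihl =>
        rw [List.map_cons, List.sum_cons, List.length_cons, List.length_map]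
        have h1 := ChF_length_le (σ := σ) (T := T) (B := B) (g := g) (b' := b') (N := N) (m := m) a
        rw [hl a (by simp)] at h1
        have h2 := ihl (fun τ hτ => hl τ (by simp [hτ]))
        calc _ ≤ b' (σ.length + i) + l.length * b' (σ.length + i) := by omega
          _ = (l.length + 1) * b' (σ.length + i) := by ring
    refine (this _ (NdF_len i)).trans ?_
    exact Nat.mul_le_mul_right _ ih

theorem mem_NdF (i : ℕ) (ρ : List ℕ) (hl : ρ.length = σ.length + i)
    (h : TF σ T B g b' N m ρ = true) : ρ ∈ NdF σ T B g b' N m i := by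
  induction i generalizing ρ with
  | zero =>
    have h1 : ρ = σ := by
      have := (TF_short (by omega)).1 h
      exact this.eq_of_length (by omega)
    subst h1
    simp [NdF]
  | succ i ih =>
    obtain ⟨ρ₀, c, rfl⟩ : ∃ ρ₀ c, ρ = ρ₀ ++ [c] := by
      have hne : ρ ≠ [] := by intro h0; rw [h0] at hl; simp at hl
      exact ⟨ρ.dropLast, ρ.getLast hne, (List.dropLast_append_getLast hne).symm⟩
    have hl0 : ρ₀.length = σ.length + i := by simp at hl; omega
    rw [TF_append (by omega)] at h
    rw [NdF_succ, List.mem_flatMap]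
    exact ⟨ρ₀, ih ρ₀ hl0 h.1, List.mem_map.2 ⟨c, h.2, rfl⟩⟩

end proofs

/-- The thinning theorem. -/
theorem thin {σ : List ℕ} {T B : List ℕ → Bool} {g : List ℕ → ℕ → Option ℕ} {b' N : ℕ → ℕ}
    (hT : Computable T) (hB : Computable B) (hg : Computable (fun p : List ℕ × ℕ => g p.1 p.2))
    (hb' : Computable b') (hN : Computable N) (Tσ : T σ = true)
    (Tpre : ∀ ρ c, T (ρ ++ [c]) = true → T ρ = true)
    (Bup : ∀ ρ c, B ρ = true → B (ρ ++ [c]) = true)
    (gmono : ∀ ρ c n v, g ρ n = some v → g (ρ ++ [c]) n = some v)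
    (hbr : ∀ ρ, T ρ = true → σ <+: ρ → b' ρ.length ≤ (kids T (fun _ => True) ρ).card)
    (H : ∀ ρ, T ρ = true → σ <+: ρ → ∃ k, ∃ w : List Bool, w.length = N ρ.length ∧
      W T (fun τ => labB B g w τ = true) b' k ρ)
    (hNb : ∀ i, 2 ^ i * ∏ x ∈ range i, b' (σ.length + x) ≤ 2 ^ N (σ.length + i))
    (hNn : ∀ i, i ≤ N (σ.length + i)) :
    ∃ T' : List ℕ → Bool, Computable T' ∧ T' σ = true ∧
      (∀ ρ c, T' (ρ ++ [c]) = true → T' ρ = true) ∧ (∀ ρ, T' ρ = true → T ρ = true) ∧
      (∀ ρ, T' ρ = true → σ <+: ρ → b' ρ.length ≤ (kids T' (fun _ => True) ρ).card) ∧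
      (∃ bd : ℕ → ℕ, Computable bd ∧ ∀ f : ℕ → ℕ, (∀ k, T' (res f k) = true) →
        (∀ k, B (res f k) = false) → ∀ n, ∃ k v, g (res f k) n = some v ∧ v ≤ bd n) ∧
      (∃ Lb : ℕ → List (List Bool), Computable Lb ∧ ∃ ℓ : ℕ → ℕ,
        (∀ j, ∀ w ∈ Lb j, w.length = ℓ j) ∧ (∀ j, (Lb j).length * 2 ^ j ≤ 2 ^ ℓ j) ∧
        ∀ f : ℕ → ℕ, (∀ k, T' (res f k) = true) → (∀ k, B (res f k) = false) →
          ∀ j, ∃ w ∈ Lb j, ∀ i < w.length, ∃ k v, g (res f k) i = some v ∧
            some (!(eqB v 0)) = w[i]?) := by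
  classical
  -- the search for the heights
  have hlevT : ∀ i, ∀ ρ ∈ lev T σ i, T ρ = true ∧ σ <+: ρ := by
    intro i
    induction i with
    | zero => intro ρ h; simp [lev] at h; rw [h]; exact ⟨Tσ, List.prefix_refl _⟩
    | succ i ih =>
      intro ρ h
      rw [mem_lev_succ] at h
      obtain ⟨τ, h1, h2⟩ := h
      obtain ⟨c, _, h3, rfl⟩ := mem_ext1.1 h2
      exact ⟨h3, (ih τ h1).2.trans (List.prefix_append _ _)⟩
  let R : ℕ → ℕ → Bool := fun i k => decide (1 ≤ k) &&
    (lev T σ i).all (fun ρ => (words (N (σ.length + i))).any (fun w => Wb T (labB B g) b' w k ρ))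
  have hR : Computable (fun p : ℕ × ℕ => R p.1 p.2) := by
    simp only [R]
    fun_prop
  have hex : ∀ i, ∃ k, R i k = true := by
    intro i
    have h1 : ∀ ρ ∈ lev T σ i, ∃ k, ∃ w : List Bool, w.length = N ρ.length ∧
        W T (fun τ => labB B g w τ = true) b' k ρ := by
      intro ρ hρ
      exact H ρ (hlevT i ρ hρ).1 (hlevT i ρ hρ).2
    choose! kk hkk using h1
    refine ⟨(lev T σ i).toFinset.sup kk + 1, ?_⟩
    simp only [R, Bool.and_eq_true, decide_eq_true_eq, List.all_eq_true, List.any_eq_true]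
    refine ⟨by omega, ?_⟩
    intro ρ hρ
    obtain ⟨w, hw1, hw2⟩ := hkk ρ hρ
    refine ⟨w, ?_, ?_⟩
    · rw [mem_words, hw1, lev_length T σ i hρ]
    · rw [Wb_iff]
      refine W_up_le (P := fun ρ => T ρ = true ∧ σ <+: ρ) ?_ ?_ ?_ ?_ (hlevT i ρ hρ) hw2
      · intro ρ c h hc
        exact ⟨hc, h.2.trans (List.prefix_append _ _)⟩
      · intro ρ h
        exact hbr ρ h.1 h.2
      · intro ρ c h
        exact labB_up Bup gmono ρ c h
      · exact (Finset.le_sup (List.mem_toFinset.2 hρ)).trans (Nat.le_succ _)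
  obtain ⟨m, hmc, hmR⟩ := exists_search hR hex
  have hm1 : ∀ i, 1 ≤ m i := by
    intro i
    have := hmR i
    simp only [R, Bool.and_eq_true, decide_eq_true_eq] at this
    exact this.1
  have hm : ∀ i, ∀ ρ ∈ lev T σ i, ∃ w : List Bool, w.length = N (σ.length + i) ∧
      W T (fun ρ => labB B g w ρ = true) b' (m i) ρ := by
    intro i ρ hρ
    have := hmR i
    simp only [R, Bool.and_eq_true, decide_eq_true_eq, List.all_eq_true, List.any_eq_true] at this
    obtain ⟨w, hw1, hw2⟩ := this.2 ρ hρ
    rw [mem_words] at hw1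
    rw [Wb_iff] at hw2
    exact ⟨w, hw1, hw2⟩
  -- nodes on paths
  have hTTF : ∀ ρ, TF σ T B g b' N m ρ = true → T ρ = true := by
    intro ρ h
    by_cases hl : σ.length ≤ ρ.length
    · exact (TF_inv hm1 hm Tσ (ρ.length - σ.length) ρ (by omega) h).1
    · rw [TF_short (by omega)] at h
      obtain ⟨ρ', h'⟩ := h
      have : ∀ l : List ℕ, T (ρ ++ l) = true → T ρ = true := by
        intro l
        induction l using List.reverseRecOn with
        | nil => intro h; simpa using h
        | append_singleton l a ih =>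
          intro h
          rw [← List.append_assoc] at h
          exact ih (Tpre _ _ h)
      apply this ρ'
      rw [h']
      exact Tσ
  -- the checkpoint used for the input j
  let Kc : ℕ → ℕ := fun j => cpF m j + m (cpF m j)
  have hKc_lt : ∀ j, j < Kc j := fun j => cpF_lt hm1 j
  have hKc_fix : ∀ j, cpF m (Kc j) = Kc j := fun j => cpF_next hm1 (cpF_fix j)
  have hKcc : Computable Kc := by
    simp only [Kc]
    fun_prop
  have hlabel : ∀ f : ℕ → ℕ, (∀ k, TF σ T B g b' N m (res f k) = true) →
      (∀ k, B (res f k) = false) → ∀ j,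
      (wlF σ T B g b' N m (Kc j) (res f (σ.length + Kc j))).length = N (σ.length + Kc j) ∧
      ∀ i < N (σ.length + Kc j), ∃ v,
        g (res f (σ.length + (Kc j + m (Kc j)))) i = some v ∧
        some (!(eqB v 0)) = (wlF σ T B g b' N m (Kc j) (res f (σ.length + Kc j)))[i]? := by
    intro f hf1 hf2 j
    have hlv : res f (σ.length + Kc j) ∈ lev T σ (Kc j) :=
      (TF_inv hm1 hm Tσ (Kc j) _ (by simp) (hf1 _)).2.2.1
    have hsp := wlF_spec (hm (Kc j) _ hlv)
    refine ⟨hsp.1, ?_⟩
    have h1 := TF_label hm1 (hKc_fix j) (res f (σ.length + (Kc j + m (Kc j)))) (by simp) (hf1 _)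
    rw [res_take f _ _ (by omega), labB_iff, hf2] at h1
    rcases h1 with h1 | h1
    · simp at h1
    · intro i hi
      have h2 := h1 i (by rw [hsp.1]; exact hi)
      have h3 : (wlF σ T B g b' N m (Kc j) (res f (σ.length + Kc j)))[i]? =
          some (wlF σ T B g b' N m (Kc j) (res f (σ.length + Kc j)))[i] :=
        List.getElem?_eq_getElem (by rw [hsp.1]; exact hi)
      cases hgv : g (res f (σ.length + (Kc j + m (Kc j)))) i with
      | none => rw [hgv, h3] at h2; simp at h2
      | some v =>
        refine ⟨v, rfl, ?_⟩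
        rw [hgv] at h2
        exact h2
  refine ⟨TF σ T B g b' N m, by fun_prop, TF_self, fun ρ c h => TF_pre h, hTTF, ?_, ?_, ?_⟩
  · intro ρ h1 h2
    exact TF_branch hm1 hm Tσ ρ h2.length_le h1
  · refine ⟨fun n => ((NdF σ T B g b' N m (Kc n + m (Kc n))).map
      (fun ρ => (g ρ n).getD 0)).sum, ?_, ?_⟩
    · fun_prop
    · intro f hf1 hf2 n
      obtain ⟨_, h2⟩ := hlabel f hf1 hf2 n
      obtain ⟨v, hv, _⟩ := h2 n (by
        have := hNn (Kc n)
        have := hKc_lt n
        omega)
      refine ⟨_, v, hv, ?_⟩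
      have h3 : res f (σ.length + (Kc n + m (Kc n))) ∈ NdF σ T B g b' N m (Kc n + m (Kc n)) :=
        mem_NdF _ _ (by simp) (hf1 _)
      apply List.single_le_sum (by simp)
      rw [List.mem_map]
      exact ⟨_, h3, by rw [hv]; rfl⟩
  · refine ⟨fun j => ((NdF σ T B g b' N m (Kc j)).filter
      (fun τ => eqB (wlF σ T B g b' N m (Kc j) τ).length (N (σ.length + Kc j)))).map
      (fun τ => wlF σ T B g b' N m (Kc j) τ), ?_, fun j => N (σ.length + Kc j), ?_, ?_, ?_⟩
    · fun_prop
    · intro j w hw
      rw [List.mem_map] at hw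
      obtain ⟨τ, h1, rfl⟩ := hw
      rw [List.mem_filter, eqB_iff] at h1
      exact h1.2
    · intro j
      rw [List.length_map]
      have h1 : ((NdF σ T B g b' N m (Kc j)).filter
        (fun τ => eqB (wlF σ T B g b' N m (Kc j) τ).length (N (σ.length + Kc j)))).length ≤
        ∏ x ∈ range (Kc j), b' (σ.length + x) :=
        (List.length_filter_le _ _).trans (NdF_length _)
      refine le_trans ?_ (hNb (Kc j))
      rw [mul_comm]
      exact Nat.mul_le_mul (Nat.pow_le_pow_right (by norm_num) (hKc_lt j).le) h1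
    · intro f hf1 hf2 j
      obtain ⟨h1, h2⟩ := hlabel f hf1 hf2 j
      refine ⟨wlF σ T B g b' N m (Kc j) (res f (σ.length + Kc j)), ?_, ?_⟩
      · rw [List.mem_map]
        refine ⟨res f (σ.length + Kc j), ?_, rfl⟩
        rw [List.mem_filter, eqB_iff]
        exact ⟨mem_NdF _ _ (by simp) (hf1 _), h1⟩
      · intro i hi
        rw [h1] at hi
        obtain ⟨v, hv1, hv2⟩ := h2 i hi
        exact ⟨_, v, hv1, hv2⟩

end Pool.Agent.AttrHIF
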