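import Pool.Agent.Lib.MP_99e598_lc.Codes
import Pool.Agent.Lib.MP_99e598_lc.Req

/-! # The trace attached to a functional with random oracle. -/

namespace Pool.Agent.AttrHIF

open Finset
open Nat.Partrec (Code)

/-- block length at level `k` -/
def bl (k : ℕ) : ℕ := 16 ^ k

/-- powers of two -/
def p2 (k : ℕ) : ℕ := 2 ^ k

section
variable {α : Type*} [Primcodable α]

@[fun_prop] theorem bl_comp {k : α → ℕ} (hk : Computable k) : Computable (fun a => bl (k a)) := by
  unfold bl; fun_prop

@[fun_prop] theorem p2_comp {k : α → ℕ} (hk : Computable k) : Computable (fun a => p2 (k a)) := by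
  unfold p2; fun_prop

/-- evaluation of a functional on binary strings -/
def GB (c : Code) (τ : List Bool) (n : ℕ) : Option ℕ := G c (τ.map Bool.toNat) n

@[fun_prop] theorem GB_comp (c : Code) {τ : α → List Bool} {n : α → ℕ} (hτ : Computable τ)
    (hn : Computable n) : Computable (fun a => GB c (τ a) (n a)) := by
  have h : Computable (fun a => (τ a).map (fun b => Bool.toNat b)) := by fun_prop
  unfold GB
  exact G_computable c h hn

/-- the bit computed -/
def bitO (o : Option ℕ) : Bool := !(eqB (o.getD 0) 0)

@[fun_prop] theorem bitO_comp {o : α → Option ℕ} (ho : Computable o) :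
    Computable (fun a => bitO (o a)) := by
  unfold bitO; fun_prop

/-- the functional converges on the block -/
def blockTot (c : Code) (k q : ℕ) (τ : List Bool) : Bool :=
  (List.range (bl k)).all (fun t => (GB c τ (bl k * q + t)).isSome)

@[fun_prop] theorem blockTot_comp (c : Code) {k q : α → ℕ} {τ : α → List Bool}
    (hk : Computable k) (hq : Computable q) (hτ : Computable τ) :
    Computable (fun a => blockTot c (k a) (q a) (τ a)) := by
  unfold blockTot; fun_prop

/-- bit `t` of codeword `i` of the code `C` -/
def cw (C : List (List Bool)) (i t : ℕ) : Bool := (C.getD i []).getD t false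

@[fun_prop] theorem cw_comp {C : α → List (List Bool)} {i t : α → ℕ}
    (hC : Computable C) (hi : Computable i) (ht : Computable t) :
    Computable (fun a => cw (C a) (i a) (t a)) := by
  unfold cw; fun_prop

/-- number of disagreements on the block with codeword `i` -/
def dis (C : ℕ → List (List Bool)) (c : Code) (k q i : ℕ) (τ : List Bool) : ℕ :=
  ((List.range (bl k)).filter
    (fun t => !(eqB (bitO (GB c τ (bl k * q + t))) (cw (C k) i t)))).length

@[fun_prop] theorem dis_comp {C : ℕ → List (List Bool)} (hC : Computable C) (c : Code)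
    {k q i : α → ℕ} {τ : α → List Bool}
    (hk : Computable k) (hq : Computable q) (hi : Computable i) (hτ : Computable τ) :
    Computable (fun a => dis C c (k a) (q a) (i a) (τ a)) := by
  unfold dis; fun_prop

/-- codeword `i` disagrees too much with the computed block -/
def Cap (C : ℕ → List (List Bool)) (c : Code) (r k q i : ℕ) (τ : List Bool) : Bool :=
  blockTot c k q τ && decide ((r + 2) * bl k < 2 * r * dis C c k q i τ)

@[fun_prop] theorem Cap_comp {C : ℕ → List (List Bool)} (hC : Computable C) (c : Code) (r : ℕ)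
    {k q i : α → ℕ} {τ : α → List Bool}
    (hk : Computable k) (hq : Computable q) (hi : Computable i) (hτ : Computable τ) :
    Computable (fun a => Cap C c r (k a) (q a) (i a) (τ a)) := by
  unfold Cap; fun_prop

/-- number of strings of length `s` capturing `i` -/
def cnt (C : ℕ → List (List Bool)) (c : Code) (r s k q i : ℕ) : ℕ :=
  ((words s).filter (fun τ => Cap C c r k q i τ)).length

@[fun_prop] theorem cnt_comp {C : ℕ → List (List Bool)} (hC : Computable C) (c : Code) (r : ℕ)
    {s k q i : α → ℕ}
    (hs : Computable s) (hk : Computable k) (hq : Computable q) (hi : Computable i) :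
    Computable (fun a => cnt C c r (s a) (k a) (q a) (i a)) := by
  unfold cnt; fun_prop

/-- the stages of the trace -/
def St (C : ℕ → List (List Bool)) (c : Code) (r k s i : ℕ) : Bool :=
  (List.range (p2 (k + 5))).any (fun q => decide (p2 s < p2 (2 * k + 5) * cnt C c r s k q i))

theorem St_comp {C : ℕ → List (List Bool)} (hC : Computable C) (c : Code) (r : ℕ) :
    Computable (fun x : ℕ × ℕ × ℕ => St C c r x.1 x.2.1 x.2.2) := by
  unfold St; fun_prop

end

theorem GB_mono (c : Code) {σ τ : List Bool} (h : σ <+: τ) {n v : ℕ} (hv : GB c σ n = some v) :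
    GB c τ n = some v := G_mono c (h.map Bool.toNat) n hv

theorem words_nodup (n : ℕ) : (words n).Nodup := by
  induction n with
  | zero => simp [words]
  | succ n ih =>
    change ((words n).flatMap (fun w => [false :: w, true :: w])).Nodup
    rw [List.nodup_flatMap]
    refine ⟨fun w _ => by simp, ?_⟩
    refine ih.imp ?_
    intro a b hab
    simp only [Function.onFun, List.disjoint_left]
    intro x hx hx2
    simp only [List.mem_cons, List.not_mem_nil, or_false] at hx hx2
    rcases hx with rfl | rfl <;> rcases hx2 with h | h <;> simp_all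

theorem Cap_mono {C : ℕ → List (List Bool)} {c : Code} {r k q i : ℕ} {σ τ : List Bool}
    (h : σ <+: τ) (hc : Cap C c r k q i σ = true) : Cap C c r k q i τ = true := by
  unfold Cap at *
  rw [Bool.and_eq_true, decide_eq_true_eq] at hc ⊢
  obtain ⟨h1, h2⟩ := hc
  unfold blockTot at *
  simp only [List.all_eq_true, List.mem_range] at h1 ⊢
  have h3 : ∀ t < bl k, GB c τ (bl k * q + t) = GB c σ (bl k * q + t) := by
    intro t ht
    obtain ⟨v, hv⟩ := Option.isSome_iff_exists.1 (h1 t ht)
    rw [hv]
    exact GB_mono c h hv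
  refine ⟨fun t ht => by rw [h3 t ht]; exact h1 t ht, ?_⟩
  have h4 : dis C c k q i τ = dis C c k q i σ := by
    unfold dis
    congr 1
    apply List.filter_congr
    intro t ht
    rw [List.mem_range] at ht
    rw [h3 t ht]
  rw [h4]
  exact h2

theorem cnt_eq (C : ℕ → List (List Bool)) (c : Code) (r s k q i : ℕ) :
    cnt C c r s k q i = ((words s).toFinset.filter (fun τ => Cap C c r k q i τ = true)).card := by
  unfold cnt
  rw [← List.toFinset_card_of_nodup ((words_nodup s).filter _)]
  congr 1
  ext τ
  simp

theorem cnt_succ (C : ℕ → List (List Bool)) (c : Code) (r s k q i : ℕ) :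
    2 * cnt C c r s k q i ≤ cnt C c r (s + 1) k q i := by
  classical
  rw [cnt_eq, cnt_eq]
  set S := (words s).toFinset.filter (fun τ => Cap C c r k q i τ = true)
  have h1 : ((S ×ˢ (univ : Finset Bool)).image (fun p => p.1 ++ [p.2])).card = 2 * S.card := by
    rw [card_image_of_injective, card_product]
    · simp [mul_comm]
    · rintro ⟨a, b⟩ ⟨a', b'⟩ h
      simp only at h
      have := List.append_inj' h rfl
      simp at this
      simp [this.1, this.2]
  rw [← h1]
  apply card_le_card
  intro x hx
  rw [mem_image] at hx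
  obtain ⟨⟨a, b⟩, hab, rfl⟩ := hx
  rw [mem_product] at hab
  have ha := hab.1
  simp only [S, mem_filter, List.mem_toFinset, mem_words] at ha ⊢
  exact ⟨by simp [ha.1], Cap_mono (List.prefix_append _ _) ha.2⟩

theorem Cap_list_bound {C : ℕ → List (List Bool)} (hC : ∀ k, goodCode k (C k) = true) (c : Code)
    {r k q : ℕ} (hr : 0 < r) (hk : 2 * r ^ 2 ≤ 2 ^ k) (τ : List Bool) :
    ((range (hb k)).filter (fun i => Cap C c r k q i τ = true)).card ≤ r ^ 2 := by
  apply list_bound hr hk (hC k) (fun t => bitO (GB c τ (bl k * q + t)))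
  intro i hi
  rw [mem_filter, mem_range] at hi
  refine ⟨hi.1, ?_⟩
  have h := hi.2
  unfold Cap at h
  rw [Bool.and_eq_true, decide_eq_true_eq] at h
  have h2 : dis C c k q i τ = ((range (16 ^ k)).filter
      (fun t => bitO (GB c τ (bl k * q + t)) ≠ ((C k).getD i []).getD t false)).card := by
    unfold dis
    rw [← List.toFinset_card_of_nodup ((List.nodup_range).filter _)]
    congr 1
    ext t
    simp [bl, cw, eqB]
  rw [← h2]
  exact h.2

theorem cnt_sum {C : ℕ → List (List Bool)} (hC : ∀ k, goodCode k (C k) = true) (c : Code)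
    {r k : ℕ} (q s : ℕ) (hr : 0 < r) (hk : 2 * r ^ 2 ≤ 2 ^ k) :
    ∑ i ∈ range (hb k), cnt C c r s k q i ≤ 2 ^ s * r ^ 2 := by
  classical
  simp only [cnt_eq, card_filter]
  rw [sum_comm]
  calc ∑ τ ∈ (words s).toFinset, ∑ i ∈ range (hb k), (if Cap C c r k q i τ = true then 1 else 0)
      ≤ ∑ τ ∈ (words s).toFinset, r ^ 2 := by
        apply sum_le_sum
        intro τ _
        rw [← card_filter]
        exact Cap_list_bound hC c hr hk τ
    _ = (words s).toFinset.card * r ^ 2 := by rw [sum_const, smul_eq_mul]
    _ ≤ 2 ^ s * r ^ 2 := by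
        apply Nat.mul_le_mul_right
        refine (List.toFinset_card_le _).trans ?_
        rw [words_length]

theorem isTrace_St {C : ℕ → List (List Bool)} (hCc : Computable C)
    (hC : ∀ k, goodCode k (C k) = true) (c : Code) {r : ℕ} (hr : 0 < r) :
    IsTrace (St C c r) := by
  classical
  refine ⟨St_comp hCc c r, ?_, ?_⟩
  · intro k s i h
    unfold St at *
    simp only [List.any_eq_true, List.mem_range, decide_eq_true_eq] at h ⊢
    obtain ⟨q, hq, h⟩ := h
    refine ⟨q, hq, ?_⟩
    have h1 := cnt_succ C c r s k q i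
    have e : p2 (s + 1) = 2 * p2 s := by unfold p2; ring
    rw [e]
    nlinarith
  · refine ⟨max 6 (2 * r ^ 2), fun k hk s => ?_⟩
    have hk6 : 6 ≤ k := (le_max_left _ _).trans hk
    have hkr : 2 * r ^ 2 ≤ 2 ^ k := ((le_max_right _ _).trans hk).trans Nat.lt_two_pow_self.le
    have hsub : (range (hb k)).filter (fun i => St C c r k s i = true) ⊆
        (range (p2 (k + 5))).biUnion (fun q => (range (hb k)).filter
          (fun i => p2 s < p2 (2 * k + 5) * cnt C c r s k q i)) := by
      intro i hi
      rw [mem_filter] at hi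
      unfold St at hi
      simp only [List.any_eq_true, List.mem_range, decide_eq_true_eq] at hi
      obtain ⟨h1, q, hq, h2⟩ := hi
      rw [mem_biUnion]
      exact ⟨q, mem_range.2 hq, mem_filter.2 ⟨h1, h2⟩⟩
    have hone : ∀ q, ((range (hb k)).filter
          (fun i => p2 s < p2 (2 * k + 5) * cnt C c r s k q i)).card ≤ 2 ^ (2 * k + 5) * r ^ 2 := by
      intro q
      have h1 : ((range (hb k)).filter
          (fun i => p2 s < p2 (2 * k + 5) * cnt C c r s k q i)).card * 2 ^ s ≤
          ∑ i ∈ range (hb k), 2 ^ (2 * k + 5) * cnt C c r s k q i := by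
        rw [← smul_eq_mul, ← sum_const]
        refine (sum_le_sum (g := fun i => 2 ^ (2 * k + 5) * cnt C c r s k q i) ?_).trans
          (sum_le_sum_of_subset (filter_subset _ _))
        intro i hi
        rw [mem_filter] at hi
        exact hi.2.le
      rw [← mul_sum] at h1
      have h2 := cnt_sum hC c q s hr hkr
      have h3 : ((range (hb k)).filter
          (fun i => p2 s < p2 (2 * k + 5) * cnt C c r s k q i)).card * 2 ^ s ≤
          (2 ^ (2 * k + 5) * r ^ 2) * 2 ^ s := by
        refine h1.trans ?_
        calc 2 ^ (2 * k + 5) * ∑ i ∈ range (hb k), cnt C c r s k q i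
            ≤ 2 ^ (2 * k + 5) * (2 ^ s * r ^ 2) := Nat.mul_le_mul_left _ h2
          _ = (2 ^ (2 * k + 5) * r ^ 2) * 2 ^ s := by ring
      exact Nat.le_of_mul_le_mul_right h3 (by positivity)
    calc ((range (hb k)).filter (fun i => St C c r k s i = true)).card
        ≤ ∑ q ∈ range (p2 (k + 5)), 2 ^ (2 * k + 5) * r ^ 2 :=
          (card_le_card hsub).trans (card_biUnion_le.trans (sum_le_sum fun q _ => hone q))
      _ = 2 ^ (k + 5) * (2 ^ (2 * k + 5) * r ^ 2) := by
          rw [sum_const, smul_eq_mul, card_range]; rfl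
      _ ≤ 2 ^ (k + 5) * (2 ^ (2 * k + 5) * 2 ^ k) := by
          have h9 : r ^ 2 ≤ 2 ^ k := by omega
          exact Nat.mul_le_mul_left _ (Nat.mul_le_mul_left _ h9)
      _ = 2 ^ (4 * k + 10) := by ring
      _ ≤ 2 ^ (k ^ 2) := by
          apply Nat.pow_le_pow_right (by norm_num)
          nlinarith

end Pool.Agent.AttrHIF
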