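import Pool.Agent.Lib.MP_99e598_lc.Oracle

/-! # Bushy trees: the combinatorial core. -/

namespace Pool.Agent.AttrHIF

open Finset

/-- Bound for the entries at level `k` of the base tree. -/
def hb (k : ℕ) : ℕ := 2 ^ (2 ^ k)

open Classical in
/-- The children of `ρ` in `T` satisfying `Q`. -/
noncomputable def kids (T : List ℕ → Bool) (Q : List ℕ → Prop) (ρ : List ℕ) : Finset ℕ :=
  (range (hb ρ.length)).filter (fun c => T (ρ ++ [c]) = true ∧ Q (ρ ++ [c]))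

theorem mem_kids {T : List ℕ → Bool} {Q : List ℕ → Prop} {ρ : List ℕ} {c : ℕ} :
    c ∈ kids T Q ρ ↔ c < hb ρ.length ∧ T (ρ ++ [c]) = true ∧ Q (ρ ++ [c]) := by
  simp [kids]

theorem kids_mono {T T' : List ℕ → Bool} {Q Q' : List ℕ → Prop} {ρ : List ℕ}
    (hT : ∀ c, T (ρ ++ [c]) = true → T' (ρ ++ [c]) = true)
    (hQ : ∀ c, Q (ρ ++ [c]) → Q' (ρ ++ [c])) : kids T Q ρ ⊆ kids T' Q' ρ := by
  intro c hc
  rw [mem_kids] at hc ⊢
  exact ⟨hc.1, hT c hc.2.1, hQ c hc.2.2⟩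

/-- There is a `d`-bushy tree of height `m` above `ρ` inside `T` with all its leaves in `D`. -/
def W (T : List ℕ → Bool) (D : List ℕ → Prop) (d : ℕ → ℕ) : ℕ → List ℕ → Prop
  | 0, ρ => D ρ
  | m + 1, ρ => d ρ.length ≤ (kids T (W T D d m) ρ).card

/-- `D` is `d`-big above `ρ` in `T`. -/
def Big (T : List ℕ → Bool) (D : List ℕ → Prop) (d : ℕ → ℕ) (ρ : List ℕ) : Prop :=
  ∃ m, W T D d m ρ

theorem W_zero {T : List ℕ → Bool} {D : List ℕ → Prop} {d : ℕ → ℕ} {ρ : List ℕ} :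
    W T D d 0 ρ ↔ D ρ := Iff.rfl

theorem W_succ {T : List ℕ → Bool} {D : List ℕ → Prop} {d : ℕ → ℕ} {m : ℕ} {ρ : List ℕ} :
    W T D d (m + 1) ρ ↔ d ρ.length ≤ (kids T (W T D d m) ρ).card := Iff.rfl

theorem W_mono_D {T : List ℕ → Bool} {D D' : List ℕ → Prop} {d : ℕ → ℕ}
    (hD : ∀ ρ, D ρ → D' ρ) {m : ℕ} {ρ : List ℕ} (h : W T D d m ρ) : W T D' d m ρ := by
  induction m generalizing ρ with
  | zero => exact hD _ h
  | succ m ih =>
    rw [W_succ] at h ⊢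
    exact h.trans (card_le_card (kids_mono (fun _ h => h) (fun _ h => ih h)))

theorem W_mono_T {T T' : List ℕ → Bool} {D : List ℕ → Prop} {d : ℕ → ℕ}
    (hT : ∀ ρ, T ρ = true → T' ρ = true) {m : ℕ} {ρ : List ℕ} (h : W T D d m ρ) :
    W T' D d m ρ := by
  induction m generalizing ρ with
  | zero => exact h
  | succ m ih =>
    rw [W_succ] at h ⊢
    exact h.trans (card_le_card (kids_mono (fun _ h => hT _ h) (fun _ h => ih h)))

theorem W_anti_d {T : List ℕ → Bool} {D : List ℕ → Prop} {d d' : ℕ → ℕ} {m : ℕ} {ρ : List ℕ}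
    (hd : ∀ k, ρ.length ≤ k → d' k ≤ d k) (h : W T D d m ρ) : W T D d' m ρ := by
  induction m generalizing ρ with
  | zero => exact h
  | succ m ih =>
    rw [W_succ] at h ⊢
    refine (hd _ le_rfl).trans (h.trans (card_le_card (kids_mono (fun _ h => h) ?_)))
    intro c hc
    exact ih (fun k hk => hd k (by simp at hk; omega)) hc

/-- Upward monotonicity in the height. -/
theorem W_up {T : List ℕ → Bool} {D : List ℕ → Prop} {d : ℕ → ℕ} {P : List ℕ → Prop}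
    (hP : ∀ ρ c, P ρ → T (ρ ++ [c]) = true → P (ρ ++ [c]))
    (hbr : ∀ ρ, P ρ → d ρ.length ≤ (kids T (fun _ => True) ρ).card)
    (hD : ∀ ρ c, D ρ → D (ρ ++ [c])) {m : ℕ} {ρ : List ℕ} (hρ : P ρ)
    (h : W T D d m ρ) : W T D d (m + 1) ρ := by
  induction m generalizing ρ with
  | zero =>
    rw [W_succ]
    refine (hbr ρ hρ).trans (card_le_card (kids_mono (fun _ h => h) ?_))
    intro c _
    exact hD _ _ h
  | succ m ih =>
    rw [W_succ] at h ⊢
    refine h.trans (card_le_card ?_)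
    intro c hc
    rw [mem_kids] at hc ⊢
    exact ⟨hc.1, hc.2.1, ih (hP _ _ hρ hc.2.1) hc.2.2⟩

theorem W_up_le {T : List ℕ → Bool} {D : List ℕ → Prop} {d : ℕ → ℕ} {P : List ℕ → Prop}
    (hP : ∀ ρ c, P ρ → T (ρ ++ [c]) = true → P (ρ ++ [c]))
    (hbr : ∀ ρ, P ρ → d ρ.length ≤ (kids T (fun _ => True) ρ).card)
    (hD : ∀ ρ c, D ρ → D (ρ ++ [c])) {m m' : ℕ} (hm : m ≤ m') {ρ : List ℕ} (hρ : P ρ)
    (h : W T D d m ρ) : W T D d m' ρ := by
  induction m', hm using Nat.le_induction with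
  | base => exact h
  | succ k _ ih => exact W_up hP hbr hD hρ ih

/-- If enough children are big then the node is big. -/
theorem Big_node {T : List ℕ → Bool} {D : List ℕ → Prop} {d : ℕ → ℕ} {P : List ℕ → Prop}
    (hP : ∀ ρ c, P ρ → T (ρ ++ [c]) = true → P (ρ ++ [c]))
    (hbr : ∀ ρ, P ρ → d ρ.length ≤ (kids T (fun _ => True) ρ).card)
    (hD : ∀ ρ c, D ρ → D (ρ ++ [c])) {ρ : List ℕ} (hρ : P ρ)
    (h : d ρ.length ≤ (kids T (Big T D d) ρ).card) : Big T D d ρ := by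
  classical
  have h1 : ∀ c ∈ kids T (Big T D d) ρ, ∃ m, W T D d m (ρ ++ [c]) := by
    intro c hc
    rw [mem_kids] at hc
    exact hc.2.2
  choose! f hf using h1
  refine ⟨(kids T (Big T D d) ρ).sup f + 1, ?_⟩
  rw [W_succ]
  refine h.trans (card_le_card ?_)
  intro c hc
  have hc' := hc
  rw [mem_kids] at hc' ⊢
  exact ⟨hc'.1, hc'.2.1, W_up_le hP hbr hD (Finset.le_sup hc) (hP _ _ hρ hc'.2.1) (hf c hc)⟩

theorem W_union {T : List ℕ → Bool} {D₁ D₂ : List ℕ → Prop} {d₁ d₂ : ℕ → ℕ} {m : ℕ}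
    {ρ : List ℕ} (h : W T (fun ρ => D₁ ρ ∨ D₂ ρ) (fun k => d₁ k + d₂ k) m ρ) :
    W T D₁ d₁ m ρ ∨ W T D₂ d₂ m ρ := by
  classical
  induction m generalizing ρ with
  | zero => exact h
  | succ m ih =>
    simp only [W_succ] at h ⊢
    have hsub : kids T (W T (fun ρ => D₁ ρ ∨ D₂ ρ) (fun k => d₁ k + d₂ k) m) ρ ⊆
        kids T (W T D₁ d₁ m) ρ ∪ kids T (W T D₂ d₂ m) ρ := by
      intro c hc
      rw [mem_union, mem_kids, mem_kids]
      rw [mem_kids] at hc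
      rcases ih hc.2.2 with h1 | h1
      · exact Or.inl ⟨hc.1, hc.2.1, h1⟩
      · exact Or.inr ⟨hc.1, hc.2.1, h1⟩
    have := (h.trans (card_le_card hsub)).trans (card_union_le _ _)
    omega

theorem W_pigeon {ι : Type*} {T : List ℕ → Bool} {D : ι → List ℕ → Prop} {d : ℕ → ℕ}
    (I : Finset ι) (hI : I.Nonempty) {N : ℕ} (hN : I.card ≤ N) {m : ℕ}
    {ρ : List ℕ} (h : W T (fun ρ => ∃ i ∈ I, D i ρ) (fun k => N * d k) m ρ) :
    ∃ i ∈ I, W T (D i) d m ρ := by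
  classical
  induction m generalizing ρ with
  | zero => exact h
  | succ m ih =>
    simp only [W_succ] at h ⊢
    by_contra hcon
    push Not at hcon
    have hsub : kids T (W T (fun ρ => ∃ i ∈ I, D i ρ) (fun k => N * d k) m) ρ ⊆
        I.biUnion (fun i => kids T (W T (D i) d m) ρ) := by
      intro c hc
      rw [mem_kids] at hc
      obtain ⟨i, hi, h1⟩ := ih hc.2.2
      rw [mem_biUnion]
      exact ⟨i, hi, mem_kids.2 ⟨hc.1, hc.2.1, h1⟩⟩
    have h2 : (I.biUnion (fun i => kids T (W T (D i) d m) ρ)).card ≤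
        ∑ i ∈ I, (kids T (W T (D i) d m) ρ).card := card_biUnion_le
    have h3 : ∑ i ∈ I, (kids T (W T (D i) d m) ρ).card < ∑ i ∈ I, d ρ.length :=
      Finset.sum_lt_sum_of_nonempty hI (fun i hi => hcon i hi)
    have h4 : ∑ i ∈ I, d ρ.length ≤ N * d ρ.length := by
      rw [sum_const, smul_eq_mul]
      exact Nat.mul_le_mul_right _ hN
    have := card_le_card hsub
    omega

/-- If bigness fails above `ρ`, then some child in `T` is not big (when `T` branches enough). -/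
theorem exists_small_child {T : List ℕ → Bool} {D : List ℕ → Prop} {d : ℕ → ℕ}
    {P : List ℕ → Prop}
    (hP : ∀ ρ c, P ρ → T (ρ ++ [c]) = true → P (ρ ++ [c]))
    (hbr : ∀ ρ, P ρ → d ρ.length ≤ (kids T (fun _ => True) ρ).card)
    (hD : ∀ ρ c, D ρ → D (ρ ++ [c])) {ρ : List ℕ} (hρ : P ρ)
    (h : ¬ Big T D d ρ) : ∃ c, T (ρ ++ [c]) = true ∧ ¬ Big T D d (ρ ++ [c]) := by
  by_contra hcon
  push Not at hcon
  apply h
  apply Big_node hP hbr hD hρ
  refine (hbr ρ hρ).trans (card_le_card ?_)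
  intro c hc
  rw [mem_kids] at hc ⊢
  exact ⟨hc.1, hc.2.1, hcon c hc.2.1⟩

end Pool.Agent.AttrHIF
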