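import Pool.Agent.Lib.MP_99e598_lc.Defs
import Pool.Agent.Lib.MP_99e598_lc.Oracle

/-! # Basic facts on Turing reducibility. -/

namespace Pool.Agent.AttrHIF

open Filter Topology

/-- total functions recursive in an oracle -/
def CI (O : Set (ℕ →. ℕ)) (u : ℕ → ℕ) : Prop := Nat.RecursiveIn O (u : ℕ →. ℕ)

theorem CI.of_computable {O : Set (ℕ →. ℕ)} {u : ℕ → ℕ} (h : Computable u) : CI O u :=
  (Partrec.nat_iff.1 h.partrec).recursiveIn

theorem CI.comp {O : Set (ℕ →. ℕ)} {u v : ℕ → ℕ} (hu : CI O u) (hv : CI O v) :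
    CI O (fun n => u (v n)) := by
  have := Nat.RecursiveIn.comp hu hv
  exact this.of_eq (fun n => Part.bind_some _ _)

theorem CI.pair {O : Set (ℕ →. ℕ)} {u v : ℕ → ℕ} (hu : CI O u) (hv : CI O v) :
    CI O (fun n => Nat.pair (u n) (v n)) := by
  have := Nat.RecursiveIn.pair hu hv
  refine this.of_eq (fun n => ?_)
  simp [seq_eq_bind_map]

theorem CI.comp₂ {O : Set (ℕ →. ℕ)} {u v : ℕ → ℕ} {h : ℕ → ℕ → ℕ} (hu : CI O u) (hv : CI O v)
    (hh : Computable (fun p : ℕ × ℕ => h p.1 p.2)) : CI O (fun n => h (u n) (v n)) := by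
  have h1 : Computable (fun n : ℕ => h n.unpair.1 n.unpair.2) :=
    hh.comp Computable.unpair
  have := (CI.of_computable (O := O) h1).comp (hu.pair hv)
  simpa using this

theorem CI.comp₃ {O : Set (ℕ →. ℕ)} {u v w : ℕ → ℕ} {h : ℕ → ℕ → ℕ → ℕ} (hu : CI O u)
    (hv : CI O v) (hw : CI O w)
    (hh : Computable (fun p : ℕ × ℕ × ℕ => h p.1 p.2.1 p.2.2)) :
    CI O (fun n => h (u n) (v n) (w n)) := by
  have h1 : Computable (fun p : ℕ × ℕ => h p.1 p.2.unpair.1 p.2.unpair.2) :=
    hh.comp (by fun_prop : Computable (fun p : ℕ × ℕ => (p.1, p.2.unpair.1, p.2.unpair.2)))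
  have := hu.comp₂ (hv.pair hw) (h := fun a b => h a b.unpair.1 b.unpair.2) h1
  simpa using this

theorem CI.trans {O O' : Set (ℕ →. ℕ)} {u : ℕ → ℕ} (hu : CI O u)
    (h : ∀ g ∈ O, Nat.RecursiveIn O' g) : CI O' u := Nat.RecursiveIn.subst hu h

theorem turing_iff (u : ℕ → ℕ) (g : ℕ →. ℕ) : TuringReducible (u : ℕ →. ℕ) g ↔ CI {g} u := by
  unfold TuringReducible CI
  rw [RecursiveIn.iff_nat]

theorem charFn_eq (A : ℕ → Bool) : charFn A = ((fun n => (A n).toNat : ℕ → ℕ) : ℕ →. ℕ) := rfl

theorem turing_charFn (B : ℕ → Bool) (g : ℕ →. ℕ) :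
    TuringReducible (charFn B) g ↔ CI {g} (fun n => (B n).toNat) := by
  rw [charFn_eq, turing_iff]

theorem CI.self (u : ℕ → ℕ) : CI {(u : ℕ →. ℕ)} u := Nat.RecursiveIn.oracle _ rfl

theorem degreeOf_eq_iff (A B : ℕ → Bool) :
    degreeOf A = degreeOf B ↔ (TuringReducible (charFn A) (charFn B) ∧
      TuringReducible (charFn B) (charFn A)) := by
  exact ⟨fun h => Quotient.exact h, fun h => Quotient.sound h⟩

/-- The graph of `f` as a set. -/
def graphSet (f : ℕ → ℕ) : ℕ → Bool := fun n => eqB (f n.unpair.1) n.unpair.2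

theorem graphSet_le (f : ℕ → ℕ) : CI {(f : ℕ →. ℕ)} (fun n => (graphSet f n).toNat) := by
  have h1 : CI {(f : ℕ →. ℕ)} (fun n => f n.unpair.1) :=
    (CI.self f).comp (CI.of_computable (by fun_prop))
  have h2 : CI {(f : ℕ →. ℕ)} (fun n => n.unpair.2) := CI.of_computable (by fun_prop)
  exact h1.comp₂ h2 (h := fun a b => (eqB a b).toNat) (by fun_prop)

theorem le_graphSet (f : ℕ → ℕ) : CI {charFn (graphSet f)} f := by
  have h1 : CI {charFn (graphSet f)} (fun n => 1 - (graphSet f n).toNat) := by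
    have h0 : CI {charFn (graphSet f)} (fun n => (graphSet f n).toNat) :=
      Nat.RecursiveIn.oracle _ rfl
    exact (CI.of_computable (u := fun m => 1 - m) (by fun_prop)).comp h0
  have h2 := Nat.RecursiveIn.rfind h1
  refine h2.of_eq_tot (fun n => ?_)
  refine Nat.mem_rfind.2 ⟨?_, ?_⟩
  · have : decide (1 - (graphSet f (Nat.pair n (f n))).toNat = 0) = true := by
      simp [graphSet, eqB]
    show true ∈ Part.map (fun m => decide (m = 0))
      (Part.some (1 - (graphSet f (Nat.pair n (f n))).toNat))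
    rw [Part.map_some, this]
    exact Part.mem_some _
  · intro m hm
    have h3 : f n ≠ m := by omega
    have : decide (1 - (graphSet f (Nat.pair n m)).toNat = 0) = false := by
      simp [graphSet, eqB, h3]
    show false ∈ Part.map (fun m => decide (m = 0))
      (Part.some (1 - (graphSet f (Nat.pair n m)).toNat))
    rw [Part.map_some, this]
    exact Part.mem_some _

/-- every functional computation relative to (the graph of) `f` is given by a code -/
theorem exists_code_graph (f g : ℕ → ℕ) (h : TuringReducible (g : ℕ →. ℕ) (charFn (graphSet f))) :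
    ∃ c : Nat.Partrec.Code, ∀ n, ∃ k, G c (res f k) n = some (g n) := by
  rw [turing_iff] at h
  apply exists_code
  refine CI.trans h ?_
  intro g' hg'
  rw [Set.mem_singleton_iff] at hg'
  subst hg'
  exact graphSet_le f

/-- coding `A` into `Y` at the powers of two -/
def codeIn (A Y : ℕ → Bool) : ℕ → Bool := fun n =>
  bif eqB (2 ^ Nat.log 2 n) n then A (Nat.log 2 n) else Y n

theorem log_computable : Computable (fun n : ℕ => Nat.log 2 n) := by
  have hP : ComputablePred (fun p : ℕ × ℕ => p.1 < 2 ^ (p.2 + 1)) := by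
    apply Computable.computablePred
    fun_prop
  have hex : ∀ n : ℕ, ∃ k, n < 2 ^ (k + 1) := by
    intro n
    exact ⟨n, lt_of_lt_of_le Nat.lt_two_pow_self (Nat.pow_le_pow_right (by norm_num) (by omega))⟩
  have h := Computable.find (P := fun n k => n < 2 ^ (k + 1)) hP hex
  refine h.of_eq (fun n => ?_)
  rw [Nat.find_eq_iff]
  constructor
  · exact Nat.lt_pow_succ_log_self (by norm_num) n
  · intro m hm
    rw [not_lt]
    rcases Nat.eq_zero_or_pos n with rfl | hn
    · simp at hm
    · exact (Nat.pow_le_pow_right (by norm_num) hm).trans (Nat.pow_log_le_self 2 (by omega))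

@[fun_prop] theorem fp_log {α : Type*} [Primcodable α] {f : α → ℕ} (hf : Computable f) :
    Computable (fun a => Nat.log 2 (f a)) := log_computable.comp hf

theorem codeIn_equiv (A Y : ℕ → Bool) (hY : TuringReducible (charFn Y) (charFn A)) :
    degreeOf (codeIn A Y) = degreeOf A := by
  rw [degreeOf_eq_iff]
  rw [turing_charFn] at hY
  rw [turing_charFn, turing_charFn]
  constructor
  · have hA : CI {charFn A} (fun n => (A n).toNat) := Nat.RecursiveIn.oracle _ rfl
    have h1 : CI {charFn A} (fun n => (A (Nat.log 2 n)).toNat) :=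
      hA.comp (CI.of_computable (by fun_prop))
    have h2 : CI {charFn A} (fun n => n) := CI.of_computable (by fun_prop)
    have h3 := h2.comp₃ h1 hY
      (h := fun n a y => bif eqB (2 ^ Nat.log 2 n) n then a else y) (by fun_prop)
    refine Nat.RecursiveIn.of_eq h3 (fun n => ?_)
    simp only [PFun.coe_val, codeIn]
    cases eqB (2 ^ Nat.log 2 n) n <;> rfl
  · have hA : CI {charFn (codeIn A Y)} (fun n => (codeIn A Y n).toNat) :=
      Nat.RecursiveIn.oracle _ rfl
    have h1 : CI {charFn (codeIn A Y)} (fun n => (codeIn A Y (2 ^ n)).toNat) :=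
      hA.comp (CI.of_computable (u := fun n => 2 ^ n) (by fun_prop))
    refine Nat.RecursiveIn.of_eq h1 (fun n => ?_)
    simp [codeIn, Nat.log_pow, (eqB_iff _ _).2]

theorem codeIn_density (A Y : ℕ → Bool) : upperDensity (symDiff Y (codeIn A Y)) = 0 := by
  apply upperDensity_eq_of_tendsto
  have hsub : symDiff Y (codeIn A Y) ⊆ Set.range (fun m : ℕ => 2 ^ m) := by
    intro n hn
    simp only [symDiff, Set.mem_ofPred_eq, codeIn] at hn
    by_contra hcon
    apply hn
    have : eqB (2 ^ Nat.log 2 n) n = false := by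
      rw [← Bool.not_eq_true, eqB_iff]
      intro h
      exact hcon ⟨Nat.log 2 n, h⟩
    rw [this]; rfl
  have hbd : ∀ n, ((symDiff Y (codeIn A Y)) ∩ Set.Iio n).ncard ≤ Nat.log 2 n + 1 := by
    intro n
    have h1 : (symDiff Y (codeIn A Y)) ∩ Set.Iio n ⊆
        ((Finset.range (Nat.log 2 n + 1)).image (fun m : ℕ => 2 ^ m) : Finset ℕ) := by
      intro k hk
      obtain ⟨m, hm⟩ := hsub hk.1
      simp only at hm
      rw [Finset.coe_image]
      refine ⟨m, ?_, hm⟩
      simp only [Finset.coe_range, Set.mem_Iio]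
      have hk2 : k < n := hk.2
      rw [← hm] at hk2
      have hn : n ≠ 0 := by omega
      have := Nat.le_log_of_pow_le (b := 2) (x := m) (y := n) (by norm_num) hk2.le
      omega
    calc _ ≤ (((Finset.range (Nat.log 2 n + 1)).image (fun m : ℕ => 2 ^ m) : Finset ℕ) :
            Set ℕ).ncard := Set.ncard_le_ncard h1 (Finset.finite_toSet _)
      _ = ((Finset.range (Nat.log 2 n + 1)).image (fun m : ℕ => 2 ^ m)).card :=
          Set.ncard_coe_finset _
      _ ≤ Nat.log 2 n + 1 := by
          refine Finset.card_image_le.trans ?_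
          simp
  have hlim : Tendsto (fun n : ℕ => ((Nat.log 2 n : ℝ) + 1) / n) atTop (𝓝 0) := by
    have h1 : Tendsto (fun n : ℕ => (Real.log n / Real.log 2 + 1) / n) atTop (𝓝 0) := by
      have h2 : Tendsto (fun n : ℕ => Real.log n / n) atTop (𝓝 0) := by
        have := (Real.isLittleO_log_id_atTop).tendsto_div_nhds_zero
        exact this.comp tendsto_natCast_atTop_atTop
      have h3 : Tendsto (fun n : ℕ => (1 : ℝ) / n) atTop (𝓝 0) :=
        tendsto_one_div_atTop_nhds_zero_nat
      have h4 := (h2.div_const (Real.log 2)).add h3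
      simp only [zero_div, add_zero] at h4
      refine h4.congr (fun n => ?_)
      rw [add_div]
      congr 1
      rw [div_right_comm]
    refine squeeze_zero (fun n => by positivity) (fun n => ?_) h1
    gcongr
    have := Real.natLog_le_logb n 2
    rwa [Real.logb] at this
  refine squeeze_zero (fun n => density_nonneg _ n) (fun n => ?_) hlim
  unfold density
  gcongr
  exact_mod_cast hbd n

end Pool.Agent.AttrHIF
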